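import Pool.Agent.RDX.Stmts
import Pool.Agent.RDS.AS

/-!
# Random digit sets, second part: the elementary asymptotics
-/

set_option autoImplicit false

namespace Pool.Agent.RDX

open Filter Topology
open Pool.Agent.RDS

namespace AS2M

/-- the variable `L ^ (1/(100 q))` -/
noncomputable def Z (q L : ℕ) : ℝ := AS.Y L ^ ((1 : ℝ) / q)

lemma Y_nonneg (L : ℕ) : 0 ≤ AS.Y L := by
  unfold AS.Y
  exact Real.rpow_nonneg (Nat.cast_nonneg L) _

lemma Z_pow (q L : ℕ) (hq : 1 ≤ q) : Z q L ^ q = AS.Y L := by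
  unfold Z
  rw [← Real.rpow_natCast, ← Real.rpow_mul (Y_nonneg L), one_div,
    inv_mul_cancel₀ (by exact_mod_cast (by omega : q ≠ 0)), Real.rpow_one]

lemma Z_tendsto (q : ℕ) (hq : 1 ≤ q) : Tendsto (Z q) atTop atTop :=
  (tendsto_rpow_atTop (by
    have : (0 : ℝ) < q := by exact_mod_cast hq
    positivity : (0 : ℝ) < 1 / q)).comp AS.Y_tendsto

noncomputable def Mf (q L : ℕ) : ℕ := ⌊Z q L⌋₊ + 1

/-- the bound for the first term -/
noncomputable def gf (q k : ℕ) : ℝ := (k : ℝ) ^ (200 * q) * (11 ^ k / (Nat.factorial k : ℝ))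

lemma gf_tendsto (q : ℕ) : Tendsto (gf q) atTop (𝓝 0) := by
  have h1 : ∀ᶠ k : ℕ in atTop, (k : ℝ) ^ (200 * q) ≤ 2 ^ k := by
    have h := (isLittleO_pow_const_const_pow_of_one_lt (R := ℝ) (200 * q)
      (by norm_num : (1 : ℝ) < 2)).bound (by norm_num : (0 : ℝ) < 1)
    filter_upwards [h] with k hk
    rw [one_mul, Real.norm_eq_abs, Real.norm_eq_abs, abs_of_nonneg (by positivity),
      abs_of_nonneg (by positivity)] at hk
    exact hk
  have h2 : Tendsto (fun k : ℕ => (22 : ℝ) ^ k / (Nat.factorial k : ℝ)) atTop (𝓝 0) :=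
    FloorSemiring.tendsto_pow_div_factorial_atTop 22
  refine squeeze_zero' (Eventually.of_forall fun k => by unfold gf; positivity) ?_ h2
  filter_upwards [h1] with k hk
  unfold gf
  rw [← mul_div_assoc]
  have h3 : (0 : ℝ) < (Nat.factorial k : ℝ) := by exact_mod_cast Nat.factorial_pos k
  rw [div_le_div_iff_of_pos_right h3]
  calc (k : ℝ) ^ (200 * q) * 11 ^ k ≤ 2 ^ k * 11 ^ k := by gcongr
    _ = 22 ^ k := by rw [← mul_pow]; norm_num

lemma Mf_tendsto (q : ℕ) (hq : 1 ≤ q) : Tendsto (fun L => Mf q L + 1) atTop atTop := by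
  have h1 : Tendsto (fun L => ⌊Z q L⌋₊) atTop atTop :=
    tendsto_nat_floor_atTop.comp (Z_tendsto q hq)
  refine tendsto_atTop_mono (fun L => ?_) h1
  unfold Mf
  omega

noncomputable def df (q L : ℕ) : ℝ := 20 * gf q (Mf q L + 1) + AS.df L

lemma df_tendsto (q : ℕ) (hq : 1 ≤ q) : Tendsto (df q) atTop (𝓝 0) := by
  have h1 : Tendsto (fun L => gf q (Mf q L + 1)) atTop (𝓝 0) :=
    (gf_tendsto q).comp (Mf_tendsto q hq)
  have h4 := (h1.const_mul 20).add AS.df_tendsto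
  have e : (20 * 0 + 0 : ℝ) = 0 := by norm_num
  rw [e] at h4
  exact h4

lemma pw (q L : ℕ) (hq : 2 ≤ q) (h0 : 2000 ≤ AS.Y L)
    (h1 : 72 * (8 : ℝ) ^ (2 * q) ≤ AS.Y L) (hlog : Real.log (AS.Y L) ≤ AS.Y L / 20000) :
    (1 ≤ Mf q L ∧ Mf q L + 1 ≤ L ∧ 1 ≤ AS.sf L ∧ 4 * AS.sf L ≤ L ∧ 4 * AS.s1f L ≤ L ∧
      (1 : ℝ) ≤ AS.Y L ^ 10 ∧
    144 * AS.Y L ^ 10 * (Mf q L : ℝ) ^ 2 ≤ ((AS.sf L : ℝ) / L) ^ 6 * L ∧
    20 * (L : ℝ) ^ 2 * (11 ^ (Mf q L + 1) / (Nat.factorial (Mf q L + 1) : ℝ)) +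
      3 / AS.Y L ^ 10 +
      (4 * (L : ℝ) ^ AS.s1f L * Real.exp (-((L : ℝ) / 96)) +
      400 * (L : ℝ) ^ 2 * (L : ℝ) ^ AS.sf L *
        Real.exp (-((AS.s1f L : ℝ) / (96 * Mf q L)))) ≤ df q L) ∧
    72 * AS.Y L ^ 10 * (4 * (Mf q L : ℝ)) ^ (2 * q) ≤ L := by
  obtain ⟨b1, b2, b3, b4, b5, b6, b7, b8⟩ := AS.pw L (AS.Y L) rfl h0 hlog
  set y : ℝ := AS.Y L with hy
  have hy0 : 0 < y := by linarith
  have hy1 : (1 : ℝ) ≤ y := by linarith
  have hL : (L : ℝ) = y ^ 100 := by rw [hy, AS.Y_pow]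
  have hq1 : 1 ≤ q := by omega
  have hZq : Z q L ^ q = y := Z_pow q L hq1
  have hZ0 : 0 ≤ Z q L := Real.rpow_nonneg (Y_nonneg L) _
  have hZ1 : 1 ≤ Z q L := by
    unfold Z
    exact Real.one_le_rpow hy1 (by positivity)
  have hZy : Z q L ≤ y := by
    calc Z q L = Z q L ^ 1 := (pow_one _).symm
      _ ≤ Z q L ^ q := pow_le_pow_right₀ hZ1 hq1
      _ = y := hZq
  have hMM : Mf q L ≤ AS.Mf L := by
    unfold Mf AS.Mf
    exact Nat.add_le_add_right (Nat.floor_le_floor hZy) 1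
  have hM0 : 1 ≤ Mf q L := by unfold Mf; omega
  have hMMr : (Mf q L : ℝ) ≤ AS.Mf L := by exact_mod_cast hMM
  have hM0r : (1 : ℝ) ≤ Mf q L := by exact_mod_cast hM0
  have hM1 : Z q L ≤ ((Mf q L + 1 : ℕ) : ℝ) := by
    have := Nat.lt_floor_add_one (Z q L)
    unfold Mf
    push_cast
    linarith
  have hM2 : (Mf q L : ℝ) ≤ 2 * Z q L := by
    have := Nat.floor_le hZ0
    unfold Mf
    push_cast
    linarith
  refine ⟨⟨hM0, by omega, b3, b4, b5, b6, ?_, ?_⟩, ?_⟩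
  · refine le_trans ?_ b7
    gcongr
  · have a1 : 20 * (L : ℝ) ^ 2 * (11 ^ (Mf q L + 1) / (Nat.factorial (Mf q L + 1) : ℝ)) ≤
        20 * gf q (Mf q L + 1) := by
      unfold gf
      rw [mul_assoc]
      have h2 : (L : ℝ) ^ 2 ≤ ((Mf q L + 1 : ℕ) : ℝ) ^ (200 * q) := by
        calc (L : ℝ) ^ 2 = Z q L ^ (200 * q) := by
              rw [hL, ← hZq, ← pow_mul, ← pow_mul]
              congr 1
              ring
          _ ≤ _ := pow_le_pow_left₀ hZ0 hM1 _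
      gcongr
    have a2 : 400 * (L : ℝ) ^ 2 * (L : ℝ) ^ AS.sf L *
        Real.exp (-((AS.s1f L : ℝ) / (96 * Mf q L))) ≤
        400 * (L : ℝ) ^ 2 * (L : ℝ) ^ AS.sf L *
        Real.exp (-((AS.s1f L : ℝ) / (96 * AS.Mf L))) := by
      refine mul_le_mul_of_nonneg_left (Real.exp_le_exp.2 (neg_le_neg ?_)) (by positivity)
      exact div_le_div_of_nonneg_left (Nat.cast_nonneg _) (by linarith) (by linarith)
    have a3 : 0 ≤ 20 * (L : ℝ) ^ 2 *
        (11 ^ (AS.Mf L + 1) / (Nat.factorial (AS.Mf L + 1) : ℝ)) := by positivity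
    unfold df
    linarith
  · have e1 : (4 * (Mf q L : ℝ)) ^ (2 * q) ≤ (8 * Z q L) ^ (2 * q) :=
      pow_le_pow_left₀ (by positivity) (by linarith) _
    have e2 : (8 * Z q L) ^ (2 * q) = (8 : ℝ) ^ (2 * q) * y ^ 2 := by
      rw [mul_pow]
      congr 1
      rw [mul_comm 2 q, pow_mul, hZq]
    have e3 : (1 : ℝ) ≤ y ^ 87 := one_le_pow₀ hy1
    calc 72 * y ^ 10 * (4 * (Mf q L : ℝ)) ^ (2 * q)
        ≤ 72 * y ^ 10 * ((8 : ℝ) ^ (2 * q) * y ^ 2) := by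
          rw [← e2]
          exact mul_le_mul_of_nonneg_left e1 (by positivity)
      _ = (72 * (8 : ℝ) ^ (2 * q)) * y ^ 12 := by ring
      _ ≤ y * y ^ 12 := mul_le_mul_of_nonneg_right h1 (by positivity)
      _ = y ^ 13 * 1 := by ring
      _ ≤ y ^ 13 * y ^ 87 := mul_le_mul_of_nonneg_left e3 (by positivity)
      _ = L := by rw [hL, ← pow_add]

end AS2M

open AS2M in
theorem AS2_thm : Stmt_AS2 := by
  intro q hq
  refine ⟨Mf q, AS.sf, AS.s1f, fun L => AS.Y L ^ 10, df q, df_tendsto q (by omega), ?_⟩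
  have h1 : ∀ᶠ L : ℕ in atTop, 2000 ≤ AS.Y L := AS.Y_tendsto.eventually_ge_atTop 2000
  have h1' : ∀ᶠ L : ℕ in atTop, 72 * (8 : ℝ) ^ (2 * q) ≤ AS.Y L :=
    AS.Y_tendsto.eventually_ge_atTop _
  have h2 : ∀ᶠ y : ℝ in atTop, Real.log y ≤ y / 20000 := by
    have h := Real.isLittleO_log_id_atTop.bound (by norm_num : (0 : ℝ) < 1 / 20000)
    filter_upwards [h, eventually_ge_atTop (1 : ℝ)] with y hy hy1
    rw [Real.norm_eq_abs, Real.norm_eq_abs, id_eq, abs_of_nonneg (Real.log_nonneg hy1),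
      abs_of_nonneg (by linarith)] at hy
    linarith
  obtain ⟨L1, hL1⟩ := eventually_atTop.1 ((h1.and h1').and (AS.Y_tendsto.eventually h2))
  refine ⟨max 200 L1, le_max_left _ _, fun L hL => ?_⟩
  obtain ⟨⟨h3, h3'⟩, h4⟩ := hL1 L ((le_max_right _ _).trans hL)
  exact pw q L hq h3 h3' h4

end Pool.Agent.RDX
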