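import Pool.Agent.RDX.Stmts

/-!
# Random digit sets, second part: the weight of the bad pairs (BDX)
-/

set_option autoImplicit false

namespace Pool.Agent.RDX

open MeasureTheory Set
open Pool.Agent.RDS

namespace BDXM

variable {L : ℕ} {D : Fin L → ℕ × ℕ}

/-- Joint measurability of the iterates of a measurable family. -/
theorem meas_iter {Φ : ℝ → ℝ → ℝ} (h : Measurable fun q : ℝ × ℝ => Φ q.1 q.2) (n : ℕ) :
    Measurable fun q : ℝ × ℝ => (T D q.1)^[n] (Φ q.1) q.2 := by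
  induction n with
  | zero => exact h
  | succ n ih =>
    have : (fun q : ℝ × ℝ => (T D q.1)^[n + 1] (Φ q.1) q.2) = fun q : ℝ × ℝ =>
        (∑ p : Fin L × Fin L, (T D q.1)^[n] (Φ q.1) ((L : ℝ) * q.2 - dt D q.1 p)) / (L : ℝ) := by
      funext q
      rw [iter_succ']
      rfl
    rw [this]
    refine (Finset.measurable_sum _ fun p _ => ?_).div_const _
    exact ih.comp (f := fun q : ℝ × ℝ => (q.1, (L : ℝ) * q.2 - dt D q.1 p))
      (by unfold dt; fun_prop)

/-- The integral of a finite sum. -/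
theorem lint_sum {ι : Type*} (s : Finset ι) (μ : Measure ℝ) (g : ι → ℝ → ℝ) (B : ℝ)
    (hm : ∀ i ∈ s, Measurable (g i)) (h0 : ∀ i ∈ s, ∀ t, 0 ≤ g i t)
    (hB : ∀ i ∈ s, ∫⁻ t, ENNReal.ofReal (g i t) ∂μ ≤ ENNReal.ofReal B) :
    ∫⁻ t, ENNReal.ofReal (∑ i ∈ s, g i t) ∂μ ≤ ENNReal.ofReal ((s.card : ℝ) * B) := by
  have e : ∀ t, ENNReal.ofReal (∑ i ∈ s, g i t) = ∑ i ∈ s, ENNReal.ofReal (g i t) := fun t =>
    ENNReal.ofReal_sum_of_nonneg fun i hi => h0 i hi t
  rw [lintegral_congr e, lintegral_finsetSum s fun i hi => (hm i hi).ennreal_ofReal]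
  calc ∑ i ∈ s, ∫⁻ t, ENNReal.ofReal (g i t) ∂μ ≤ ∑ _i ∈ s, ENNReal.ofReal B :=
        Finset.sum_le_sum hB
    _ = ENNReal.ofReal ((s.card : ℝ) * B) := by
        rw [Finset.sum_const, nsmul_eq_mul, ENNReal.ofReal_mul (Nat.cast_nonneg _),
          ENNReal.ofReal_natCast]

/-- The integral of a multiple. -/
theorem lint_mul (μ : Measure ℝ) (g : ℝ → ℝ) (a B : ℝ) (ha : 0 ≤ a)
    (hB : ∫⁻ t, ENNReal.ofReal (g t) ∂μ ≤ ENNReal.ofReal B) :
    ∫⁻ t, ENNReal.ofReal (a * g t) ∂μ ≤ ENNReal.ofReal (a * B) := by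
  have e : ∀ t, ENNReal.ofReal (a * g t) = ENNReal.ofReal a * ENNReal.ofReal (g t) := fun t =>
    ENNReal.ofReal_mul ha
  rw [lintegral_congr e, lintegral_const_mul' _ _ ENNReal.ofReal_ne_top, ENNReal.ofReal_mul ha]
  exact mul_le_mul_of_nonneg_left hB bot_le

/-- The truncated iterates are bounded by a power. -/
theorem ps_le {β : ℝ} (hβ : 1 ≤ β) {q : ℕ} (hq : 1 ≤ q) (t : ℝ) (m : ℕ) (x : ℝ) :
    ps D β t m x ≤ 1 / β ^ (q - 1) * Y D t m x ^ q := by
  have h0 := Y_nonneg (D := D) t m x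
  have hb : (0 : ℝ) < β ^ (q - 1) := by positivity
  unfold ps
  split
  · rename_i h
    obtain ⟨r, rfl⟩ : ∃ r, q = r + 1 := ⟨q - 1, by omega⟩
    rw [show r + 1 - 1 = r from rfl] at hb ⊢
    rw [one_div, ← div_eq_inv_mul, le_div_iff₀ hb, pow_succ, mul_comm]
    exact mul_le_mul_of_nonneg_right (pow_le_pow_left₀ (by linarith) h.le r) h0
  · positivity

/-- The iterates vanish far away. -/
theorem Y_far (hS : Stmt_SHR) (hD : Ok D) (hL : 16 ≤ L) {t : ℝ} (ht : t ∈ Icc (0 : ℝ) 1) (m : ℕ)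
    {y : ℝ} (hy : 4 < |y|) : Y D t m y = 0 :=
  (hS D hD hL t ht Psi (fun z hz => Psi_eq_zero (by linarith)) m y).1 hy

theorem ps_far (hS : Stmt_SHR) (hD : Ok D) (hL : 16 ≤ L) {t : ℝ} (ht : t ∈ Icc (0 : ℝ) 1) (β : ℝ)
    (m : ℕ) {y : ℝ} (hy : 4 < |y|) : ps D β t m y = 0 := by
  unfold ps
  rw [Y_far hS hD hL ht m hy]
  split <;> rfl

theorem iter_ps_far (hS : Stmt_SHR) (hD : Ok D) (hL : 16 ≤ L) {t : ℝ} (ht : t ∈ Icc (0 : ℝ) 1)
    (β : ℝ) (m j : ℕ) {y : ℝ} (hy : 4 < |y|) : (T D t)^[j] (ps D β t m) y = 0 :=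
  (hS D hD hL t ht _ (fun _ hz => ps_far hS hD hL ht β m hz) j y).1 hy

/-- The second point as a moving point. -/
theorem pt_eq (t : ℝ) (p p' : Fin L × Fin L) : (L : ℝ) * dt D t p - dt D t p' =
    (((L : ℤ) * dx D p - dx D p' : ℤ) : ℝ) + t * (((L : ℤ) * dy D p - dy D p' : ℤ) : ℝ) := by
  unfold dt
  push_cast
  ring

theorem abs_bd {L : ℕ} (x y : ℤ) (hL : 1 ≤ L) (hx : |(x : ℝ)| ≤ L - 1) (hy : |(y : ℝ)| ≤ L - 1) :
    |(L : ℤ) * x - y| ≤ (L : ℤ) ^ 2 := by
  have hL' : (1 : ℝ) ≤ L := by exact_mod_cast hL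
  have h : |(((L : ℤ) * x - y : ℤ) : ℝ)| ≤ (L : ℝ) ^ 2 := by
    push_cast
    calc |(L : ℝ) * x - y| ≤ |(L : ℝ) * x| + |(y : ℝ)| := abs_sub _ _
      _ = L * |(x : ℝ)| + |(y : ℝ)| := by rw [abs_mul, abs_of_nonneg (by linarith : (0 : ℝ) ≤ L)]
      _ ≤ L * (L - 1) + (L - 1) := add_le_add (mul_le_mul_of_nonneg_left hx (by linarith)) hy
      _ ≤ (L : ℝ) ^ 2 := by nlinarith
  exact_mod_cast h

section
variable {M : ℕ} {K c : ℝ} {q : ℕ}

/-- The bound for the iterates of the truncated function at the second points. -/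
theorem pt_ps (hS : Stmt_SHR) (hO : Stmt_OPQ) (h : CritX D M K c q) (hinj : Function.Injective D)
    (hOpp : Opp D) {C : ℝ} (hC : 0 < C)
    (hMo : ∀ a b : ℤ, 2 ≤ |b| → |b| ≤ (L : ℤ) ^ 2 → ∀ H : ℝ, 1 ≤ H → ∀ j m : ℕ,
      ∫⁻ t in Gd D a b H, ENNReal.ofReal ((T D t)^[j] (fun x => Y D t m x ^ q) (a + t * b)) ≤
        ENNReal.ofReal (C * H))
    {H β : ℝ} (hH : 1 ≤ H) (hβ : 1 ≤ β) (p p' : Fin L × Fin L) (hp : p.1 ≠ p.2) (j m : ℕ) :
    ∫⁻ t in GdA D H, ENNReal.ofReal ((T D t)^[j] (ps D β t m) ((L : ℝ) * dt D t p - dt D t p')) ≤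
      ENNReal.ofReal (1 / β ^ (q - 1) * (C * H)) ∧
    ∫⁻ t in GdA D H, ENNReal.ofReal (Y D t m ((L : ℝ) * dt D t p - dt D t p') ^ q) ≤
      ENNReal.ofReal (C * H) := by
  have hD : Ok D := h.toOk
  have hL := h.L16'
  have hq := h.hq
  have hb0 : (0 : ℝ) < β ^ (q - 1) := by positivity
  by_cases hb : |(L : ℤ) * dy D p - dy D p'| ≤ 1
  · have hfar : ∀ t ∈ GdA D H, 4 < |(L : ℝ) * dt D t p - dt D t p'| := fun t ht =>
      hO D hD hinj hOpp p p' hp hb t ht.1
    constructor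
    · refine le_trans (setLIntegral_mono' (g := fun _ => 0) (measurableSet_GdA H)
        fun t ht => ?_) (by simp)
      rw [iter_ps_far hS hD hL ht.1 β m j (hfar t ht), ENNReal.ofReal_zero]
    · refine le_trans (setLIntegral_mono' (g := fun _ => 0) (measurableSet_GdA H)
        fun t ht => ?_) (by simp)
      rw [Y_far hS hD hL ht.1 m (hfar t ht), zero_pow (by omega), ENNReal.ofReal_zero]
  · have hb2 : 2 ≤ |(L : ℤ) * dy D p - dy D p'| := by omega
    have ha3 : |(L : ℤ) * dx D p - dx D p'| ≤ (L : ℤ) ^ 2 :=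
      abs_bd _ _ (by omega) (hD.abs_dx p) (hD.abs_dx p')
    have hb3 : |(L : ℤ) * dy D p - dy D p'| ≤ (L : ℤ) ^ 2 :=
      abs_bd _ _ (by omega) (hD.abs_dy p) (hD.abs_dy p')
    have hsub := GdA_subset (D := D) ha3 hb2 hb3 H
    constructor
    · have h1 := hMo ((L : ℤ) * dx D p - dx D p') _ hb2 hb3 H hH j m
      have h2 := le_trans (lintegral_mono_set hsub) h1
      have h3 := lint_mul _ _ (1 / β ^ (q - 1)) _ (by positivity) h2
      refine le_trans (lintegral_mono fun t => ENNReal.ofReal_le_ofReal ?_) h3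
      rw [pt_eq, ← iter_smul]
      exact iter_mono (fun y => ps_le hβ (by omega) t m y) t j _
    · have h1 := hMo ((L : ℤ) * dx D p - dx D p') _ hb2 hb3 H hH 0 m
      have h2 := le_trans (lintegral_mono_set hsub) h1
      refine le_trans (lintegral_mono fun t => ENNReal.ofReal_le_ofReal ?_) h2
      rw [pt_eq]
      exact le_rfl

/-- Measurability of the functions at the second points. -/
theorem meas_pt (β : ℝ) (j m : ℕ) (p p' : Fin L × Fin L) :
    Measurable fun t : ℝ => (T D t)^[j] (ps D β t m) ((L : ℝ) * dt D t p - dt D t p') := by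
  have h1 : Continuous fun t : ℝ => (L : ℝ) * dt D t p - dt D t p' :=
    (continuous_const.mul (continuous_dt p)).sub (continuous_dt p')
  exact (meas_iter (D := D) (Φ := fun t => ps D β t m) (measurable_ps β m) j).comp
    (f := fun t : ℝ => (t, (L : ℝ) * dt D t p - dt D t p')) (measurable_id.prodMk h1.measurable)

theorem meas_pt1 (β : ℝ) (j m : ℕ) (p : Fin L × Fin L) :
    Measurable fun t : ℝ => (T D t)^[j] (ps D β t m) (dt D t p) :=
  (meas_iter (D := D) (Φ := fun t => ps D β t m) (measurable_ps β m) j).comp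
    (f := fun t : ℝ => (t, dt D t p)) (measurable_id.prodMk (continuous_dt p).measurable)

theorem cont_Y (m : ℕ) (p p' : Fin L × Fin L) :
    Continuous fun t : ℝ => Y D t m ((L : ℝ) * dt D t p - dt D t p') := by
  have h1 : Continuous fun t : ℝ => (L : ℝ) * dt D t p - dt D t p' :=
    (continuous_const.mul (continuous_dt p)).sub (continuous_dt p')
  exact (continuous_Y m).comp (f := fun t : ℝ => (t, (L : ℝ) * dt D t p - dt D t p'))
    (continuous_id.prodMk h1)

/-- The bound for one pair of digits. -/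
theorem pair (hS : Stmt_SHR) (hO : Stmt_OPQ) (h : CritX D M K c q) (hinj : Function.Injective D)
    (hOpp : Opp D) {C : ℝ} (hC : 0 < C)
    (hMo : ∀ a b : ℤ, 2 ≤ |b| → |b| ≤ (L : ℤ) ^ 2 → ∀ H : ℝ, 1 ≤ H → ∀ j m : ℕ,
      ∫⁻ t in Gd D a b H, ENNReal.ofReal ((T D t)^[j] (fun x => Y D t m x ^ q) (a + t * b)) ≤
        ENNReal.ofReal (C * H))
    {H β : ℝ} (hH : 1 ≤ H) (hβ : 1 ≤ β) (p : Fin L × Fin L) (hp : p.1 ≠ p.2) (j m : ℕ) :
    ∫⁻ t in GdA D H, ENNReal.ofReal ((T D t)^[j] (ps D β t m) (dt D t p)) ≤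
      ENNReal.ofReal ((L : ℝ) ^ q * (1 / β ^ (q - 1) * (C * H))) := by
  have hD : Ok D := h.toOk
  have hL := h.L16'
  have hLr := h.L16
  have hL0 : (0 : ℝ) < L := by linarith
  have hq := h.hq
  have hb0 : (0 : ℝ) < β ^ (q - 1) := by positivity
  have hcard : ((Finset.univ : Finset (Fin L × Fin L)).card : ℝ) = (L : ℝ) ^ 2 := by
    rw [Finset.card_univ, Fintype.card_prod, Fintype.card_fin]
    push_cast
    ring
  obtain ⟨s, hs⟩ : ∃ s, q = s + 1 := ⟨q - 1, by omega⟩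
  rcases Nat.eq_zero_or_pos j with hj | hj
  · subst hj
    rcases Nat.eq_zero_or_pos m with hm | hm
    · subst hm
      refine le_trans (lintegral_mono (g := fun _ => 0) fun t => ?_) (by simp)
      have : ps D β t 0 (dt D t p) = 0 := by
        unfold ps
        rw [if_neg]
        rw [Y_zero]
        exact not_lt.2 ((Psi_le_one _).trans hβ)
      show ENNReal.ofReal (ps D β t 0 (dt D t p)) ≤ 0
      rw [this, ENNReal.ofReal_zero]
    · obtain ⟨m', rfl⟩ : ∃ m', m = m' + 1 := ⟨m - 1, by omega⟩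
      have h1 : ∀ t : ℝ, ps D β t (m' + 1) (dt D t p) ≤ ((L : ℝ) ^ (2 * s) / (L : ℝ) ^ q *
          (1 / β ^ (q - 1))) * ∑ p' : Fin L × Fin L, Y D t m' ((L : ℝ) * dt D t p - dt D t p') ^ q := by
        intro t
        refine (ps_le hβ (q := q) (by omega) t (m' + 1) _).trans ?_
        have e : Y D t (m' + 1) (dt D t p) =
            (∑ p' : Fin L × Fin L, Y D t m' ((L : ℝ) * dt D t p - dt D t p')) / (L : ℝ) := by
          unfold Y
          rw [iter_succ']
          rfl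
        have h2 := pow_sum_div_card_le_sum_pow (s := (Finset.univ : Finset (Fin L × Fin L)))
          (f := fun p' => Y D t m' ((L : ℝ) * dt D t p - dt D t p'))
          (fun i _ => Y_nonneg _ _ _) s
        rw [hcard, ← pow_mul, div_le_iff₀ (by positivity)] at h2
        rw [e, div_pow, hs]
        rw [show (L : ℝ) ^ (2 * s) / (L : ℝ) ^ (s + 1) * (1 / β ^ (s + 1 - 1)) *
          ∑ p' : Fin L × Fin L, Y D t m' ((L : ℝ) * dt D t p - dt D t p') ^ (s + 1) =
          1 / β ^ (s + 1 - 1) * (((∑ p' : Fin L × Fin L,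
            Y D t m' ((L : ℝ) * dt D t p - dt D t p') ^ (s + 1)) * (L : ℝ) ^ (2 * s)) /
              (L : ℝ) ^ (s + 1)) from by ring]
        exact mul_le_mul_of_nonneg_left (div_le_div_of_nonneg_right h2 (by positivity))
          (by positivity)
      have h3 := lint_sum (Finset.univ : Finset (Fin L × Fin L)) (volume.restrict (GdA D H))
        (fun p' t => Y D t m' ((L : ℝ) * dt D t p - dt D t p') ^ q) (C * H)
        (fun p' _ => ((cont_Y m' p p').pow q).measurable)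
        (fun p' _ t => pow_nonneg (Y_nonneg _ _ _) _)
        (fun p' _ => (pt_ps hS hO h hinj hOpp hC hMo hH hβ p p' hp 0 m').2)
      have h4 := lint_mul _ _ ((L : ℝ) ^ (2 * s) / (L : ℝ) ^ q * (1 / β ^ (q - 1))) _
        (by positivity) h3
      refine le_trans (lintegral_mono fun t => ENNReal.ofReal_le_ofReal (h1 t)) (h4.trans ?_)
      refine ENNReal.ofReal_le_ofReal (le_of_eq ?_)
      rw [hcard, hs]
      have : (L : ℝ) ^ (2 * s) / (L : ℝ) ^ (s + 1) * (L : ℝ) ^ 2 = (L : ℝ) ^ (s + 1) := by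
        rw [div_mul_eq_mul_div, ← pow_add, div_eq_iff (by positivity), ← pow_add]
        congr 1
        ring
      calc (L : ℝ) ^ (2 * s) / (L : ℝ) ^ (s + 1) * (1 / β ^ (s + 1 - 1)) *
            ((L : ℝ) ^ 2 * (C * H)) =
          ((L : ℝ) ^ (2 * s) / (L : ℝ) ^ (s + 1) * (L : ℝ) ^ 2) *
            (1 / β ^ (s + 1 - 1) * (C * H)) := by ring
        _ = _ := by rw [this]
  · obtain ⟨j', rfl⟩ : ∃ j', j = j' + 1 := ⟨j - 1, by omega⟩
    have h1 : ∀ t : ℝ, (T D t)^[j' + 1] (ps D β t m) (dt D t p) = (1 / (L : ℝ)) *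
        ∑ p' : Fin L × Fin L, (T D t)^[j'] (ps D β t m) ((L : ℝ) * dt D t p - dt D t p') := by
      intro t
      rw [iter_succ', one_div, ← div_eq_inv_mul]
      rfl
    have h3 := lint_sum (Finset.univ : Finset (Fin L × Fin L)) (volume.restrict (GdA D H))
      (fun p' t => (T D t)^[j'] (ps D β t m) ((L : ℝ) * dt D t p - dt D t p'))
      (1 / β ^ (q - 1) * (C * H))
      (fun p' _ => meas_pt β j' m p p')
      (fun p' _ t => iter_nonneg (fun y => ps_nonneg _ _ _ _) _ _ _)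
      (fun p' _ => (pt_ps hS hO h hinj hOpp hC hMo hH hβ p p' hp j' m).1)
    have h4 := lint_mul _ _ (1 / (L : ℝ)) _ (by positivity) h3
    refine le_trans (lintegral_mono fun t => ENNReal.ofReal_le_ofReal (h1 t).le) (h4.trans ?_)
    refine ENNReal.ofReal_le_ofReal ?_
    rw [hcard]
    have h5 : (1 / (L : ℝ)) * ((L : ℝ) ^ 2 * (1 / β ^ (q - 1) * (C * H))) =
        L * (1 / β ^ (q - 1) * (C * H)) := by field_simp
    rw [h5]
    refine mul_le_mul_of_nonneg_right ?_ (by positivity)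
    calc (L : ℝ) = (L : ℝ) ^ 1 := (pow_one _).symm
      _ ≤ (L : ℝ) ^ q := pow_le_pow_right₀ (by linarith) (by omega)

end

end BDXM

open BDXM in
theorem BDX_thm : Stmt_BDX := by
  classical
  intro hS hPRX hO L D M K c q h hinj hOpp hMo
  obtain ⟨C, hC, hMo⟩ := hMo
  have hD : Ok D := h.toOk
  have hLr := h.L16
  have hL0 : (0 : ℝ) < L := by linarith
  refine ⟨(L : ℝ) ^ (q + 1) * C, by positivity, ?_⟩
  intro N H β hH hβ
  have hb0 : (0 : ℝ) < β ^ (q - 1) := by positivity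
  set B : ℝ := (L : ℝ) ^ q * (1 / β ^ (q - 1) * (C * H)) with hBdef
  have hB0 : 0 ≤ B := by positivity
  have e : ∀ t : ℝ, Bd D N β t = ∑ n ∈ Finset.range N, ∑ j ∈ Finset.range (n + 1),
      (1 / (L : ℝ)) * ∑ p : Fin L × Fin L, if p.1 = p.2 then 0 else
        (T D t)^[j] (ps D β t (N - (n + 1))) (dt D t p) := by
    intro t
    unfold Bd
    refine Finset.sum_congr rfl fun n _ => ?_
    rw [hPRX D hD t (ps D β t (N - (n + 1))) (n + 1)]
    refine Finset.sum_congr rfl fun j _ => ?_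
    rw [one_div, ← div_eq_inv_mul]
  have hcard : ((Finset.univ : Finset (Fin L × Fin L)).card : ℝ) = (L : ℝ) ^ 2 := by
    rw [Finset.card_univ, Fintype.card_prod, Fintype.card_fin]
    push_cast
    ring
  have hm0 : ∀ (m j : ℕ) (p : Fin L × Fin L), Measurable fun t : ℝ =>
      (if p.1 = p.2 then 0 else (T D t)^[j] (ps D β t m) (dt D t p) : ℝ) := by
    intro m j p
    by_cases hp : p.1 = p.2
    · simp only [hp, if_true]
      exact measurable_const
    · simp only [hp, if_false]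
      exact meas_pt1 β j m p
  have hn0 : ∀ (m j : ℕ) (p : Fin L × Fin L) (t : ℝ),
      0 ≤ (if p.1 = p.2 then 0 else (T D t)^[j] (ps D β t m) (dt D t p) : ℝ) := by
    intro m j p t
    split
    · exact le_rfl
    · exact iter_nonneg (fun y => ps_nonneg _ _ _ _) _ _ _
  have h1 : ∀ m j : ℕ, ∫⁻ t in GdA D H, ENNReal.ofReal ((1 / (L : ℝ)) *
      ∑ p : Fin L × Fin L, if p.1 = p.2 then 0 else (T D t)^[j] (ps D β t m) (dt D t p)) ≤
      ENNReal.ofReal (L * B) := by
    intro m j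
    have h3 := lint_sum (Finset.univ : Finset (Fin L × Fin L)) (volume.restrict (GdA D H))
      (fun p t => if p.1 = p.2 then 0 else (T D t)^[j] (ps D β t m) (dt D t p)) B
      (fun p _ => hm0 m j p) (fun p _ t => hn0 m j p t) (fun p _ => ?_)
    · have h4 := lint_mul _ _ (1 / (L : ℝ)) _ (by positivity) h3
      refine h4.trans (ENNReal.ofReal_le_ofReal (le_of_eq ?_))
      rw [hcard]
      field_simp
    · by_cases hp : p.1 = p.2
      · simp only [hp, if_true, ENNReal.ofReal_zero, lintegral_zero]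
        exact bot_le
      · simp only [hp, if_false]
        exact pair hS hO h hinj hOpp hC hMo hH hβ p hp j m
  rw [lintegral_congr fun t => congrArg ENNReal.ofReal (e t)]
  have h5 : ∀ n ∈ Finset.range N, ∫⁻ t in GdA D H, ENNReal.ofReal (∑ j ∈ Finset.range (n + 1),
      (1 / (L : ℝ)) * ∑ p : Fin L × Fin L, if p.1 = p.2 then 0 else
        (T D t)^[j] (ps D β t (N - (n + 1))) (dt D t p)) ≤ ENNReal.ofReal (N * (L * B)) := by
    intro n hn
    have h6 := lint_sum (Finset.range (n + 1)) (volume.restrict (GdA D H))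
      (fun j t => (1 / (L : ℝ)) * ∑ p : Fin L × Fin L, if p.1 = p.2 then 0 else
        (T D t)^[j] (ps D β t (N - (n + 1))) (dt D t p)) (L * B)
      (fun j _ => (Finset.measurable_sum _ fun p _ => hm0 _ j p).const_mul _)
      (fun j _ t => mul_nonneg (by positivity) (Finset.sum_nonneg fun p _ => hn0 _ j p t))
      (fun j _ => h1 _ j)
    refine h6.trans (ENNReal.ofReal_le_ofReal ?_)
    rw [Finset.card_range]
    refine mul_le_mul_of_nonneg_right ?_ (by positivity)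
    exact_mod_cast Finset.mem_range.1 hn
  have h7 := lint_sum (Finset.range N) (volume.restrict (GdA D H))
    (fun n t => ∑ j ∈ Finset.range (n + 1), (1 / (L : ℝ)) * ∑ p : Fin L × Fin L,
      if p.1 = p.2 then 0 else (T D t)^[j] (ps D β t (N - (n + 1))) (dt D t p)) (N * (L * B))
    (fun n _ => Finset.measurable_sum _ fun j _ =>
      (Finset.measurable_sum _ fun p _ => hm0 _ j p).const_mul _)
    (fun n _ t => Finset.sum_nonneg fun j _ =>
      mul_nonneg (by positivity) (Finset.sum_nonneg fun p _ => hn0 _ j p t))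
    h5
  refine h7.trans (ENNReal.ofReal_le_ofReal (le_of_eq ?_))
  rw [Finset.card_range, hBdef]
  ring

end Pool.Agent.RDX
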