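import Pool.Agent.RDX.Stmts

/-!
# CRX: the criterion, assembly
-/

set_option autoImplicit false

namespace Pool.Agent.RDX

open MeasureTheory Set
open Pool.Agent.RDS

namespace CRXM

theorem inj_sw {L : ℕ} {D : Fin L → ℕ × ℕ} (h : Function.Injective D) :
    Function.Injective (sw D) := by
  intro i j hij
  apply h
  unfold sw at hij
  rw [Prod.mk.injEq] at hij
  exact Prod.ext hij.2 hij.1

theorem inj_fl {L : ℕ} {D : Fin L → ℕ × ℕ} (hD : Ok D) (h : Function.Injective D) :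
    Function.Injective (fl D) := by
  intro i j hij
  apply h
  unfold fl at hij
  rw [Prod.mk.injEq] at hij
  have h1 := (hD.bx i).2
  have h2 := (hD.bx j).2
  exact Prod.ext hij.1 (by omega)

/-- The tail estimate of the first part. -/
theorem tail (hCSH : Stmt_CSH) (hEXP : Stmt_EXP) (hPSI : Stmt_PSI) (hDER : Stmt_DER)
    (hPAR : Stmt_PAR) (hLEMF : Stmt_LEMF) (hLEMG : Stmt_LEMG) (hPSB : Stmt_PSB)
    (hRATE : Stmt_RATE) (hNOD : Stmt_NOD) (hSTEP : Stmt_STEP) (hTLE : Stmt_TLE)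
    (hAUT : Stmt_AUT) (hTLS : Stmt_TLS)
    {L : ℕ} (D : Fin L → ℕ × ℕ) (M : ℕ) (K c : ℝ) (hc : Crit D M K c) : Tail D := by
  have hr : RDS.Rat D K := hRATE hCSH hEXP hPSI hDER hPAR hLEMF hLEMG hPSB D M K c hc
  have hs : Stp D M K := hSTEP hCSH hEXP hPSI hDER hNOD D M K c hc hr
  exact hTLS hAUT hNOD hTLE D M K c hc hs

/-- The mean length for one set of digits. -/
theorem one (hTail : ∀ {L : ℕ} (D : Fin L → ℕ × ℕ) (M : ℕ) (K c : ℝ), Crit D M K c → Tail D)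
    (hCSH : Stmt_CSH) (hEXP : Stmt_EXP) (hPAR : Stmt_PAR) (hLEMF : Stmt_LEMF)
    (hLEMG : Stmt_LEMG) (hVIT : Stmt_VIT) (hREC : Stmt_REC)
    (hND4 : Stmt_ND4) (hSHR : Stmt_SHR) (hPSX : Stmt_PSX) (hPBX : Stmt_PBX) (hDRX : Stmt_DRX)
    (hRTX : Stmt_RTX) (hSPX : Stmt_SPX) (hUTX : Stmt_UTX) (hGST : Stmt_GST) (hGS2 : Stmt_GS2)
    (hMOM : Stmt_MOM) (hPRX : Stmt_PRX) (hOPQ : Stmt_OPQ) (hBDX : Stmt_BDX) (hEXC : Stmt_EXC)
    (hST2 : Stmt_ST2) (hDC2 : Stmt_DC2) (hIN2 : Stmt_IN2) (hMEN : Stmt_MEN)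
    {L : ℕ} (D : Fin L → ℕ × ℕ) (q : ℕ) (ε : ℝ) (hε : 6 ≤ ε * ((q : ℝ) - 1))
    (hinj : Function.Injective D) (h : PX q D) :
    ∃ C : ℝ, 0 < C ∧ ∀ n : ℕ, 1 ≤ n → ∫ t in (0 : ℝ)..1, len D n t ≤ C * (n : ℝ) ^ (-1 + ε) := by
  obtain ⟨M, K, c, hc, hopp⟩ := h
  have hok : Ok D := hc.toCrit.toOk
  have ht : Tail D := hTail D M K c hc.toCrit
  have hr : Rat D K := hRTX hCSH hEXP hPSX hDRX hPAR hLEMF hLEMG hPBX D M K c hc.toCrit
  have hst : StX D M K := hSPX hCSH hEXP hPSX hDRX hND4 D M K c q hc hr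
  have hut : UtX D M K := hUTX hND4 D M K c q hc hst
  have hgs : GsX D K := hGST hCSH hEXP hPSX hDRX hSHR D M K c q hc hr
  have hgt : GtX D M K := hGS2 hND4 hSHR D M K c q hc hgs
  have hmo : MoX D q := hMOM hND4 D M K c q hc hgt
  have hbd : BdX D q := hBDX hSHR hPRX hOPQ D M K c q hc hinj hopp hmo
  have hex : ExX D q := hEXC D M K c q hc hut hbd
  have hdc : DcX D := hDC2 hVIT hREC hST2 D hok
  have hin : InX D := hIN2 D hok hdc ht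
  exact hMEN D q ε hok hc.hq hε hex hin

end CRXM

open CRXM in
theorem CRX_thm (hCSH : Stmt_CSH) (hEXP : Stmt_EXP) (hPSI : Stmt_PSI) (hDER : Stmt_DER)
    (hPAR : Stmt_PAR) (hLEMF : Stmt_LEMF) (hLEMG : Stmt_LEMG) (hPSB : Stmt_PSB)
    (hRATE : Stmt_RATE) (hNOD : Stmt_NOD) (hSTEP : Stmt_STEP) (hTLE : Stmt_TLE)
    (hAUT : Stmt_AUT) (hTLS : Stmt_TLS) (hVIT : Stmt_VIT) (hREC : Stmt_REC)
    (hGEO : Stmt_GEO) (hFAV : Stmt_FAV) (hCONT : Stmt_CONT) (hCAP : Stmt_CAP)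
    (hND4 : Stmt_ND4) (hSHR : Stmt_SHR) (hPSX : Stmt_PSX) (hPBX : Stmt_PBX) (hDRX : Stmt_DRX)
    (hRTX : Stmt_RTX) (hSPX : Stmt_SPX) (hUTX : Stmt_UTX) (hGST : Stmt_GST) (hGS2 : Stmt_GS2)
    (hMOM : Stmt_MOM) (hPRX : Stmt_PRX) (hOPQ : Stmt_OPQ) (hBDX : Stmt_BDX) (hEXC : Stmt_EXC)
    (hST2 : Stmt_ST2) (hDC2 : Stmt_DC2) (hIN2 : Stmt_IN2) (hMEN : Stmt_MEN) : Stmt_CRX := by
  intro L D q ε hε hinj h1 h2 h3 h4
  have hD : Ok D := by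
    obtain ⟨M, K, c, h, _⟩ := h1
    exact h.toCrit.toOk
  have hsw : Ok (sw D) := by
    obtain ⟨M, K, c, h, _⟩ := h3
    exact h.toCrit.toOk
  have key := fun (D' : Fin L → ℕ × ℕ) (hi : Function.Injective D') (h : PX q D') =>
    one (fun D M K c hc => tail hCSH hEXP hPSI hDER hPAR hLEMF hLEMG hPSB hRATE hNOD hSTEP hTLE
      hAUT hTLS D M K c hc) hCSH hEXP hPAR hLEMF hLEMG hVIT hREC hND4 hSHR hPSX hPBX hDRX hRTX
      hSPX hUTX hGST hGS2 hMOM hPRX hOPQ hBDX hEXC hST2 hDC2 hIN2 hMEN D' q ε hε hi h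
  obtain ⟨C1, hC1, k1⟩ := key D hinj h1
  obtain ⟨C2, hC2, k2⟩ := key (fl D) (inj_fl hD hinj) h2
  obtain ⟨C3, hC3, k3⟩ := key (sw D) (inj_sw hinj) h3
  obtain ⟨C4, hC4, k4⟩ := key (fl (sw D)) (inj_fl hsw (inj_sw hinj)) h4
  obtain ⟨c, hc, hcap⟩ := hCAP hGEO hCONT D hD hinj
  have hCs : 0 < C1 + C2 + C3 + C4 := by positivity
  refine ⟨min c (1 / (C1 + C2 + C3 + C4)), lt_min hc (by positivity), fun n hn => ?_⟩
  have hn0 : (0 : ℝ) < √n := Real.sqrt_pos.2 (by exact_mod_cast hn)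
  have hn1 : (0 : ℝ) < n := by exact_mod_cast hn
  have hp : (0 : ℝ) < (n : ℝ) ^ (-1 + ε) := Real.rpow_pos_of_pos hn1 _
  have hfav := hFAV hGEO D hD n
  have hsum : FCC.Fav (gen D n) ≤ (C1 + C2 + C3 + C4) * (n : ℝ) ^ (-1 + ε) := by
    linarith [k1 n hn, k2 n hn, k3 n hn, k4 n hn]
  constructor
  · have hm0 : 0 < min c (1 / (C1 + C2 + C3 + C4)) := lt_min hc (by positivity)
    calc min c (1 / (C1 + C2 + C3 + C4)) * FCC.Fav (gen D n)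
        ≤ min c (1 / (C1 + C2 + C3 + C4)) * ((C1 + C2 + C3 + C4) * (n : ℝ) ^ (-1 + ε)) :=
          mul_le_mul_of_nonneg_left hsum hm0.le
      _ ≤ (1 / (C1 + C2 + C3 + C4)) * ((C1 + C2 + C3 + C4) * (n : ℝ) ^ (-1 + ε)) :=
          mul_le_mul_of_nonneg_right (min_le_right _ _) (by positivity)
      _ = (n : ℝ) ^ (-1 + ε) := by field_simp
  · exact (div_le_div_of_nonneg_right (min_le_left _ _) hn0.le).trans (hcap n hn)

end Pool.Agent.RDX
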