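import Pool.Agent.RDX.Stmts

/-!
# Random digit sets, second part: the exceptional directions (EXC)
-/

set_option autoImplicit false

namespace Pool.Agent.RDX

open MeasureTheory Set
open Pool.Agent.RDS

namespace EXCM

variable {L : ℕ} {D : Fin L → ℕ × ℕ} {M : ℕ} {K c : ℝ} {q : ℕ}

/-- The least level at which the small ratio is below `1/n`. -/
theorem level (h : CritX D M K c q) (n : ℕ) (hn : 1 ≤ n) :
    ∃ k : ℕ, 1 ≤ k ∧ the L M K ^ k ≤ 1 / (n : ℝ) ∧ (2 * (M : ℝ)) ^ k ≤ 2 * M * n := by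
  classical
  have hn0 : (0 : ℝ) < n := by exact_mod_cast hn
  have ht0 : 0 < the L M K := h.the_pos
  have hex : ∃ k : ℕ, 1 ≤ k ∧ the L M K ^ k ≤ 1 / (n : ℝ) := by
    refine ⟨n, hn, ?_⟩
    calc the L M K ^ n ≤ (1 / 2 : ℝ) ^ n := pow_le_pow_left₀ ht0.le h.the_half n
      _ = 1 / (2 : ℝ) ^ n := by rw [one_div, one_div, inv_pow]
      _ ≤ 1 / (n : ℝ) := by
        apply one_div_le_one_div_of_le hn0
        exact_mod_cast (Nat.lt_two_pow_self (n := n)).le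
  refine ⟨Nat.find hex, (Nat.find_spec hex).1, (Nat.find_spec hex).2, ?_⟩
  obtain ⟨k, hk⟩ : ∃ k, Nat.find hex = k + 1 :=
    ⟨Nat.find hex - 1, by have := (Nat.find_spec hex).1; omega⟩
  rw [hk]
  have hM := h.M1
  have hpre : (2 * (M : ℝ)) ^ k ≤ n := by
    rcases Nat.eq_zero_or_pos k with h0 | h0
    · subst h0
      simpa using (by exact_mod_cast hn : (1 : ℝ) ≤ n)
    · have hmin := Nat.find_min hex (m := k) (by omega)
      have hlt : 1 / (n : ℝ) < the L M K ^ k := by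
        by_contra hcon
        exact hmin ⟨h0, not_lt.mp hcon⟩
      have hprod : the L M K ^ k * (2 * (M : ℝ)) ^ k ≤ 1 := by
        rw [← mul_pow]
        exact pow_le_one₀ (by positivity) h.the_le
      have hpos : 0 < (2 * (M : ℝ)) ^ k := by positivity
      by_contra hcon
      have hcon' : (n : ℝ) < (2 * (M : ℝ)) ^ k := not_le.mp hcon
      have : 1 < the L M K ^ k * (2 * (M : ℝ)) ^ k := by
        calc (1 : ℝ) = 1 / (n : ℝ) * n := by field_simp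
          _ < the L M K ^ k * (2 * (M : ℝ)) ^ k :=
            mul_lt_mul hlt hcon'.le hn0 (by positivity)
      linarith
  calc (2 * (M : ℝ)) ^ (k + 1) = 2 * M * (2 * (M : ℝ)) ^ k := by ring
    _ ≤ 2 * M * n := by gcongr

/-- The threshold. -/
theorem thr (q : ℕ) (hq : 2 ≤ q) (n : ℕ) (hn : 1 ≤ n) :
    ∃ β : ℕ, 1 ≤ β ∧ (β : ℝ) ≤ 2 * (n : ℝ) ^ ((5 : ℝ) / ((q : ℝ) - 1)) ∧
      (n : ℝ) ^ 5 ≤ (β : ℝ) ^ (q - 1) := by
  have hn1 : (1 : ℝ) ≤ n := by exact_mod_cast hn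
  have hq1 : (0 : ℝ) < (q : ℝ) - 1 := by
    have : (2 : ℝ) ≤ q := by exact_mod_cast hq
    linarith
  set y : ℝ := (n : ℝ) ^ ((5 : ℝ) / ((q : ℝ) - 1)) with hy
  have hy1 : 1 ≤ y := Real.one_le_rpow hn1 (by positivity)
  refine ⟨⌈y⌉₊, ?_, ?_, ?_⟩
  · exact Nat.one_le_iff_ne_zero.mpr (by
      have : 0 < ⌈y⌉₊ := Nat.ceil_pos.mpr (by linarith)
      omega)
  · have := Nat.ceil_lt_add_one (show (0 : ℝ) ≤ y by linarith)
    linarith
  · have hc : y ≤ (⌈y⌉₊ : ℝ) := Nat.le_ceil y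
    calc (n : ℝ) ^ 5 = y ^ (q - 1) := by
          rw [hy, ← Real.rpow_natCast _ (q - 1), ← Real.rpow_mul (by positivity),
            Nat.cast_sub (by omega), Nat.cast_one, div_mul_cancel₀ _ hq1.ne',
            ← Real.rpow_natCast]
          norm_num
      _ ≤ (⌈y⌉₊ : ℝ) ^ (q - 1) := pow_le_pow_left₀ (by linarith) hc _

end EXCM

open EXCM in
theorem EXC_thm : Stmt_EXC := by
  intro L D M K c q h hU hB
  obtain ⟨C1, hC1, hU⟩ := hU
  obtain ⟨C2, hC2, hB⟩ := hB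
  have hM := h.M1
  refine ⟨C1 + 4 * (C2 * (2 * M + 2)), by positivity, ?_⟩
  intro n hn
  have hn0 : (0 : ℝ) < n := by exact_mod_cast hn
  have hn1 : (1 : ℝ) ≤ n := by exact_mod_cast hn
  obtain ⟨β, hβ1, hβ2, hβ3⟩ := thr q h.hq n hn
  obtain ⟨k, hk1, hk2, hk3⟩ := level h n hn
  refine ⟨β, hβ1, hβ2, ?_⟩
  intro N hN
  set H : ℝ := (2 * (M : ℝ)) ^ k + 2 with hH
  have hH1 : 1 ≤ H := by
    have : 0 ≤ (2 * (M : ℝ)) ^ k := by positivity
    linarith
  have hHn : H ≤ (2 * M + 2) * n := by nlinarith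
  have hβr : (1 : ℝ) ≤ (β : ℝ) := by exact_mod_cast hβ1
  have hβpos : (0 : ℝ) < (β : ℝ) ^ (q - 1) := by positivity
  have hsub : {t : ℝ | t ∈ Icc (0 : ℝ) 1 ∧ 1 / 4 < Bd D N β t} ⊆
      {t : ℝ | t ∈ Icc (0 : ℝ) 1 ∧ t ∉ GdA D H} ∪
        ({t : ℝ | ENNReal.ofReal (1 / 4) ≤ ENNReal.ofReal (Bd D N β t)} ∩ GdA D H) := by
    intro t ht
    by_cases hg : t ∈ GdA D H
    · exact Or.inr ⟨ENNReal.ofReal_le_ofReal ht.2.le, hg⟩
    · exact Or.inl ⟨ht.1, hg⟩
  have hmeas : Measurable fun t => ENNReal.ofReal (Bd D N β t) :=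
    (measurable_Bd N β).ennreal_ofReal
  have hmark : volume ({t : ℝ | ENNReal.ofReal (1 / 4) ≤ ENNReal.ofReal (Bd D N β t)} ∩ GdA D H) ≤
      ENNReal.ofReal (4 * (C2 * (2 * M + 2)) / n) := by
    have h1 := mul_meas_ge_le_lintegral₀ (μ := volume.restrict (GdA D H))
      hmeas.aemeasurable (ENNReal.ofReal (1 / 4))
    have hms : MeasurableSet {t : ℝ | ENNReal.ofReal (1 / 4) ≤ ENNReal.ofReal (Bd D N β t)} :=
      measurableSet_le measurable_const hmeas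
    rw [Measure.restrict_apply hms] at h1
    have h2 := h1.trans (hB N H β hH1 hβr)
    have h3 : C2 * H * (N : ℝ) ^ 2 / (β : ℝ) ^ (q - 1) ≤ C2 * (2 * M + 2) / n := by
      have hN' : (N : ℝ) ≤ n := by exact_mod_cast hN
      have hN0 : (0 : ℝ) ≤ N := Nat.cast_nonneg N
      have hnum : C2 * H * (N : ℝ) ^ 2 ≤ C2 * ((2 * M + 2) * n) * (n : ℝ) ^ 2 := by
        gcongr
      calc C2 * H * (N : ℝ) ^ 2 / (β : ℝ) ^ (q - 1)
          ≤ C2 * ((2 * M + 2) * n) * (n : ℝ) ^ 2 / (n : ℝ) ^ 5 := by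
            apply div_le_div₀ (by positivity) hnum (by positivity) hβ3
        _ = C2 * (2 * M + 2) / n / n := by field_simp
        _ ≤ C2 * (2 * M + 2) / n := by
            apply div_le_self (by positivity) hn1
    have h4 := h2.trans (ENNReal.ofReal_le_ofReal h3)
    have h5 : ENNReal.ofReal 4 * (ENNReal.ofReal (1 / 4) *
        volume ({t : ℝ | ENNReal.ofReal (1 / 4) ≤ ENNReal.ofReal (Bd D N β t)} ∩ GdA D H)) ≤
        ENNReal.ofReal 4 * ENNReal.ofReal (C2 * (2 * M + 2) / n) := by gcongr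
    rw [← mul_assoc, ← ENNReal.ofReal_mul (by norm_num), ← ENNReal.ofReal_mul (by norm_num),
      show (4 : ℝ) * (1 / 4) = 1 by norm_num, ENNReal.ofReal_one, one_mul] at h5
    refine h5.trans (ENNReal.ofReal_le_ofReal (le_of_eq ?_))
    ring
  calc volume {t : ℝ | t ∈ Icc (0 : ℝ) 1 ∧ 1 / 4 < Bd D N β t}
      ≤ volume {t : ℝ | t ∈ Icc (0 : ℝ) 1 ∧ t ∉ GdA D H} +
        volume ({t : ℝ | ENNReal.ofReal (1 / 4) ≤ ENNReal.ofReal (Bd D N β t)} ∩ GdA D H) :=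
        (measure_mono hsub).trans (measure_union_le _ _)
    _ ≤ ENNReal.ofReal (C1 * the L M K ^ k) + ENNReal.ofReal (4 * (C2 * (2 * M + 2)) / n) :=
        add_le_add (hU k hk1) hmark
    _ ≤ ENNReal.ofReal (C1 / n) + ENNReal.ofReal (4 * (C2 * (2 * M + 2)) / n) := by
        gcongr
        calc C1 * the L M K ^ k ≤ C1 * (1 / n) := by gcongr
          _ = C1 / n := by ring
    _ = ENNReal.ofReal ((C1 + 4 * (C2 * (2 * M + 2))) / n) := by
        rw [← ENNReal.ofReal_add (by positivity) (by positivity)]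
        congr 1
        ring

end Pool.Agent.RDX
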