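import Pool.Agent.RDX.Stmts
import Pool.Agent.RDS.FIN

/-!
# FNX: the theorem
-/

set_option autoImplicit false

namespace Pool.Agent.RDX

open MeasureTheory Set
open Pool.Agent.RDS

namespace FNXM

open Classical in
theorem good_of_conc {L : ℕ} (ε : ℝ) (D : Fin L → ℕ × ℕ) (h : ConcX ε D) :
    GoodX ε L (Finset.univ.image D) := by
  obtain ⟨c, hc, hn⟩ := h
  refine ⟨c, hc, fun n h1 => ?_⟩
  rw [RDS.FINM.gens_image]
  exact hn n h1

end FNXM

open FNXM in
theorem FNX_thm (hCRX : Stmt_CRX)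
    (hRN2 : ∀ q : ℕ, 2 ≤ q → Filter.Tendsto (fun L : ℕ => nb L (fun ω => ¬ PX q (dg ω)) /
      (L : ℝ) ^ (2 * L)) Filter.atTop (nhds 0))
    (hRSY : Stmt_RSY) (hRSB : Stmt_RSB) : Stmt_FNX := by
  classical
  intro ε hε
  obtain ⟨q0, hq0⟩ := exists_nat_ge (6 / ε)
  set q : ℕ := q0 + 2 with hq
  have hq2 : 2 ≤ q := by omega
  have hqε : 6 ≤ ε * ((q : ℝ) - 1) := by
    rw [div_le_iff₀ hε] at hq0
    rw [hq]
    push_cast
    nlinarith
  set δ : ℕ → ℝ := fun L : ℕ => nb L (fun ω => ¬ PX q (dg ω)) / (L : ℝ) ^ (2 * L) with hδ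
  have hbad : ∀ L : ℕ, 1 ≤ L →
      (((digitSets L).filter fun D => ¬ GoodX ε L D).card : ℝ) / ((digitSets L).card : ℝ) ≤
        8 * δ L := by
    intro L hL
    refine (hRSB L (GoodX ε L) hL).1.trans ?_
    have hLp : (0 : ℝ) < (L : ℝ) ^ (2 * L) := by
      have : (0 : ℝ) < L := by exact_mod_cast hL
      positivity
    set P : (Fin L → ℕ × ℕ) → Prop := fun D => ¬ PX q D with hP
    obtain ⟨s1, s2, s3⟩ := hRSY L P
    have h1 : nb L (fun ω => Function.Injective (dg ω) ∧
        ¬ GoodX ε L (Finset.univ.image (dg ω))) ≤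
        nb L (fun ω => P (dg ω)) + nb L (fun ω => P (fl (dg ω))) + nb L (fun ω => P (sw (dg ω))) +
          nb L (fun ω => P (fl (sw (dg ω)))) := by
      refine (RDS.FINM.nb_mono (Q := fun ω => ((P (dg ω) ∨ P (fl (dg ω))) ∨ P (sw (dg ω))) ∨
        P (fl (sw (dg ω)))) ?_).trans ?_
      · rintro ω ⟨hi, hg⟩
        by_contra hcon
        simp only [hP, not_or, not_not] at hcon
        exact hg (good_of_conc ε _ (hCRX (dg ω) q ε hqε hi hcon.1.1.1 hcon.1.1.2 hcon.1.2 hcon.2))
      · refine (RDS.FINM.nb_or _ _).trans (add_le_add ((RDS.FINM.nb_or _ _).trans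
          (add_le_add (RDS.FINM.nb_or _ _) le_rfl)) le_rfl)
    rw [s1, s2, s3] at h1
    have h2 : nb L (fun ω => P (dg ω)) = δ L * (L : ℝ) ^ (2 * L) := by
      rw [hδ]
      field_simp
      rfl
    rw [h2] at h1
    rw [div_le_iff₀ hLp]
    linarith
  have hgood : ∀ L : ℕ, 1 ≤ L → 1 - 8 * δ L ≤
      (((digitSets L).filter fun D => GoodX ε L D).card : ℝ) / ((digitSets L).card : ℝ) := by
    intro L hL
    have hpos := (hRSB L (GoodX ε L) hL).2
    have hp : (0 : ℝ) < ((digitSets L).card : ℝ) := by exact_mod_cast hpos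
    have hsum := Finset.card_filter_add_card_filter_not (s := digitSets L)
      (fun D => GoodX ε L D)
    have hs : (((digitSets L).filter fun D => GoodX ε L D).card : ℝ) +
        (((digitSets L).filter fun D => ¬ GoodX ε L D).card : ℝ) = ((digitSets L).card : ℝ) := by
      exact_mod_cast hsum
    have hb := hbad L hL
    rw [div_le_iff₀ hp] at hb
    rw [le_div_iff₀ hp]
    nlinarith
  have hle : ∀ L : ℕ,
      (((digitSets L).filter fun D => GoodX ε L D).card : ℝ) / ((digitSets L).card : ℝ) ≤ 1 := by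
    intro L
    refine div_le_one_of_le₀ ?_ (Nat.cast_nonneg _)
    exact_mod_cast Finset.card_filter_le _ _
  have hlim : Filter.Tendsto (fun L : ℕ => 1 - 8 * δ L) Filter.atTop (nhds 1) := by
    have := ((hRN2 q hq2).const_mul 8).const_sub 1
    simpa using this
  exact tendsto_of_tendsto_of_tendsto_of_le_of_le' hlim tendsto_const_nhds
    (Filter.eventually_atTop.2 ⟨1, hgood⟩) (Filter.Eventually.of_forall hle)

end Pool.Agent.RDX
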