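import Pool.Agent.RDX.Stmts

/-!
# RDX: the mean squares of the increments in good directions, all generations
-/

set_option autoImplicit false

namespace Pool.Agent.RDX

open MeasureTheory Set
open Pool.Agent.RDS

namespace GS2M

variable {L : ℕ} {D : Fin L → ℕ × ℕ}

theorem Y_le (h4 : Stmt_ND4) (hD : Ok D) {M : ℕ} (hM : Deg D M) {t : ℝ} (ht : t ∈ Icc (0 : ℝ) 1)
    (n : ℕ) (x : ℝ) : Y D t n x ≤ (2 * (M : ℝ)) ^ n :=
  (iter_mono Psi_le_ind t n x).trans
    (h4 D hD M hM t ⟨by linarith [ht.1], by linarith [ht.2]⟩ n x)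

theorem Y_far (hS : Stmt_SHR) (hD : Ok D) (hL : 16 ≤ L) {t : ℝ} (ht : t ∈ Icc (0 : ℝ) 1)
    (n : ℕ) {x : ℝ} (hx : 4 < |x|) : Y D t n x = 0 :=
  (hS D hD hL t ht Psi (fun y hy => Psi_eq_zero (by linarith)) n x).1 hx

theorem gr_far (hS : Stmt_SHR) (hD : Ok D) (hL : 16 ≤ L) {t : ℝ} (ht : t ∈ Icc (0 : ℝ) 1)
    (r : ℕ) {x : ℝ} (hx : 4 < |x|) : gr D r x t = 0 := by
  change Y D t (r + 1) x - Y D t r x = 0
  rw [Y_far hS hD hL ht _ hx, Y_far hS hD hL ht _ hx, sub_zero]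

theorem gr_sq_le (h4 : Stmt_ND4) (hS : Stmt_SHR) (hD : Ok D) (hL : 16 ≤ L) {M : ℕ}
    (hM : Deg D M) (hM1 : (1 : ℝ) ≤ M) {t : ℝ} (ht : t ∈ Icc (0 : ℝ) 1) (r : ℕ) (x : ℝ) :
    gr D r x t ^ 2 ≤ (2 * (M : ℝ)) ^ (2 * (r + 1)) * ind 4 x := by
  rcases le_or_gt |x| 4 with h | h
  · rw [ind_of_le h, mul_one, mul_comm 2 (r + 1), pow_mul]
    have e : gr D r x t = Y D t (r + 1) x - Y D t r x := rfl
    have h1 := Y_le h4 hD hM ht (r + 1) x
    have h2 := Y_le h4 hD hM ht r x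
    have h3 := Y_nonneg (D := D) t (r + 1) x
    have h5 := Y_nonneg (D := D) t r x
    have h6 : (2 * (M : ℝ)) ^ r ≤ (2 * (M : ℝ)) ^ (r + 1) :=
      pow_le_pow_right₀ (by linarith) (Nat.le_succ r)
    rw [e]
    exact sq_le_sq' (by linarith) (by linarith)
  · rw [gr_far hS hD hL ht r h, ind_of_lt h]
    norm_num

/-- The Cauchy-Schwarz inequality for the iterates of the operator. -/
theorem cs {g : ℝ → ℝ} (hg : ∀ y, 4 < |y| → g y = 0) {t P : ℝ} (hP : 0 < P) (n : ℕ) (x : ℝ)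
    (h : (T D t)^[n] (ind 4) x ≤ P) :
    ((T D t)^[n] g x) ^ 2 ≤ P * (T D t)^[n] (fun y => g y ^ 2) x := by
  set R := (T D t)^[n] g x with hR
  set Q := (T D t)^[n] (fun y => g y ^ 2) x with hQ
  have h1 : 0 ≤ (T D t)^[n] (fun y => (R / P * ind 4 y - g y) ^ 2) x :=
    iter_nonneg (fun y => sq_nonneg _) t n x
  have h2 : (fun y => (R / P * ind 4 y - g y) ^ 2) =
      fun y => (R / P) ^ 2 * ind 4 y - (2 * (R / P) * g y - g y ^ 2) := by
    funext y
    rcases le_or_gt |y| 4 with hy | hy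
    · rw [ind_of_le hy]; ring
    · rw [ind_of_lt hy, hg y hy]; ring
  rw [h2, iter_sub (fun y => (R / P) ^ 2 * ind 4 y) (fun y => 2 * (R / P) * g y - g y ^ 2) t n x,
    iter_smul ((R / P) ^ 2) (ind 4) t n x,
    iter_sub (fun y => 2 * (R / P) * g y) (fun y => g y ^ 2) t n x,
    iter_smul (2 * (R / P)) g t n x, ← hR, ← hQ] at h1
  have h3 : (R / P) ^ 2 * (T D t)^[n] (ind 4) x ≤ (R / P) ^ 2 * P :=
    mul_le_mul_of_nonneg_left h (sq_nonneg _)
  have h4 : 0 ≤ (R / P) ^ 2 * P - 2 * (R / P) * R + Q := by linarith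
  have h5 : (R / P) ^ 2 * P - 2 * (R / P) * R = -(R ^ 2 / P) := by
    field_simp
    ring
  have h6 : R ^ 2 / P ≤ Q := by linarith
  rw [div_le_iff₀ hP] at h6
  linarith

theorem gr_iter (n r : ℕ) (x t : ℝ) :
    gr D (n + r) x t = (T D t)^[n] (fun y => gr D r y t) x := by
  unfold gr
  rw [iter_sub ((T D t)^[r + 1] Psi) ((T D t)^[r] Psi) t n x, ← iter_add_apply, ← iter_add_apply]
  rfl

theorem ind_iter_le (h4 : Stmt_ND4) (hS : Stmt_SHR) (hD : Ok D) (hL : 16 ≤ L) {M : ℕ}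
    (hM : Deg D M) (hM1 : (1 : ℝ) ≤ M) {a b : ℤ} {H : ℝ} (hH : 1 ≤ H) {t : ℝ}
    (ht : t ∈ Gd D a b H) (j : ℕ) : (T D t)^[j] (ind 4) (a + t * b) ≤ 2 * (M : ℝ) * H := by
  have ht1 := ht.1
  cases j with
  | zero =>
    have h1 : ind 4 (a + t * b) ≤ 1 := ind_le_one _ _
    change ind 4 (a + t * b) ≤ 2 * (M : ℝ) * H
    nlinarith
  | succ j =>
    have h1 : ∀ y, T D t (ind 4) y ≤ 2 * (M : ℝ) * Psi y := by
      intro y
      rcases le_or_gt |y| (9 / 4) with hy | hy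
      · rw [Psi_eq_one (by linarith), mul_one]
        have := h4 D hD M hM t ⟨by linarith [ht1.1], by linarith [ht1.2]⟩ 1 y
        rwa [Function.iterate_one, pow_one] at this
      · have := (hS D hD hL t ht1 (ind 4) (fun z hz => ind_of_lt hz) 1 y).2 le_rfl hy
        rw [Function.iterate_one] at this
        rw [this]
        have := Psi_nonneg y
        positivity
    rw [iter_succ]
    refine (iter_mono h1 t j _).trans ?_
    rw [iter_smul]
    exact mul_le_mul_of_nonneg_left (ht.2 j) (by linarith)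

theorem vol_Gd (a b : ℤ) (H : ℝ) : volume (Gd D a b H) ≤ 1 := by
  have h : Gd D a b H ⊆ Icc (0 : ℝ) 1 := fun t ht => ht.1
  refine (measure_mono h).trans ?_
  rw [Real.volume_Icc, sub_zero, ENNReal.ofReal_one]

end GS2M

open GS2M

theorem GS2_thm : Stmt_GS2 := by
  intro h4 hS L D M K c q hC hG
  obtain ⟨C, hC0, hG⟩ := hG
  have hD : Ok D := hC.toOk
  have hL : 16 ≤ L := hC.L16'
  have hM := hC.deg
  have hM1 := hC.M1
  have hκ0 := hC.kap_pos
  have hκ1 := hC.kap_le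
  have hK := hC.hK
  have hLr := hC.L16
  have hrate0 : 0 ≤ 9 * K / L := by positivity
  have hrate := hC.rate_le
  have hrm := hC.rate_mul
  set κ := kap L M K with hκ
  have hA1 : (1 : ℝ) ≤ 2 * (M : ℝ) := by linarith
  have hA0 : (0 : ℝ) < 2 * (M : ℝ) := by linarith
  have hk2 : κ ^ 2 ≤ κ := by nlinarith
  have c1 : 0 ≤ (2 * (M : ℝ)) ^ 7 / κ ^ 2 := by positivity
  have c2 : 0 ≤ C * (2 * (M : ℝ)) ^ 2 / κ ^ 2 := by positivity
  refine ⟨(2 * (M : ℝ)) ^ 7 / κ ^ 2 + C + C * (2 * (M : ℝ)) ^ 2 / κ ^ 2, by positivity, ?_⟩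
  intro a b hb hb' H hH j r
  have hH0 : (0 : ℝ) ≤ H := by linarith
  have hkr : 0 < κ ^ r := pow_pos hκ0 r
  rcases le_or_gt r 2 with hr | hr
  · have h1 : ∀ t ∈ Gd D a b H,
        ENNReal.ofReal ((T D t)^[j] (fun x => gr D r x t ^ 2) (a + t * b)) ≤
          ENNReal.ofReal ((2 * (M : ℝ)) ^ 7 * H) := by
      intro t ht
      refine ENNReal.ofReal_le_ofReal ?_
      have h2 : ∀ x, gr D r x t ^ 2 ≤ (2 * (M : ℝ)) ^ 6 * ind 4 x := by
        intro x
        refine (gr_sq_le h4 hS hD hL hM hM1 ht.1 r x).trans ?_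
        exact mul_le_mul_of_nonneg_right (pow_le_pow_right₀ hA1 (by omega)) (ind_nonneg _ _)
      refine (iter_mono h2 t j _).trans ?_
      rw [iter_smul]
      have h3 := ind_iter_le h4 hS hD hL hM hM1 hH ht j
      calc (2 * (M : ℝ)) ^ 6 * (T D t)^[j] (ind 4) (a + t * b)
          ≤ (2 * (M : ℝ)) ^ 6 * (2 * (M : ℝ) * H) := mul_le_mul_of_nonneg_left h3 (by positivity)
        _ = (2 * (M : ℝ)) ^ 7 * H := by ring
    refine (setLIntegral_mono' (measurableSet_Gd a b H) h1).trans ?_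
    rw [setLIntegral_const]
    refine (mul_le_mul_right (vol_Gd a b H) _).trans ?_
    rw [mul_one]
    refine ENNReal.ofReal_le_ofReal ?_
    have h5 : κ ^ 2 ≤ κ ^ r := pow_le_pow_of_le_one hκ0.le (by linarith) hr
    have h6 : (2 * (M : ℝ)) ^ 7 * H ≤ (2 * (M : ℝ)) ^ 7 / κ ^ 2 * H * κ ^ r := by
      have : (2 * (M : ℝ)) ^ 7 * H = (2 * (M : ℝ)) ^ 7 / κ ^ 2 * H * κ ^ 2 := by
        field_simp
      rw [this]
      exact mul_le_mul_of_nonneg_left h5 (mul_nonneg c1 hH0)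
    refine h6.trans ?_
    refine mul_le_mul_of_nonneg_right (mul_le_mul_of_nonneg_right ?_ hH0) hkr.le
    linarith
  · rcases le_or_gt (r + 1) j with hj | hj
    · refine (hG a b hb hb' H hH j r (by omega) hj).trans ?_
      refine ENNReal.ofReal_le_ofReal ?_
      have h5 : (9 * K / L) ^ r ≤ κ ^ r := pow_le_pow_left₀ hrate0 (hrate.trans hk2) r
      calc C * H * (9 * K / L) ^ r ≤ C * H * κ ^ r :=
            mul_le_mul_of_nonneg_left h5 (by positivity)
        _ ≤ _ := by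
            refine mul_le_mul_of_nonneg_right (mul_le_mul_of_nonneg_right ?_ hH0) hkr.le
            linarith
    · obtain ⟨n, hn⟩ : ∃ n, n = (r + 2 - j) / 2 := ⟨_, rfl⟩
      obtain ⟨s, hs⟩ : ∃ s, s = r - n := ⟨_, rfl⟩
      have e1 : 1 ≤ s := by omega
      have e2 : s + 1 ≤ j + n := by omega
      have e3 : n ≤ s + 2 := by omega
      have e4 : r ≤ 2 * s + 2 := by omega
      have e5 : r = n + s := by omega
      have h1 : ∀ t ∈ Gd D a b H,
          ENNReal.ofReal ((T D t)^[j] (fun x => gr D r x t ^ 2) (a + t * b)) ≤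
            ENNReal.ofReal ((2 * (M : ℝ)) ^ n) *
              ENNReal.ofReal ((T D t)^[j + n] (fun x => gr D s x t ^ 2) (a + t * b)) := by
        intro t ht
        rw [← ENNReal.ofReal_mul (by positivity)]
        refine ENNReal.ofReal_le_ofReal ?_
        have h2 : ∀ x, gr D r x t ^ 2 ≤
            (2 * (M : ℝ)) ^ n * (T D t)^[n] (fun y => gr D s y t ^ 2) x := by
          intro x
          rw [e5, gr_iter]
          exact cs (fun y hy => gr_far hS hD hL ht.1 s hy) (by positivity) n x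
            (h4 D hD M hM t ⟨by linarith [ht.1.1], by linarith [ht.1.2]⟩ n x)
        refine (iter_mono h2 t j _).trans ?_
        rw [iter_smul, ← iter_add_apply]
      refine (setLIntegral_mono' (measurableSet_Gd a b H) h1).trans ?_
      rw [lintegral_const_mul' _ _ ENNReal.ofReal_ne_top]
      refine (mul_le_mul_right (hG a b hb hb' H hH (j + n) s e1 e2) _).trans ?_
      rw [← ENNReal.ofReal_mul (by positivity)]
      refine ENNReal.ofReal_le_ofReal ?_
      have h5 : (2 * (M : ℝ)) ^ n * (9 * K / L) ^ s ≤ (2 * (M : ℝ)) ^ 2 * κ ^ (2 * s) := by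
        calc (2 * (M : ℝ)) ^ n * (9 * K / L) ^ s
            ≤ (2 * (M : ℝ)) ^ (s + 2) * (9 * K / L) ^ s :=
              mul_le_mul_of_nonneg_right (pow_le_pow_right₀ hA1 e3) (pow_nonneg hrate0 s)
          _ = (2 * (M : ℝ)) ^ 2 * (2 * (M : ℝ) * (9 * K / L)) ^ s := by
              rw [mul_pow (2 * (M : ℝ)) (9 * K / L) s]
              ring
          _ = (2 * (M : ℝ)) ^ 2 * κ ^ (2 * s) := by rw [hrm, ← pow_mul]
      have h6 : κ ^ (2 * s) ≤ κ ^ r / κ ^ 2 := by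
        rw [le_div_iff₀ (by positivity), ← pow_add]
        exact pow_le_pow_of_le_one hκ0.le (by linarith) e4
      calc (2 * (M : ℝ)) ^ n * (C * H * (9 * K / L) ^ s)
          = C * H * ((2 * (M : ℝ)) ^ n * (9 * K / L) ^ s) := by ring
        _ ≤ C * H * ((2 * (M : ℝ)) ^ 2 * (κ ^ r / κ ^ 2)) := by
            refine mul_le_mul_of_nonneg_left (h5.trans ?_) (by positivity)
            exact mul_le_mul_of_nonneg_left h6 (by positivity)
        _ = C * (2 * (M : ℝ)) ^ 2 / κ ^ 2 * H * κ ^ r := by ring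
        _ ≤ _ := by
            refine mul_le_mul_of_nonneg_right (mul_le_mul_of_nonneg_right ?_ hH0) hkr.le
            linarith

end Pool.Agent.RDX
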