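import Pool.Agent.RDX.Stmts
import Pool.Agent.RDS.STEP

/-!
# Random digit sets, second part: module GST, the increments in good directions
-/

set_option autoImplicit false

namespace Pool.Agent.RDX

open MeasureTheory Set
open Pool.Agent.RDS

namespace GSTM

variable {L : ℕ} {D : Fin L → ℕ × ℕ}

/-- The square integral of the increments over the directions near `t0`. -/
noncomputable def HH (D : Fin L → ℕ × ℕ) (r : ℕ) (t0 x : ℝ) : ENNReal :=
  ∫⁻ τ in Icc (t0 - 1 / (2 * (L : ℝ) ^ r)) (t0 + 1 / (2 * (L : ℝ) ^ r)),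
    ENNReal.ofReal (gr D r x τ ^ 2 + dgr D r x τ ^ 2 / (L : ℝ) ^ (2 * r))

theorem joint_cont {r : ℕ} (h1 : Continuous (fun q : ℝ × ℝ => gr D r q.1 q.2))
    (h2 : Continuous (fun q : ℝ × ℝ => dgr D r q.1 q.2)) :
    Continuous (fun p : ℝ × ℝ => gr D r p.1 p.2 ^ 2 +
      dgr D r p.1 p.2 ^ 2 / (L : ℝ) ^ (2 * r)) :=
  (h1.pow 2).add ((h2.pow 2).div_const _)

theorem measurable_HH {r : ℕ} (h1 : Continuous (fun q : ℝ × ℝ => gr D r q.1 q.2))
    (h2 : Continuous (fun q : ℝ × ℝ => dgr D r q.1 q.2)) (t0 : ℝ) :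
    Measurable (HH D r t0) := by
  have h := joint_cont h1 h2
  unfold HH
  exact Measurable.lintegral_prod_right' (f := fun p : ℝ × ℝ =>
    ENNReal.ofReal (gr D r p.1 p.2 ^ 2 + dgr D r p.1 p.2 ^ 2 / (L : ℝ) ^ (2 * r)))
    h.measurable.ennreal_ofReal

theorem measurable_Nr {r : ℕ} (h1 : Continuous (fun q : ℝ × ℝ => gr D r q.1 q.2))
    (h2 : Continuous (fun q : ℝ × ℝ => dgr D r q.1 q.2)) :
    Measurable (Nr D r) := by
  have h := (joint_cont h1 h2).comp continuous_swap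
  unfold Nr
  exact Measurable.lintegral_prod_right' (f := fun p : ℝ × ℝ =>
    ENNReal.ofReal (gr D r p.2 p.1 ^ 2 + dgr D r p.2 p.1 ^ 2 / (L : ℝ) ^ (2 * r)))
    h.measurable.ennreal_ofReal

theorem lint_HH {r : ℕ} (h1 : Continuous (fun q : ℝ × ℝ => gr D r q.1 q.2))
    (h2 : Continuous (fun q : ℝ × ℝ => dgr D r q.1 q.2)) (t0 : ℝ) :
    ∫⁻ x, HH D r t0 x = ∫⁻ τ in Icc (t0 - 1 / (2 * (L : ℝ) ^ r)) (t0 + 1 / (2 * (L : ℝ) ^ r)),
      Nr D r τ := by
  have h := joint_cont h1 h2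
  unfold HH Nr
  exact lintegral_lintegral_swap (f := fun x τ =>
    ENNReal.ofReal (gr D r x τ ^ 2 + dgr D r x τ ^ 2 / (L : ℝ) ^ (2 * r)))
    h.measurable.ennreal_ofReal.aemeasurable

theorem sob_bound (hD : Ok D) {r : ℕ}
    (h1 : Continuous (fun q : ℝ × ℝ => gr D r q.1 q.2))
    (h2 : Continuous (fun q : ℝ × ℝ => dgr D r q.1 q.2))
    (h3 : ∀ x t : ℝ, HasDerivAt (fun τ => gr D r x τ) (dgr D r x t) t)
    (t0 t x : ℝ) (ht : |t - t0| ≤ 1 / (2 * (L : ℝ) ^ r)) :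
    ENNReal.ofReal (gr D r x t ^ 2) ≤ ENNReal.ofReal (2 * (L : ℝ) ^ r) * HH D r t0 x := by
  have hc1 : Continuous (fun τ => gr D r x τ) :=
    h1.comp (f := fun τ : ℝ => (x, τ)) (by fun_prop)
  have hc2 : Continuous (fun τ => dgr D r x τ) :=
    h2.comp (f := fun τ : ℝ => (x, τ)) (by fun_prop)
  have hq : (0 : ℝ) < (L : ℝ) ^ r := hD.pw r
  have h4 : (0 : ℝ) < 1 / (2 * (L : ℝ) ^ r) := by positivity
  have hab : t0 - 1 / (2 * (L : ℝ) ^ r) < t0 + 1 / (2 * (L : ℝ) ^ r) := by linarith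
  obtain ⟨ht1, ht2⟩ := abs_le.1 ht
  have hs := FCQ.SOB_thm (fun τ => gr D r x τ) (fun τ => dgr D r x τ) _ _ t hab
    (fun τ => h3 x τ) hc2 ⟨by linarith, by linarith⟩
  have hlen : (t0 + 1 / (2 * (L : ℝ) ^ r)) - (t0 - 1 / (2 * (L : ℝ) ^ r)) =
      1 / (L : ℝ) ^ r := by
    field_simp
    ring
  rw [hlen] at hs
  have h16 : (L : ℝ) ^ (2 * r) = (L : ℝ) ^ r * (L : ℝ) ^ r := by rw [← pow_add]; congr 1; ring
  have e1 : (2 : ℝ) / (1 / (L : ℝ) ^ r) = 2 * (L : ℝ) ^ r := by field_simp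
  have e2 : 2 * (1 / (L : ℝ) ^ r) = 2 * (L : ℝ) ^ r / (L : ℝ) ^ (2 * r) := by
    rw [h16]; field_simp
  rw [e1, e2] at hs
  have hcF : Continuous (fun τ => gr D r x τ ^ 2 + dgr D r x τ ^ 2 / (L : ℝ) ^ (2 * r)) :=
    (hc1.pow 2).add ((hc2.pow 2).div_const _)
  have hsum : (∫ τ in (t0 - 1 / (2 * (L : ℝ) ^ r))..(t0 + 1 / (2 * (L : ℝ) ^ r)),
      (gr D r x τ ^ 2 + dgr D r x τ ^ 2 / (L : ℝ) ^ (2 * r))) =
      (∫ τ in (t0 - 1 / (2 * (L : ℝ) ^ r))..(t0 + 1 / (2 * (L : ℝ) ^ r)), gr D r x τ ^ 2) +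
        (∫ τ in (t0 - 1 / (2 * (L : ℝ) ^ r))..(t0 + 1 / (2 * (L : ℝ) ^ r)),
          dgr D r x τ ^ 2) / (L : ℝ) ^ (2 * r) := by
    have hf1 : Continuous (fun τ => gr D r x τ ^ 2) := hc1.pow 2
    have hf2 : Continuous (fun τ => dgr D r x τ ^ 2 / (L : ℝ) ^ (2 * r)) :=
      (hc2.pow 2).div_const _
    rw [intervalIntegral.integral_add (hf1.intervalIntegrable _ _)
      (hf2.intervalIntegrable _ _), intervalIntegral.integral_div]
  have hfin : gr D r x t ^ 2 ≤ 2 * (L : ℝ) ^ r *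
      ∫ τ in (t0 - 1 / (2 * (L : ℝ) ^ r))..(t0 + 1 / (2 * (L : ℝ) ^ r)),
      (gr D r x τ ^ 2 + dgr D r x τ ^ 2 / (L : ℝ) ^ (2 * r)) := by
    rw [hsum]
    refine hs.trans (le_of_eq ?_)
    ring
  calc ENNReal.ofReal (gr D r x t ^ 2)
      ≤ ENNReal.ofReal (2 * (L : ℝ) ^ r *
        ∫ τ in (t0 - 1 / (2 * (L : ℝ) ^ r))..(t0 + 1 / (2 * (L : ℝ) ^ r)),
        (gr D r x τ ^ 2 + dgr D r x τ ^ 2 / (L : ℝ) ^ (2 * r))) :=
          ENNReal.ofReal_le_ofReal hfin
    _ = ENNReal.ofReal (2 * (L : ℝ) ^ r) *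
        ENNReal.ofReal (∫ τ in Ioc (t0 - 1 / (2 * (L : ℝ) ^ r))
        (t0 + 1 / (2 * (L : ℝ) ^ r)),
          (gr D r x τ ^ 2 + dgr D r x τ ^ 2 / (L : ℝ) ^ (2 * r))) := by
        rw [ENNReal.ofReal_mul (by positivity), intervalIntegral.integral_of_le hab.le]
    _ = ENNReal.ofReal (2 * (L : ℝ) ^ r) *
        ∫⁻ τ in Ioc (t0 - 1 / (2 * (L : ℝ) ^ r)) (t0 + 1 / (2 * (L : ℝ) ^ r)),
        ENNReal.ofReal (gr D r x τ ^ 2 + dgr D r x τ ^ 2 / (L : ℝ) ^ (2 * r)) := by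
        rw [ofReal_integral_eq_lintegral_ofReal hcF.integrableOn_Ioc
          (ae_of_all _ fun τ => by positivity)]
    _ ≤ ENNReal.ofReal (2 * (L : ℝ) ^ r) * HH D r t0 x := by
        apply mul_le_mul_right
        exact lintegral_mono_set Ioc_subset_Icc_self

open Classical in
/-- The number of the points whose window contains `τ`. -/
theorem count {ι : Type} (c s : ι → ℝ) (δ ρ Λ : ℝ) (hδ : 0 < δ) (hδρ : δ ≤ ρ) (hΛ : 0 ≤ Λ)
    (Q : Finset ι) (τ : ℝ) (hQ : ∀ q ∈ Q, |τ - c q| ≤ ρ) (hs : ∀ q ∈ Q, |s q - c q| ≤ ρ)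
    (hcard : ∀ q0 ∈ Q, ((Q.filter fun q => |s q0 - s q| ≤ 2 * δ).card : ℝ) ≤ Λ) :
    (Q.card : ℝ) ≤ 3 * ρ * (1 / δ) * Λ := by
  have hρ : 0 < ρ := lt_of_lt_of_le hδ hδρ
  have key : (Q.card : ENNReal) * ENNReal.ofReal (2 * δ) ≤
      ENNReal.ofReal Λ * ENNReal.ofReal (6 * ρ) := by
    calc (Q.card : ENNReal) * ENNReal.ofReal (2 * δ)
        = ∑ q ∈ Q, ∫⁻ σ, (Icc (s q - δ) (s q + δ)).indicator (fun _ => (1 : ENNReal)) σ := by
          have : ∀ q ∈ Q, ∫⁻ σ, (Icc (s q - δ) (s q + δ)).indicator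
              (fun _ => (1 : ENNReal)) σ = ENNReal.ofReal (2 * δ) := by
            intro q _
            rw [lintegral_indicator measurableSet_Icc, setLIntegral_one, Real.volume_Icc]
            congr 1
            ring
          rw [Finset.sum_congr rfl this, Finset.sum_const, nsmul_eq_mul]
      _ = ∫⁻ σ, ∑ q ∈ Q, (Icc (s q - δ) (s q + δ)).indicator (fun _ => (1 : ENNReal)) σ := by
          rw [lintegral_finsetSum _ (fun q _ => measurable_const.indicator measurableSet_Icc)]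
      _ ≤ ∫⁻ σ, (Icc (τ - 3 * ρ) (τ + 3 * ρ)).indicator (fun _ => ENNReal.ofReal Λ) σ := by
          apply lintegral_mono
          intro σ
          have hsum : ∑ q ∈ Q, (Icc (s q - δ) (s q + δ)).indicator (fun _ => (1 : ENNReal)) σ =
              ((Q.filter fun q => σ ∈ Icc (s q - δ) (s q + δ)).card : ENNReal) := by
            rw [Finset.card_filter]
            push_cast
            refine Finset.sum_congr rfl fun q _ => ?_
            by_cases h : σ ∈ Icc (s q - δ) (s q + δ)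
            · rw [indicator_of_mem h, if_pos h]
            · rw [indicator_of_notMem h, if_neg h]
          show ∑ q ∈ Q, (Icc (s q - δ) (s q + δ)).indicator (fun _ => (1 : ENNReal)) σ ≤ _
          rw [hsum]
          rcases Finset.eq_empty_or_nonempty
            (Q.filter fun q => σ ∈ Icc (s q - δ) (s q + δ)) with he | he
          · rw [he]; simp
          · obtain ⟨q0, hq0⟩ := he
            obtain ⟨hq1, hq2⟩ := Finset.mem_filter.1 hq0
            obtain ⟨h5, h6⟩ := abs_le.1 (hQ q0 hq1)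
            obtain ⟨h7, h8⟩ := abs_le.1 (hs q0 hq1)
            have hs1 : σ ∈ Icc (τ - 3 * ρ) (τ + 3 * ρ) :=
              ⟨by linarith [hq2.1], by linarith [hq2.2]⟩
            rw [indicator_of_mem hs1]
            have hle : ((Q.filter fun q => σ ∈ Icc (s q - δ) (s q + δ)).card : ℝ) ≤ Λ := by
              refine le_trans ?_ (hcard q0 hq1)
              have hsub : (Q.filter fun q => σ ∈ Icc (s q - δ) (s q + δ)) ⊆
                  (Q.filter fun q => |s q0 - s q| ≤ 2 * δ) := by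
                intro q hq
                obtain ⟨h9, h10⟩ := Finset.mem_filter.1 hq
                refine Finset.mem_filter.2 ⟨h9, abs_le.2 ⟨?_, ?_⟩⟩
                · linarith [hq2.1, hq2.2, h10.1, h10.2]
                · linarith [hq2.1, hq2.2, h10.1, h10.2]
              exact_mod_cast Finset.card_le_card hsub
            rw [← ENNReal.ofReal_natCast]
            exact ENNReal.ofReal_le_ofReal hle
      _ = ENNReal.ofReal Λ * ENNReal.ofReal (6 * ρ) := by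
          rw [lintegral_indicator measurableSet_Icc, setLIntegral_const, Real.volume_Icc]
          congr 2
          ring
  rw [← ENNReal.ofReal_natCast, ← ENNReal.ofReal_mul (by positivity),
    ← ENNReal.ofReal_mul hΛ, ENNReal.ofReal_le_ofReal_iff (by positivity)] at key
  have h1 : (Q.card : ℝ) = (Q.card : ℝ) * (2 * δ) * (1 / (2 * δ)) := by field_simp
  rw [h1]
  calc (Q.card : ℝ) * (2 * δ) * (1 / (2 * δ)) ≤ Λ * (6 * ρ) * (1 / (2 * δ)) :=
        mul_le_mul_of_nonneg_right key (by positivity)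
    _ = 3 * ρ * (1 / δ) * Λ := by field_simp; ring

end GSTM

open GSTM in
open Classical in
theorem GST_thm : Stmt_GST := by
  intro hCSH hEXP hPSX hDRX hSHR L D M K c q0 hC hR
  have hOk : Ok D := hC.toOk
  have hL := hOk.pos
  have hL16 := hC.L16
  have hL16' := hC.L16'
  obtain ⟨C0, hC0, hC1⟩ := hR
  refine ⟨12 * (L : ℝ) ^ 3 * C0, by positivity, ?_⟩
  intro a b hb2 hbL H hH n r hr hnr
  -- the increments
  obtain ⟨ι', hι', u', v', -, -, -, hexp', -⟩ := hEXP hCSH D hOk r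
  obtain ⟨hder, -, -, hg1, hg2, -⟩ := hDRX hPSX D hOk r ι' u' v' hexp'
  -- the expansion at the level n
  obtain ⟨ι, hι, u, v, hu, hv, -, hexp, -⟩ := hEXP hCSH D hOk n
  set A : ι → ℝ := fun q => (L : ℝ) ^ n * (a : ℝ) - u q with hA
  set B : ι → ℝ := fun q => (L : ℝ) ^ n * (b : ℝ) - v q with hB
  have hLn : (0 : ℝ) < (L : ℝ) ^ n := hOk.pw n
  have hLn1 : (1 : ℝ) ≤ (L : ℝ) ^ n := hOk.pw1 n
  have hLr : (0 : ℝ) < (L : ℝ) ^ r := hOk.pw r
  have hLr1 : (1 : ℝ) ≤ (L : ℝ) ^ r := hOk.pw1 r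
  have hLnr : 16 * (L : ℝ) ^ r ≤ (L : ℝ) ^ n := by
    have h1 : (L : ℝ) ^ (r + 1) ≤ (L : ℝ) ^ n := pow_le_pow_right₀ (by linarith) hnr
    rw [pow_succ] at h1
    nlinarith
  have hx : ∀ (t : ℝ) (q : ι), (L : ℝ) ^ n * (a + t * b) - ((u q : ℝ) + t * (v q : ℝ)) =
      A q + B q * t := by
    intro t q
    simp only [hA, hB]
    ring
  have hb2' : (2 : ℝ) ≤ |(b : ℝ)| := by exact_mod_cast hb2
  have hbL' : |(b : ℝ)| ≤ (L : ℝ) ^ 2 := by exact_mod_cast hbL
  have hblow : ∀ q, (L : ℝ) ^ n ≤ |B q| := by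
    intro q
    have h1 := hv q
    have h2 : |(L : ℝ) ^ n * (b : ℝ)| = (L : ℝ) ^ n * |(b : ℝ)| := by
      rw [abs_mul, abs_of_pos hLn]
    have h3 := abs_sub_abs_le_abs_sub ((L : ℝ) ^ n * (b : ℝ)) (v q : ℝ)
    rw [h2] at h3
    have h4 : (L : ℝ) ^ n * 2 ≤ (L : ℝ) ^ n * |(b : ℝ)| :=
      mul_le_mul_of_nonneg_left hb2' hLn.le
    simp only [hB]
    linarith
  have hbup : ∀ q, |B q| ≤ (L : ℝ) ^ (n + 3) := by
    intro q
    have h1 := hv q
    have h2 : |(L : ℝ) ^ n * (b : ℝ)| = (L : ℝ) ^ n * |(b : ℝ)| := by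
      rw [abs_mul, abs_of_pos hLn]
    have h3 := abs_sub ((L : ℝ) ^ n * (b : ℝ)) (v q : ℝ)
    rw [h2] at h3
    have h4 : (L : ℝ) ^ n * |(b : ℝ)| ≤ (L : ℝ) ^ n * (L : ℝ) ^ 2 :=
      mul_le_mul_of_nonneg_left hbL' hLn.le
    have h5 : (L : ℝ) ^ n * (L : ℝ) ^ 2 + (L : ℝ) ^ n ≤ (L : ℝ) ^ (n + 3) := by
      rw [pow_add]
      have : (L : ℝ) ^ 2 + 1 ≤ (L : ℝ) ^ 3 := by nlinarith [sq_nonneg (L : ℝ)]
      have := mul_le_mul_of_nonneg_left this hLn.le
      linarith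
    simp only [hB]
    linarith
  have hb0 : ∀ q, B q ≠ 0 := fun q => abs_pos.1 (lt_of_lt_of_le hLn (hblow q))
  have hbc : ∀ (q : ι) (s : ℝ), A q + B q * s = B q * (s - (-A q / B q)) := by
    intro q s
    have := hb0 q
    field_simp
    ring
  set G : Set ℝ := Gd D a b H with hG
  have hG01 : ∀ t ∈ G, t ∈ Icc (0 : ℝ) 1 := fun t ht => ht.1
  set Q : Finset ι := Finset.univ.filter fun q => ∃ t ∈ G, |A q + B q * t| ≤ 9 / 4 with hQ
  have hQs : ∀ q : ι, ∃ t : ℝ, q ∈ Q → t ∈ G ∧ |A q + B q * t| ≤ 9 / 4 := by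
    intro q
    by_cases hq : q ∈ Q
    · obtain ⟨-, t, ht, ht2⟩ := Finset.mem_filter.1 hq
      exact ⟨t, fun _ => ⟨ht, ht2⟩⟩
    · exact ⟨0, fun h => absurd h hq⟩
  choose s hs using hQs
  set ρ : ℝ := 1 / (2 * (L : ℝ) ^ r) with hρ
  have hρ0 : 0 < ρ := by rw [hρ]; positivity
  have hρ1 : ρ ≤ 1 / 2 := by
    rw [hρ]
    exact one_div_le_one_div_of_le (by norm_num) (by linarith)
  have h2L : 9 / 4 / (L : ℝ) ^ n ≤ ρ := by
    rw [hρ, div_le_div_iff₀ hLn (by positivity)]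
    linarith
  -- close to the zero of the moving point
  have hclose : ∀ (q : ι) (t : ℝ), |A q + B q * t| ≤ 9 / 4 → |t - (-A q / B q)| ≤ ρ := by
    intro q t h2
    refine le_trans ?_ h2L
    rw [hbc, abs_mul] at h2
    rw [le_div_iff₀ hLn]
    calc |t - (-A q / B q)| * (L : ℝ) ^ n ≤ |t - (-A q / B q)| * |B q| :=
          mul_le_mul_of_nonneg_left (hblow q) (abs_nonneg _)
      _ = |B q| * |t - (-A q / B q)| := mul_comm _ _
      _ ≤ 9 / 4 := h2
  have hzero : ∀ t ∈ G, ∀ y : ℝ, 9 / 4 < |y| → gr D r y t = 0 := by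
    intro t ht y hy
    have hPsi : ∀ z : ℝ, 4 < |z| → Psi z = 0 := fun z hz => Psi_eq_zero (by linarith)
    unfold gr
    rw [(hSHR D hOk hL16' t (hG01 t ht) Psi hPsi (r + 1) y).2 (by omega) hy,
      (hSHR D hOk hL16' t (hG01 t ht) Psi hPsi r y).2 hr hy, sub_zero]
  -- the pointwise estimate
  have hpt : ∀ t ∈ G,
      ENNReal.ofReal ((T D t)^[n] (fun x => gr D r x t ^ 2) (a + t * b)) ≤
        ENNReal.ofReal (1 / (L : ℝ) ^ n) * ∑ q ∈ Q,
          ENNReal.ofReal (2 * (L : ℝ) ^ r) * HH D r (-A q / B q) (B q * t + A q) := by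
    intro t ht
    rw [hexp]
    have hx' : ∀ q, gr D r ((L : ℝ) ^ n * (a + t * b) - ((u q : ℝ) + t * (v q : ℝ))) t ^ 2 =
        gr D r (A q + B q * t) t ^ 2 := fun q => by rw [hx]
    rw [Finset.sum_congr rfl fun q _ => hx' q]
    set A1 : Finset ι := Finset.univ.filter fun q => |A q + B q * t| ≤ 9 / 4 with hA1
    have hs1 : ∑ q, gr D r (A q + B q * t) t ^ 2 = ∑ q ∈ A1, gr D r (A q + B q * t) t ^ 2 := by
      symm
      apply Finset.sum_subset (Finset.subset_univ _)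
      intro q _ hq
      rw [hA1, Finset.mem_filter, not_and] at hq
      rw [hzero t ht _ (not_le.1 (hq (Finset.mem_univ q)))]
      norm_num
    have hAQ : A1 ⊆ Q := by
      intro q hq
      obtain ⟨-, h2⟩ := Finset.mem_filter.1 hq
      exact Finset.mem_filter.2 ⟨Finset.mem_univ q, t, ht, h2⟩
    rw [hs1]
    calc ENNReal.ofReal ((∑ q ∈ A1, gr D r (A q + B q * t) t ^ 2) / (L : ℝ) ^ n)
        = ENNReal.ofReal (1 / (L : ℝ) ^ n) *
          ∑ q ∈ A1, ENNReal.ofReal (gr D r (A q + B q * t) t ^ 2) := by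
          rw [← ENNReal.ofReal_sum_of_nonneg (fun q _ => sq_nonneg _),
            ← ENNReal.ofReal_mul (by positivity)]
          congr 1
          ring
      _ ≤ ENNReal.ofReal (1 / (L : ℝ) ^ n) * ∑ q ∈ A1,
          ENNReal.ofReal (2 * (L : ℝ) ^ r) * HH D r (-A q / B q) (B q * t + A q) := by
          apply mul_le_mul_right
          apply Finset.sum_le_sum
          intro q hq
          rw [add_comm (B q * t) (A q)]
          exact sob_bound hOk hg1 hg2 hder (-A q / B q) t (A q + B q * t)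
            (hclose q t (Finset.mem_filter.1 hq).2)
      _ ≤ _ := by
          apply mul_le_mul_right
          exact Finset.sum_le_sum_of_subset hAQ
  have hHm : ∀ t0, Measurable (HH D r t0) := fun t0 => measurable_HH hg1 hg2 t0
  have hHd : ∀ q, Measurable (fun t => HH D r (-A q / B q) (B q * t + A q)) := fun q =>
    (hHm _).comp (f := fun t => B q * t + A q) (by fun_prop)
  -- integration of one point
  have hone : ∀ q, ∫⁻ t in G, HH D r (-A q / B q) (B q * t + A q) ≤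
      ENNReal.ofReal (1 / (L : ℝ) ^ n) *
        ∫⁻ τ in Icc (-A q / B q - ρ) (-A q / B q + ρ), Nr D r τ := by
    intro q
    calc ∫⁻ t in G, HH D r (-A q / B q) (B q * t + A q)
        ≤ ∫⁻ t, HH D r (-A q / B q) (B q * t + A q) := setLIntegral_le_lintegral _ _
      _ = ENNReal.ofReal |(B q)⁻¹| * ∫⁻ x, HH D r (-A q / B q) x :=
          STEPM.lint_affine _ (hHm _) _ _ (hb0 q)
      _ ≤ ENNReal.ofReal (1 / (L : ℝ) ^ n) * ∫⁻ x, HH D r (-A q / B q) x := by
          apply mul_le_mul_left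
          apply ENNReal.ofReal_le_ofReal
          rw [abs_inv, ← one_div]
          exact one_div_le_one_div_of_le hLn (hblow q)
      _ = _ := by rw [lint_HH hg1 hg2]
  -- the count
  set δ : ℝ := 1 / (4 * (L : ℝ) ^ (n + 3)) with hδ
  have hL3 : (0 : ℝ) < (L : ℝ) ^ (n + 3) := hOk.pw _
  have hδ0 : 0 < δ := by rw [hδ]; positivity
  have hδρ : δ ≤ ρ := by
    refine le_trans ?_ h2L
    rw [hδ, div_le_div_iff₀ (by positivity) hLn]
    have : (L : ℝ) ^ n ≤ (L : ℝ) ^ (n + 3) := pow_le_pow_right₀ (by linarith) (by omega)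
    nlinarith
  have hnear : ∀ q1 ∈ Q, ((Q.filter fun q => |s q1 - s q| ≤ 2 * δ).card : ℝ) ≤
      (L : ℝ) ^ n * H := by
    intro q1 hq1
    obtain ⟨hg, -⟩ := hs q1 hq1
    have h1 : Y D (s q1) n (a + s q1 * b) ≤ H := hg.2 n
    unfold Y at h1
    rw [hexp, div_le_iff₀ hLn] at h1
    have h2 : ((Q.filter fun q => |s q1 - s q| ≤ 2 * δ).card : ℝ) ≤
        ∑ q, Psi ((L : ℝ) ^ n * (a + s q1 * b) - ((u q : ℝ) + s q1 * (v q : ℝ))) := by
      calc ((Q.filter fun q => |s q1 - s q| ≤ 2 * δ).card : ℝ)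
          = ∑ q ∈ Q.filter fun q => |s q1 - s q| ≤ 2 * δ, (1 : ℝ) := by simp
        _ = ∑ q ∈ Q.filter fun q => |s q1 - s q| ≤ 2 * δ,
            Psi ((L : ℝ) ^ n * (a + s q1 * b) - ((u q : ℝ) + s q1 * (v q : ℝ))) := by
            refine Finset.sum_congr rfl fun q hq => ?_
            obtain ⟨h3, h4⟩ := Finset.mem_filter.1 hq
            obtain ⟨-, h5⟩ := hs q h3
            rw [hx, Psi_eq_one]
            have e : A q + B q * s q1 = (A q + B q * s q) + B q * (s q1 - s q) := by ring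
            rw [e]
            refine (abs_add_le _ _).trans ?_
            rw [abs_mul]
            have h6 : |B q| * |s q1 - s q| ≤ (L : ℝ) ^ (n + 3) * (2 * δ) :=
              mul_le_mul (hbup q) h4 (abs_nonneg _) hL3.le
            have h7 : (L : ℝ) ^ (n + 3) * (2 * δ) = 1 / 2 := by
              rw [hδ]; field_simp; norm_num
            linarith
        _ ≤ _ := Finset.sum_le_sum_of_subset_of_nonneg (Finset.subset_univ _)
            fun q _ _ => Psi_nonneg _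
    linarith
  set Z : ℝ := 3 * ρ * (1 / δ) * ((L : ℝ) ^ n * H) with hZ
  have hZ0 : 0 ≤ Z := by rw [hZ]; positivity
  have hcount : ∀ τ : ℝ, ((Q.filter fun q => |τ - (-A q / B q)| ≤ ρ).card : ℝ) ≤ Z := by
    intro τ
    refine count (fun q => -A q / B q) s δ ρ ((L : ℝ) ^ n * H) hδ0 hδρ (by positivity) _ τ
      (fun q hq => (Finset.mem_filter.1 hq).2)
      (fun q hq => hclose q _ (hs q (Finset.mem_filter.1 hq).1).2) ?_
    intro q1 hq1
    refine le_trans ?_ (hnear q1 (Finset.mem_filter.1 hq1).1)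
    have : (Finset.filter (fun q => |s q1 - s q| ≤ 2 * δ)
        (Finset.filter (fun q => |τ - (-A q / B q)| ≤ ρ) Q)) ⊆
        Q.filter fun q => |s q1 - s q| ≤ 2 * δ := by
      intro q hq
      obtain ⟨h1, h2⟩ := Finset.mem_filter.1 hq
      exact Finset.mem_filter.2 ⟨(Finset.mem_filter.1 h1).1, h2⟩
    exact_mod_cast Finset.card_le_card this
  have hwin := STEPM.sum_windows (fun q => -A q / B q) ρ Z hρ1 (Nr D r) (measurable_Nr hg1 hg2) Q
    (fun q hq => by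
      obtain ⟨h1, h2⟩ := hs q hq
      have h3 := hG01 _ h1
      obtain ⟨h4, h5⟩ := abs_le.1 ((hclose q _ h2).trans hρ1)
      exact ⟨by linarith [h3.1], by linarith [h3.2]⟩) hcount
  calc ∫⁻ t in G, ENNReal.ofReal ((T D t)^[n] (fun x => gr D r x t ^ 2) (a + t * b))
      ≤ ∫⁻ t in G, ENNReal.ofReal (1 / (L : ℝ) ^ n) * ∑ q ∈ Q,
          ENNReal.ofReal (2 * (L : ℝ) ^ r) * HH D r (-A q / B q) (B q * t + A q) :=
        setLIntegral_mono' (measurableSet_Gd a b H) hpt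
    _ = ENNReal.ofReal (1 / (L : ℝ) ^ n) * ∑ q ∈ Q,
          ENNReal.ofReal (2 * (L : ℝ) ^ r) *
            ∫⁻ t in G, HH D r (-A q / B q) (B q * t + A q) := by
        rw [lintegral_const_mul _ (Finset.measurable_sum _ fun q _ =>
          ((hHd q).const_mul _)), lintegral_finsetSum _ (fun q _ =>
          ((hHd q).const_mul _))]
        congr 1
        refine Finset.sum_congr rfl fun q _ => ?_
        rw [lintegral_const_mul _ (hHd q)]
    _ ≤ ENNReal.ofReal (1 / (L : ℝ) ^ n) * ∑ q ∈ Q,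
          ENNReal.ofReal (2 * (L : ℝ) ^ r) * (ENNReal.ofReal (1 / (L : ℝ) ^ n) *
            ∫⁻ τ in Icc (-A q / B q - ρ) (-A q / B q + ρ), Nr D r τ) := by
        apply mul_le_mul_right
        apply Finset.sum_le_sum
        intro q _
        exact mul_le_mul_right (hone q) _
    _ = ENNReal.ofReal (1 / (L : ℝ) ^ n) * (ENNReal.ofReal (2 * (L : ℝ) ^ r) *
          (ENNReal.ofReal (1 / (L : ℝ) ^ n) * ∑ q ∈ Q,
            ∫⁻ τ in Icc (-A q / B q - ρ) (-A q / B q + ρ), Nr D r τ)) := by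
        rw [← Finset.mul_sum, ← Finset.mul_sum]
    _ ≤ ENNReal.ofReal (1 / (L : ℝ) ^ n) * (ENNReal.ofReal (2 * (L : ℝ) ^ r) *
          (ENNReal.ofReal (1 / (L : ℝ) ^ n) * (ENNReal.ofReal Z *
            ENNReal.ofReal (C0 * (9 * K / L) ^ r)))) := by
        refine mul_le_mul_right (mul_le_mul_right (mul_le_mul_right (hwin.trans ?_) _) _) _
        exact mul_le_mul_right (hC1 r) _
    _ = ENNReal.ofReal (12 * (L : ℝ) ^ 3 * C0 * H * (9 * K / L) ^ r) := by
        have hK : (0 : ℝ) ≤ 9 * K / L := by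
          have := hC.hK
          positivity
        rw [← ENNReal.ofReal_mul hZ0, ← ENNReal.ofReal_mul (by positivity),
          ← ENNReal.ofReal_mul (by positivity), ← ENNReal.ofReal_mul (by positivity)]
        congr 1
        rw [hZ, hρ, hδ, pow_add]
        field_simp
        ring

end Pool.Agent.RDX
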