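import Pool.Agent.RDX.Stmts

/-!
# IN2: the average length of the projections
-/

set_option autoImplicit false

namespace Pool.Agent.RDX

open MeasureTheory Set
open Pool.Agent.RDS

namespace IN2M

variable {L : ℕ} {D : Fin L → ℕ × ℕ}

/-- The bad directions for the size `2 ^ i`. -/
def Bad (D : Fin L → ℕ × ℕ) (N : ℕ) (β : ℝ) (i : ℕ) : Set ℝ :=
  {t : ℝ | t ∈ Icc (0 : ℝ) 1 ∧ S D N t ≤ 8 * 2 ^ i} ∪
    {t : ℝ | t ∈ Icc (0 : ℝ) 1 ∧ 1 / 4 < Bd D N β t}

theorem measurableSet_Bad (N : ℕ) (β : ℝ) (i : ℕ) : MeasurableSet (Bad D N β i) := by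
  have h1 : {t : ℝ | t ∈ Icc (0 : ℝ) 1 ∧ S D N t ≤ 8 * 2 ^ i} =
      Icc (0 : ℝ) 1 ∩ (S D N) ⁻¹' (Iic (8 * 2 ^ i)) := rfl
  have h2 : {t : ℝ | t ∈ Icc (0 : ℝ) 1 ∧ 1 / 4 < Bd D N β t} =
      Icc (0 : ℝ) 1 ∩ (fun t => Bd D N β t) ⁻¹' (Ioi (1 / 4)) := rfl
  unfold Bad
  rw [h1, h2]
  exact (measurableSet_Icc.inter (measurable_S _ measurableSet_Iic)).union
    (measurableSet_Icc.inter (measurable_Bd N β measurableSet_Ioi))

theorem Bad_subset (N : ℕ) (β : ℝ) (i : ℕ) : Bad D N β i ⊆ Icc (0 : ℝ) 1 := by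
  rintro t (h | h)
  · exact h.1
  · exact h.1

theorem vol_Bad {C e : ℝ} (hC : 0 < C) (he : 0 ≤ e)
    (hT : ∀ (N : ℕ) (y : ℝ), 1 ≤ N → 0 < y →
      volume {t : ℝ | t ∈ Icc (0 : ℝ) 1 ∧ S D N t ≤ y} ≤ ENNReal.ofReal (C * (y / N)))
    (N : ℕ) (hN : 1 ≤ N) (β : ℝ) (i : ℕ)
    (hB : volume {t : ℝ | t ∈ Icc (0 : ℝ) 1 ∧ 1 / 4 < Bd D N β t} ≤ ENNReal.ofReal e) :
    (volume (Bad D N β i)).toReal ≤ C * (8 * 2 ^ i / N) + e := by
  have hN0 : (0 : ℝ) < N := by exact_mod_cast hN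
  have h1 := hT N (8 * 2 ^ i) hN (by positivity)
  have h2 : volume (Bad D N β i) ≤ ENNReal.ofReal (C * (8 * 2 ^ i / N) + e) := by
    rw [ENNReal.ofReal_add (by positivity) he]
    exact (measure_union_le _ _).trans (add_le_add h1 hB)
  have h3 := ENNReal.toReal_mono ENNReal.ofReal_ne_top h2
  rwa [ENNReal.toReal_ofReal (by positivity)] at h3

theorem good (hDc : DcX D) (hD : Ok D) {n N β k i : ℕ} (hβ : 1 ≤ β) (hik : i ≤ k)
    (hn : N * (22 * β * L ^ 2 * k) ≤ n) {t : ℝ} (ht : t ∈ Icc (0 : ℝ) 1)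
    (h : i = 0 ∨ t ∉ Bad D N β i) : len D n t ≤ 10 / 2 ^ i := by
  have ht0 : 0 ≤ t := ht.1
  rcases Nat.eq_zero_or_pos i with rfl | hi
  · have := len_le hD n ht0
    rw [pow_zero]
    linarith [ht.2]
  have h' : t ∉ Bad D N β i := by
    rcases h with h | h
    · omega
    · exact h
  have hS : 8 * 2 ^ i ≤ S D N t := by
    by_contra hc
    exact h' (Or.inl ⟨ht, (not_le.1 hc).le⟩)
  have hB : Bd D N β t ≤ 1 / 4 := by
    by_contra hc
    exact h' (Or.inr ⟨ht, not_le.1 hc⟩)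
  refine hDc N i β t ht0 ht.2 hi hβ hS hB n (le_trans ?_ hn)
  exact Nat.mul_le_mul_left _ (Nat.mul_le_mul_left _ hik)

theorem pointwise (hDc : DcX D) (hD : Ok D) {n N β k : ℕ} (hβ : 1 ≤ β)
    (hn : N * (22 * β * L ^ 2 * k) ≤ n) {t : ℝ} (ht : t ∈ Icc (0 : ℝ) 1) :
    len D n t ≤ 10 / 2 ^ k + ∑ i ∈ Finset.range k,
      20 / 2 ^ (i + 1) * (Bad D N β (i + 1)).indicator (1 : ℝ → ℝ) t := by
  classical
  have hnn : ∀ i ∈ Finset.range k,
      0 ≤ 20 / 2 ^ (i + 1) * (Bad D N β (i + 1)).indicator (1 : ℝ → ℝ) t := fun i _ =>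
    mul_nonneg (by positivity) (indicator_nonneg (fun _ _ => zero_le_one) _)
  by_cases h : ∃ i, i < k ∧ t ∈ Bad D N β (i + 1)
  · have h1 := Nat.find_spec h
    have h2 : ∀ j, j < Nat.find h → ¬ (j < k ∧ t ∈ Bad D N β (j + 1)) :=
      fun j hj => Nat.find_min h hj
    set i := Nat.find h with hi
    have h3 : 20 / 2 ^ (i + 1) * (Bad D N β (i + 1)).indicator (1 : ℝ → ℝ) t ≤
        ∑ i ∈ Finset.range k, 20 / 2 ^ (i + 1) * (Bad D N β (i + 1)).indicator (1 : ℝ → ℝ) t :=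
      Finset.single_le_sum hnn (Finset.mem_range.2 h1.1)
    rw [indicator_of_mem h1.2, Pi.one_apply, mul_one] at h3
    have h6 : len D n t ≤ 10 / 2 ^ i := by
      refine good hDc hD hβ h1.1.le hn ht ?_
      rcases Nat.eq_zero_or_pos i with h0 | hpos
      · exact Or.inl h0
      · refine Or.inr fun hc => h2 (i - 1) (by omega) ⟨by omega, ?_⟩
        rwa [Nat.sub_add_cancel hpos]
    have h7 : (20 : ℝ) / 2 ^ (i + 1) = 10 / 2 ^ i := by
      rw [pow_succ]
      field_simp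
      norm_num
    have h9 : (0 : ℝ) ≤ 10 / 2 ^ k := by positivity
    linarith
  · have h1 : k = 0 ∨ t ∉ Bad D N β k := by
      rcases Nat.eq_zero_or_pos k with h0 | hpos
      · exact Or.inl h0
      · refine Or.inr fun hc => h ⟨k - 1, by omega, ?_⟩
        rwa [Nat.sub_add_cancel hpos]
    have h2 := good hDc hD hβ le_rfl hn ht h1
    have h3 := Finset.sum_nonneg hnn
    linarith

theorem integrableOn_len (hD : Ok D) (n : ℕ) : IntegrableOn (len D n) (Icc (0 : ℝ) 1) := by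
  apply Measure.integrableOn_of_bounded (M := 2)
  · rw [Real.volume_Icc]; exact ENNReal.ofReal_ne_top
  · exact (measurable_len n).aestronglyMeasurable
  · rw [ae_restrict_iff' measurableSet_Icc]
    refine Filter.Eventually.of_forall fun t ht => ?_
    have ht0 : 0 ≤ t := ht.1
    rw [Real.norm_eq_abs, abs_of_nonneg (len_nonneg n t)]
    linarith [len_le hD n ht0, ht.2]

theorem integrableOn_ind (N : ℕ) (β : ℝ) (i : ℕ) :
    IntegrableOn ((Bad D N β i).indicator (1 : ℝ → ℝ)) (Icc (0 : ℝ) 1) := by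
  apply Measure.integrableOn_of_bounded (M := 1)
  · rw [Real.volume_Icc]; exact ENNReal.ofReal_ne_top
  · exact ((measurable_one).indicator (measurableSet_Bad N β i)).aestronglyMeasurable
  · refine Filter.Eventually.of_forall fun t => ?_
    by_cases h : t ∈ Bad D N β i
    · rw [indicator_of_mem h]; simp
    · rw [indicator_of_notMem h]; simp

theorem integral_le (hDc : DcX D) (hD : Ok D) {n N β k : ℕ} (hβ : 1 ≤ β)
    (hn : N * (22 * β * L ^ 2 * k) ≤ n) :
    ∫ t in (0 : ℝ)..1, len D n t ≤ 10 / 2 ^ k + ∑ i ∈ Finset.range k,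
      20 / 2 ^ (i + 1) * (volume (Bad D N β (i + 1))).toReal := by
  rw [intervalIntegral.integral_of_le (by norm_num), ← integral_Icc_eq_integral_Ioc]
  have hi : ∀ i ∈ Finset.range k, Integrable
      (fun t => 20 / 2 ^ (i + 1) * (Bad D N β (i + 1)).indicator (1 : ℝ → ℝ) t)
      (volume.restrict (Icc (0 : ℝ) 1)) := fun i _ => (integrableOn_ind N β (i + 1)).const_mul _
  have hs : IntegrableOn (fun t => ∑ i ∈ Finset.range k,
      20 / 2 ^ (i + 1) * (Bad D N β (i + 1)).indicator (1 : ℝ → ℝ) t) (Icc (0 : ℝ) 1) :=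
    integrable_finsetSum _ hi
  have hc : IntegrableOn (fun _ : ℝ => (10 / 2 ^ k : ℝ)) (Icc (0 : ℝ) 1) :=
    integrableOn_const (by rw [Real.volume_Icc]; exact ENNReal.ofReal_ne_top)
  calc ∫ t in Icc (0 : ℝ) 1, len D n t
      ≤ ∫ t in Icc (0 : ℝ) 1, (10 / 2 ^ k + ∑ i ∈ Finset.range k,
          20 / 2 ^ (i + 1) * (Bad D N β (i + 1)).indicator (1 : ℝ → ℝ) t) :=
        setIntegral_mono_on (integrableOn_len hD n) (hc.add hs) measurableSet_Icc
          fun t ht => pointwise hDc hD hβ hn ht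
    _ = (∫ _ in Icc (0 : ℝ) 1, (10 / 2 ^ k : ℝ)) + ∑ i ∈ Finset.range k,
          20 / 2 ^ (i + 1) * ∫ t in Icc (0 : ℝ) 1,
            (Bad D N β (i + 1)).indicator (1 : ℝ → ℝ) t := by
        rw [integral_add hc hs, integral_finsetSum _ hi]
        congr 1
        exact Finset.sum_congr rfl fun k _ => integral_const_mul _ _
    _ ≤ _ := by
        apply add_le_add
        · rw [setIntegral_const]
          have h1 : volume.real (Icc (0 : ℝ) 1) = 1 := by
            rw [Measure.real, Real.volume_Icc, ENNReal.toReal_ofReal (by norm_num)]; norm_num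
          rw [h1, smul_eq_mul, one_mul]
        · apply Finset.sum_le_sum
          intro i _
          apply mul_le_mul_of_nonneg_left _ (by positivity)
          rw [integral_indicator_one (measurableSet_Bad N β (i + 1)), Measure.real]
          apply ENNReal.toReal_mono
          · exact ne_top_of_le_ne_top (b := volume (Icc (0 : ℝ) 1))
              (by rw [Real.volume_Icc]; exact ENNReal.ofReal_ne_top)
              (measure_mono (Bad_subset N β (i + 1)))
          · exact Measure.restrict_apply_le _ _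

theorem geom_le (k : ℕ) : ∑ i ∈ Finset.range k, (1 : ℝ) / 2 ^ (i + 1) ≤ 1 := by
  have h : ∀ k : ℕ, ∑ i ∈ Finset.range k, (1 : ℝ) / 2 ^ (i + 1) = 1 - 1 / 2 ^ k := by
    intro k
    induction k with
    | zero => simp
    | succ k ih =>
      rw [Finset.sum_range_succ, ih, pow_succ]
      field_simp
      ring
  rw [h k]
  have : (0 : ℝ) < 1 / 2 ^ k := by positivity
  linarith

end IN2M

open IN2M in
theorem IN2_thm : Stmt_IN2 := by
  intro L D hD hDc hT
  obtain ⟨C, hC, hCT⟩ := hT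
  refine ⟨160 * C, by positivity, fun n N β k e hn hN hβ _ he hnk hNn hB => ?_⟩
  have hn0 : (0 : ℝ) < n := by exact_mod_cast hn
  have hN0 : (0 : ℝ) < N := by exact_mod_cast hN
  refine (integral_le hDc hD hβ hNn).trans ?_
  have h1 : (10 : ℝ) / 2 ^ k ≤ 10 / n := by
    have : (n : ℝ) ≤ 2 ^ k := by exact_mod_cast hnk
    exact div_le_div_of_nonneg_left (by norm_num) hn0 this
  have h2 : ∀ i ∈ Finset.range k, 20 / 2 ^ (i + 1) * (volume (Bad D N β (i + 1))).toReal ≤
      160 * C / N + 20 * e * (1 / 2 ^ (i + 1)) := by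
    intro i _
    have h3 := vol_Bad hC he hCT N hN β (i + 1) hB
    calc 20 / 2 ^ (i + 1) * (volume (Bad D N β (i + 1))).toReal
        ≤ 20 / 2 ^ (i + 1) * (C * (8 * 2 ^ (i + 1) / N) + e) :=
          mul_le_mul_of_nonneg_left h3 (by positivity)
      _ = 160 * C / N + 20 * e * (1 / 2 ^ (i + 1)) := by
          have : (2 : ℝ) ^ (i + 1) ≠ 0 := by positivity
          field_simp
          ring
  have h3 := Finset.sum_le_sum h2
  rw [Finset.sum_add_distrib, Finset.sum_const, Finset.card_range, nsmul_eq_mul,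
    ← Finset.mul_sum] at h3
  have h4 : 20 * e * ∑ i ∈ Finset.range k, (1 : ℝ) / 2 ^ (i + 1) ≤ 20 * e * 1 :=
    mul_le_mul_of_nonneg_left (geom_le k) (by positivity)
  have h5 : (k : ℝ) * (160 * C / N) = 160 * C * k / N := by ring
  linarith

end Pool.Agent.RDX
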