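import Pool.Agent.RDX.Stmts

/-!
# Random digit sets, second part: the mean length
-/

set_option autoImplicit false

namespace Pool.Agent.RDX

open MeasureTheory Set
open Pool.Agent.RDS

namespace MENM

/-- The number of binary digits is at most a constant times a small power. -/
theorem log_bd (s : ℝ) (hs : 0 < s) (n : ℕ) (hn : 1 ≤ n) :
    ((Nat.log 2 n + 1 : ℕ) : ℝ) ≤ (1 + 2 / s) * (n : ℝ) ^ s := by
  have hn' : (1 : ℝ) ≤ n := by exact_mod_cast hn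
  have hn0 : (0 : ℝ) < n := by linarith
  have h1 : (1 : ℝ) ≤ (n : ℝ) ^ s := Real.one_le_rpow hn' hs.le
  have h2 : ((2 ^ Nat.log 2 n : ℕ) : ℝ) ≤ n := by
    exact_mod_cast Nat.pow_log_le_self 2 (by omega)
  have h3 : (Nat.log 2 n : ℝ) * Real.log 2 ≤ Real.log n := by
    have h4 : Real.log ((2 ^ Nat.log 2 n : ℕ) : ℝ) ≤ Real.log n :=
      Real.log_le_log (by positivity) h2
    push_cast at h4
    rwa [Real.log_pow] at h4
  have h5 : (1 / 2 : ℝ) ≤ Real.log 2 := by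
    have := Real.log_two_gt_d9
    linarith
  have h6 : Real.log n ≤ (n : ℝ) ^ s / s := Real.log_le_rpow_div hn0.le hs
  have h7 : (0 : ℝ) ≤ Nat.log 2 n := Nat.cast_nonneg _
  have h8 : (Nat.log 2 n : ℝ) ≤ 2 / s * (n : ℝ) ^ s := by
    have : (Nat.log 2 n : ℝ) * (1 / 2) ≤ (n : ℝ) ^ s / s := by nlinarith
    have e : 2 / s * (n : ℝ) ^ s = 2 * ((n : ℝ) ^ s / s) := by ring
    rw [e]
    linarith
  push_cast
  nlinarith

/-- The integral of the length is at most `2`. -/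
theorem int_le {L : ℕ} {D : Fin L → ℕ × ℕ} (hD : Ok D) (n : ℕ) :
    ∫ t in (0 : ℝ)..1, len D n t ≤ 2 := by
  have h1 : ‖∫ t in (0 : ℝ)..1, len D n t‖ ≤ 2 * |(1 : ℝ) - 0| := by
    refine intervalIntegral.norm_integral_le_of_norm_le_const fun t ht => ?_
    rw [uIoc_of_le (by norm_num)] at ht
    rw [Real.norm_of_nonneg (len_nonneg n t)]
    have := len_le hD n ht.1.le
    linarith [ht.2]
  rw [Real.norm_eq_abs] at h1
  have := le_abs_self (∫ t in (0 : ℝ)..1, len D n t)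
  norm_num at h1
  linarith

/-- The final estimate, in numbers. -/
theorem fin_bd {n L k β C C1 C2 a b ε : ℝ} (hn : 1 ≤ n) (hL : 0 ≤ L) (hk : 1 ≤ k) (hβ : 1 ≤ β)
    (hC : 0 ≤ C) (hC2 : 0 ≤ C2) (hb : 0 ≤ b) (ha : 0 ≤ a) (hab : a + b ≤ ε)
    (hk2 : k ≤ C1 * n ^ (b / 2)) (hβ2 : β ≤ 2 * n ^ a) {I : ℝ}
    (hI : I ≤ 10 / n + (C + 1) * (44 * β * L ^ 2 * k ^ 2 / n) + 20 * (C2 / n)) :
    I ≤ (10 + 88 * L ^ 2 * C1 ^ 2 * (C + 1) + 20 * C2) * n ^ (-1 + ε) := by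
  have hn0 : 0 < n := by linarith
  have e1 : (n ^ (b / 2)) ^ 2 = n ^ b := by
    rw [← Real.rpow_natCast, ← Real.rpow_mul hn0.le]
    congr 1
    push_cast
    ring
  have h1 : k ^ 2 ≤ C1 ^ 2 * n ^ b := by
    have := pow_le_pow_left₀ (by linarith) hk2 2
    rwa [mul_pow, e1] at this
  have hnb : 0 < n ^ b := Real.rpow_pos_of_pos hn0 b
  have hna : 0 < n ^ a := Real.rpow_pos_of_pos hn0 a
  have h2 : β * k ^ 2 ≤ 2 * C1 ^ 2 * n ^ (a + b) := by
    rw [Real.rpow_add hn0]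
    have h3 := mul_le_mul hβ2 h1 (by positivity) (by positivity)
    refine h3.trans (le_of_eq ?_)
    ring
  have h4 : n ^ (a + b) ≤ n ^ ε := Real.rpow_le_rpow_of_exponent_le hn hab
  have h5 : (1 : ℝ) ≤ n ^ ε := Real.one_le_rpow hn (by linarith)
  have e2 : n ^ (-1 + ε) = n ^ ε / n := by
    rw [Real.rpow_add hn0, Real.rpow_neg hn0.le, Real.rpow_one]
    ring
  rw [e2]
  refine hI.trans ?_
  have e3 : 10 / n + (C + 1) * (44 * β * L ^ 2 * k ^ 2 / n) + 20 * (C2 / n) =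
      (10 + (C + 1) * (44 * L ^ 2 * (β * k ^ 2)) + 20 * C2) / n := by
    field_simp
  have e4 : (10 + 88 * L ^ 2 * C1 ^ 2 * (C + 1) + 20 * C2) * (n ^ ε / n) =
      ((10 + 88 * L ^ 2 * C1 ^ 2 * (C + 1) + 20 * C2) * n ^ ε) / n := by ring
  rw [e3, e4]
  refine div_le_div_of_nonneg_right ?_ hn0.le
  have h6 : β * k ^ 2 ≤ 2 * C1 ^ 2 * n ^ ε :=
    h2.trans (mul_le_mul_of_nonneg_left h4 (by positivity))
  have h7 : (C + 1) * (44 * L ^ 2 * (β * k ^ 2)) ≤ (C + 1) * (44 * L ^ 2 * (2 * C1 ^ 2 * n ^ ε)) :=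
    mul_le_mul_of_nonneg_left (mul_le_mul_of_nonneg_left h6 (by positivity)) (by linarith)
  have h8 : C2 * 1 ≤ C2 * n ^ ε := mul_le_mul_of_nonneg_left h5 hC2
  nlinarith

end MENM

open MENM in
theorem MEN_thm : Stmt_MEN := by
  intro L D q ε hD hq hε hE hI
  obtain ⟨C2, hC2, hE⟩ := hE
  obtain ⟨C, hC, hI⟩ := hI
  have hq1 : (1 : ℝ) ≤ (q : ℝ) - 1 := by
    have : (2 : ℝ) ≤ q := by exact_mod_cast hq
    linarith
  have hq0 : (0 : ℝ) < (q : ℝ) - 1 := by linarith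
  have hb : (0 : ℝ) < 1 / ((q : ℝ) - 1) := by positivity
  have ha : (0 : ℝ) < 5 / ((q : ℝ) - 1) := by positivity
  have hab : 5 / ((q : ℝ) - 1) + 1 / ((q : ℝ) - 1) ≤ ε := by
    rw [← add_div, div_le_iff₀ hq0]
    linarith
  refine ⟨10 + 88 * (L : ℝ) ^ 2 * (1 + 2 / (1 / ((q : ℝ) - 1) / 2)) ^ 2 * (C + 1) + 20 * C2,
    by positivity, fun n hn => ?_⟩
  have hn1 : (1 : ℝ) ≤ n := by exact_mod_cast hn
  have hn0 : (0 : ℝ) < n := by linarith
  obtain ⟨β, hβ, hβ2, hE⟩ := hE n hn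
  set k : ℕ := Nat.log 2 n + 1 with hkdef
  have hk2 := log_bd (1 / ((q : ℝ) - 1) / 2) (by positivity) n hn
  rw [← hkdef] at hk2
  have hk : 1 ≤ k := by omega
  have hkR : (1 : ℝ) ≤ k := by exact_mod_cast hk
  have hβR : (1 : ℝ) ≤ β := by exact_mod_cast hβ
  have hL4 : 4 ≤ L := hD.four
  have hLR : (4 : ℝ) ≤ L := by exact_mod_cast hL4
  refine fin_bd (β := (β : ℝ)) (k := (k : ℝ)) (C := C) (C2 := C2) hn1 (by linarith) hkR hβR hC.le
    hC2.le hb.le ha.le hab hk2 hβ2 ?_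
  set Q : ℕ := 22 * β * L ^ 2 * k with hQdef
  have hQ0 : 0 < Q := by positivity
  have hQR : (Q : ℝ) = 22 * β * (L : ℝ) ^ 2 * k := by rw [hQdef]; push_cast; ring
  have hkk : (k : ℝ) ≤ (k : ℝ) ^ 2 := by nlinarith
  have hpos : (0 : ℝ) ≤ 44 * β * (L : ℝ) ^ 2 := by positivity
  rcases Nat.eq_zero_or_pos (n / Q) with h0 | h0
  · have h1 : n < Q := by
      rcases Nat.div_eq_zero_iff.1 h0 with h | h
      · omega
      · exact h
    have h1R : (n : ℝ) ≤ 22 * β * (L : ℝ) ^ 2 * k := by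
      rw [← hQR]
      exact_mod_cast h1.le
    have h2 := int_le hD n
    have h3 : (2 : ℝ) ≤ 44 * β * (L : ℝ) ^ 2 * (k : ℝ) ^ 2 / n := by
      rw [le_div_iff₀ hn0]
      have := mul_le_mul_of_nonneg_left hkk hpos
      nlinarith
    have h4 : (0 : ℝ) ≤ 10 / n := by positivity
    have h5 : (0 : ℝ) ≤ 20 * (C2 / n) := by positivity
    have h6 : (0 : ℝ) ≤ C * (44 * β * (L : ℝ) ^ 2 * (k : ℝ) ^ 2 / n) := by positivity
    linarith
  · have h1 := hI n (n / Q) β k (C2 / n) hn h0 hβ hk (by positivity)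
      (Nat.lt_pow_succ_log_self (by norm_num) n).le (Nat.div_mul_le_self n Q)
      (hE (n / Q) (Nat.div_le_self n Q))
    refine h1.trans ?_
    have h2 : n < Q * (n / Q + 1) := by
      have := Nat.lt_div_mul_add (a := n) hQ0
      calc n < n / Q * Q + Q := this
        _ = Q * (n / Q + 1) := by ring
    have hNR : (1 : ℝ) ≤ ((n / Q : ℕ) : ℝ) := by exact_mod_cast h0
    have h2R : (n : ℝ) ≤ Q * (((n / Q : ℕ) : ℝ) + 1) := by exact_mod_cast h2.le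
    have h3 : (n : ℝ) ≤ 44 * β * (L : ℝ) ^ 2 * k * ((n / Q : ℕ) : ℝ) := by
      rw [hQR] at h2R
      have h4 : (0 : ℝ) ≤ 22 * β * (L : ℝ) ^ 2 * k := by positivity
      nlinarith
    have h5 : C * (k : ℝ) / ((n / Q : ℕ) : ℝ) ≤
        C * (44 * β * (L : ℝ) ^ 2 * (k : ℝ) ^ 2 / n) := by
      rw [mul_div_assoc]
      refine mul_le_mul_of_nonneg_left ?_ hC.le
      rw [div_le_div_iff₀ (by linarith) hn0]
      have := mul_le_mul_of_nonneg_left h3 (show (0 : ℝ) ≤ k by linarith)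
      nlinarith
    have h6 : (0 : ℝ) ≤ 44 * β * (L : ℝ) ^ 2 * (k : ℝ) ^ 2 / n := by positivity
    linarith

end Pool.Agent.RDX
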