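import Pool.Agent.RDX.Stmts

/-! The module MOM: moments of the iterates in good directions. -/

set_option autoImplicit false

namespace Pool.Agent.RDX

open MeasureTheory Set
open Pool.Agent.RDS

namespace MOMM

variable {L : ℕ} {D : Fin L → ℕ × ℕ}

/-- the weighted inequality of the means -/
theorem means {q : ℕ} (hq : 1 ≤ q) (m : ℕ) : ∀ g : ℕ → ℝ, (∀ i, 0 ≤ g i) →
    (∑ i ∈ Finset.range m, g i) ^ q ≤
      ∑ i ∈ Finset.range m, 2 ^ ((q - 1) * (i + 1)) * g i ^ q := by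
  induction m with
  | zero =>
    intro g _
    simp [zero_pow (by omega : q ≠ 0)]
  | succ m ih =>
    intro g hg
    rw [Finset.sum_range_succ', Finset.sum_range_succ']
    have h1 := ih (fun i => g (i + 1)) (fun i => hg _)
    have h2 := add_pow_le (Finset.sum_nonneg fun i (_ : i ∈ Finset.range m) => hg (i + 1))
      (hg 0) q
    have h3 : (0 : ℝ) < 2 ^ (q - 1) := by positivity
    have h4 : ∑ i ∈ Finset.range m, (2 : ℝ) ^ ((q - 1) * (i + 1 + 1)) * g (i + 1) ^ q =
        2 ^ (q - 1) * ∑ i ∈ Finset.range m, 2 ^ ((q - 1) * (i + 1)) * g (i + 1) ^ q := by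
      rw [Finset.mul_sum]
      refine Finset.sum_congr rfl fun i _ => ?_
      rw [mul_add (q - 1) (i + 1) 1, pow_add, mul_one]
      ring
    have h5 := mul_le_mul_of_nonneg_left h1 h3.le
    rw [h4]
    have h6 : (q - 1) * (0 + 1) = q - 1 := by ring
    rw [h6]
    rw [mul_add] at h2
    linarith

/-- the iterate as a sum of the increments -/
theorem tele (t x : ℝ) (m : ℕ) : Y D t m x = Psi x + ∑ r ∈ Finset.range m, gr D r x t := by
  have h := Finset.sum_range_sub (fun r => Y D t r x) m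
  have h2 : ∑ r ∈ Finset.range m, gr D r x t =
      ∑ r ∈ Finset.range m, (Y D t (r + 1) x - Y D t r x) := rfl
  rw [h2, h, Y_zero]
  ring

/-- the iterates are at most the powers of `2M` -/
theorem Y_le (hN : Stmt_ND4) {M : ℕ} (hD : Ok D) (hM : Deg D M) {t : ℝ} (ht : t ∈ Icc (0 : ℝ) 1)
    (n : ℕ) (x : ℝ) : Y D t n x ≤ (2 * (M : ℝ)) ^ n :=
  (iter_mono Psi_le_ind t n x).trans (hN D hD M hM t ⟨by linarith [ht.1], by linarith [ht.2]⟩ n x)

theorem abs_gr (hN : Stmt_ND4) {M : ℕ} (hM1 : 1 ≤ M) (hD : Ok D) (hM : Deg D M) {t : ℝ}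
    (ht : t ∈ Icc (0 : ℝ) 1) (r : ℕ) (x : ℝ) : |gr D r x t| ≤ (2 * (M : ℝ)) ^ (r + 1) := by
  have h0 : (1 : ℝ) ≤ 2 * (M : ℝ) := by
    have : (1 : ℝ) ≤ M := by exact_mod_cast hM1
    linarith
  have h1 := Y_le hN hD hM ht (r + 1) x
  have h2 := Y_le hN hD hM ht r x
  have h3 : (2 * (M : ℝ)) ^ r ≤ (2 * (M : ℝ)) ^ (r + 1) := pow_le_pow_right₀ h0 (by omega)
  have h4 := Y_nonneg (D := D) t (r + 1) x
  have h5 := Y_nonneg (D := D) t r x
  have h6 : gr D r x t = Y D t (r + 1) x - Y D t r x := rfl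
  rw [h6, abs_le]
  constructor <;> linarith

/-- the coefficients -/
noncomputable def cf (q M r : ℕ) : ℝ := 2 ^ ((q - 1) * (r + 2)) * (2 * (M : ℝ)) ^ ((r + 1) * (q - 2))

theorem cf_nonneg (q M r : ℕ) : 0 ≤ cf q M r := by unfold cf; positivity

theorem pw (hN : Stmt_ND4) {M : ℕ} (hM1 : 1 ≤ M) (hD : Ok D) (hM : Deg D M) {q : ℕ} (hq : 2 ≤ q)
    {t : ℝ} (ht : t ∈ Icc (0 : ℝ) 1) (m : ℕ) (x : ℝ) :
    Y D t m x ^ q ≤ 2 ^ (q - 1) * Psi x + ∑ r ∈ Finset.range m, cf q M r * gr D r x t ^ 2 := by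
  let g : ℕ → ℝ := fun i => Nat.casesOn i (Psi x) fun r => |gr D r x t|
  have hg : ∀ i, 0 ≤ g i := by
    intro i
    cases i with
    | zero => exact Psi_nonneg x
    | succ r => exact abs_nonneg _
  have h1 : Y D t m x ≤ ∑ i ∈ Finset.range (m + 1), g i := by
    rw [Finset.sum_range_succ', tele, add_comm]
    refine add_le_add ?_ le_rfl
    exact Finset.sum_le_sum fun r _ => le_abs_self _
  have h2 := means (by omega : 1 ≤ q) (m + 1) g hg
  refine (pow_le_pow_left₀ (Y_nonneg t m x) h1 q).trans (h2.trans ?_)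
  rw [Finset.sum_range_succ', add_comm]
  have h3 : (q - 1) * (0 + 1) = q - 1 := by ring
  rw [h3]
  refine add_le_add ?_ (Finset.sum_le_sum fun r _ => ?_)
  · refine mul_le_mul_of_nonneg_left ?_ (by positivity)
    exact (pow_le_of_le_one (Psi_nonneg x) (Psi_le_one x) (by omega : q ≠ 0))
  · have h4 := abs_gr hN hM1 hD hM ht r x
    obtain ⟨s, hs⟩ : ∃ s, q = s + 2 := ⟨q - 2, by omega⟩
    have h5 : |gr D r x t| ^ q ≤ (2 * (M : ℝ)) ^ ((r + 1) * (q - 2)) * gr D r x t ^ 2 := by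
      rw [hs, pow_add, sq_abs, show s + 2 - 2 = s from rfl, pow_mul]
      exact mul_le_mul_of_nonneg_right (pow_le_pow_left₀ (abs_nonneg _) h4 s) (sq_nonneg _)
    have h6 : g (r + 1) = |gr D r x t| := rfl
    rw [h6]
    unfold cf
    rw [mul_assoc]
    exact mul_le_mul_of_nonneg_left h5 (by positivity)

/-- linearity of one step -/
theorem T_lin (a : ℝ) (c : ℕ → ℝ) (m : ℕ) (φ : ℝ → ℝ) (ψ : ℕ → ℝ → ℝ) (t x : ℝ) :
    T D t (fun y => a * φ y + ∑ r ∈ Finset.range m, c r * ψ r y) x =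
      a * T D t φ x + ∑ r ∈ Finset.range m, c r * T D t (ψ r) x := by
  have h1 : ∀ r, c r * ((∑ p : Fin L × Fin L, ψ r ((L : ℝ) * x - dt D t p)) / (L : ℝ)) =
      (∑ p : Fin L × Fin L, c r * ψ r ((L : ℝ) * x - dt D t p)) / (L : ℝ) := by
    intro r
    rw [← Finset.mul_sum, mul_div_assoc]
  unfold T
  simp only [h1]
  rw [Finset.sum_add_distrib, add_div, ← Finset.mul_sum, Finset.sum_comm, mul_div_assoc,
    Finset.sum_div, Finset.sum_div]

/-- linearity of the iterates -/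
theorem iter_lin (a : ℝ) (c : ℕ → ℝ) (m : ℕ) (φ : ℝ → ℝ) (ψ : ℕ → ℝ → ℝ) (t : ℝ) (n : ℕ) :
    ∀ x, (T D t)^[n] (fun y => a * φ y + ∑ r ∈ Finset.range m, c r * ψ r y) x =
      a * (T D t)^[n] φ x + ∑ r ∈ Finset.range m, c r * (T D t)^[n] (ψ r) x := by
  induction n with
  | zero => intro x; rfl
  | succ n ih =>
    intro x
    have h1 : (T D t)^[n] (fun y => a * φ y + ∑ r ∈ Finset.range m, c r * ψ r y) =
        fun x => a * (T D t)^[n] φ x + ∑ r ∈ Finset.range m, c r * (T D t)^[n] (ψ r) x :=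
      funext ih
    simp only [iter_succ']
    rw [h1]
    exact T_lin a c m _ _ t x

/-- joint continuity -/
theorem cont_iter {φ : ℝ → ℝ → ℝ} (h : Continuous fun q : ℝ × ℝ => φ q.1 q.2) (n : ℕ) :
    Continuous fun q : ℝ × ℝ => (T D q.1)^[n] (φ q.1) q.2 := by
  induction n with
  | zero => exact h
  | succ n ih =>
    have : (fun q : ℝ × ℝ => (T D q.1)^[n + 1] (φ q.1) q.2) = fun q : ℝ × ℝ =>
        (∑ p : Fin L × Fin L, (T D q.1)^[n] (φ q.1) ((L : ℝ) * q.2 - dt D q.1 p)) / (L : ℝ) := by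
      funext q
      rw [iter_succ']
      rfl
    rw [this]
    refine (continuous_finsetSum _ fun p _ => ?_).div_const _
    exact ih.comp (f := fun q : ℝ × ℝ => (q.1, (L : ℝ) * q.2 - dt D q.1 p))
      (by unfold dt; fun_prop)

theorem cont_gr (r j : ℕ) (a b : ℝ) :
    Continuous fun t : ℝ => (T D t)^[j] (fun x => gr D r x t ^ 2) (a + t * b) := by
  have h1 : Continuous fun q : ℝ × ℝ => (fun t x => gr D r x t ^ 2) q.1 q.2 :=
    ((continuous_Y (r + 1)).sub (continuous_Y r)).pow 2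
  exact (cont_iter (φ := fun t x => gr D r x t ^ 2) h1 j).comp (f := fun t : ℝ => (t, a + t * b)) (by fun_prop)

/-- the geometric series -/
theorem geo {q M : ℕ} {κ : ℝ} (hκ : 0 ≤ κ) (h : 2 ^ (q - 1) * (2 * (M : ℝ)) ^ (q - 2) * κ ≤ 1 / 2)
    (m : ℕ) : ∑ r ∈ Finset.range m, cf q M r * κ ^ r ≤
      2 * (2 ^ (2 * (q - 1)) * (2 * (M : ℝ)) ^ (q - 2)) := by
  have h1 : ∀ r, cf q M r * κ ^ r ≤ (2 ^ (2 * (q - 1)) * (2 * (M : ℝ)) ^ (q - 2)) * (1 / 2) ^ r := by
    intro r
    have e : cf q M r * κ ^ r = (2 ^ (2 * (q - 1)) * (2 * (M : ℝ)) ^ (q - 2)) *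
        (2 ^ (q - 1) * (2 * (M : ℝ)) ^ (q - 2) * κ) ^ r := by
      unfold cf
      have i1 : (2 : ℝ) ^ ((q - 1) * (r + 2)) = 2 ^ (2 * (q - 1)) * (2 ^ (q - 1)) ^ r := by
        rw [← pow_mul, ← pow_add]
        congr 1
        ring
      have i2 : (2 * (M : ℝ)) ^ ((r + 1) * (q - 2)) =
          (2 * (M : ℝ)) ^ (q - 2) * ((2 * (M : ℝ)) ^ (q - 2)) ^ r := by
        rw [← pow_mul, ← pow_add]
        congr 1
        ring
      rw [i1, i2, mul_pow, mul_pow]
      ring
    rw [e]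
    have i3 : (0 : ℝ) ≤ 2 ^ (q - 1) * (2 * (M : ℝ)) ^ (q - 2) * κ := by positivity
    exact mul_le_mul_of_nonneg_left (pow_le_pow_left₀ i3 h r) (by positivity)
  refine (Finset.sum_le_sum fun r _ => h1 r).trans ?_
  rw [← Finset.mul_sum]
  refine le_trans (mul_le_mul_of_nonneg_left (?_ : _ ≤ (2 : ℝ)) (by positivity))
    (mul_comm _ _).le
  have h2 : ∀ m : ℕ, ∑ r ∈ Finset.range m, (1 / 2 : ℝ) ^ r = 2 - 2 * (1 / 2) ^ m := by
    intro m
    induction m with
    | zero => simp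
    | succ m ih =>
      rw [Finset.sum_range_succ, ih, pow_succ]
      ring
  rw [h2]
  have h3 : (0 : ℝ) ≤ (1 / 2) ^ m := by positivity
  linarith

theorem vol_Gd (a b : ℤ) (H : ℝ) : volume (Gd D a b H) ≤ 1 := by
  have h1 : Gd D a b H ⊆ Icc (0 : ℝ) 1 := fun t ht => ht.1
  refine (measure_mono h1).trans ?_
  rw [Real.volume_Icc]
  norm_num

end MOMM

open MOMM in
/-- MOM. -/
theorem MOM_thm : Stmt_MOM := by
  intro hN L D M K c q h hG
  obtain ⟨C, hC, hC2⟩ := hG
  have hq := h.hq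
  refine ⟨2 ^ (q - 1) + C * (2 * (2 ^ (2 * (q - 1)) * (2 * (M : ℝ)) ^ (q - 2))), by positivity,
    fun a b hb hb' H hH j m => ?_⟩
  have hκ := kap_nonneg (L := L) M K
  have hS : MeasurableSet (Gd D a b H) := measurableSet_Gd a b H
  have hm : ∀ r, Measurable fun t : ℝ =>
      ENNReal.ofReal ((T D t)^[j] (fun x => gr D r x t ^ 2) (a + t * b)) := fun r =>
    (cont_gr r j a b).measurable.ennreal_ofReal
  have h0 : ∀ r t, 0 ≤ (T D t)^[j] (fun x => gr D r x t ^ 2) (a + t * b) := fun r t =>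
    iter_nonneg (fun y => sq_nonneg _) t j _
  calc ∫⁻ t in Gd D a b H, ENNReal.ofReal ((T D t)^[j] (fun x => Y D t m x ^ q) (a + t * b))
      ≤ ∫⁻ t in Gd D a b H, (ENNReal.ofReal (2 ^ (q - 1) * H) + ∑ r ∈ Finset.range m,
          ENNReal.ofReal (cf q M r) *
            ENNReal.ofReal ((T D t)^[j] (fun x => gr D r x t ^ 2) (a + t * b))) := by
        refine setLIntegral_mono' hS fun t ht => ?_
        have e1 := iter_mono (D := D) (fun y => pw hN h.hM h.toOk h.deg hq ht.1 m y) t j (a + t * b)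
        rw [iter_lin (2 ^ (q - 1)) (cf q M) m Psi (fun r y => gr D r y t ^ 2) t j (a + t * b)] at e1
        have e2 : (T D t)^[j] Psi (a + t * b) ≤ H := ht.2 j
        have e3 : (2 : ℝ) ^ (q - 1) * (T D t)^[j] Psi (a + t * b) ≤ 2 ^ (q - 1) * H :=
          mul_le_mul_of_nonneg_left e2 (by positivity)
        have e4 : ∑ r ∈ Finset.range m, ENNReal.ofReal (cf q M r) *
            ENNReal.ofReal ((T D t)^[j] (fun x => gr D r x t ^ 2) (a + t * b)) =
            ENNReal.ofReal (∑ r ∈ Finset.range m, cf q M r *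
              (T D t)^[j] (fun x => gr D r x t ^ 2) (a + t * b)) := by
          rw [ENNReal.ofReal_sum_of_nonneg fun r _ => mul_nonneg (cf_nonneg q M r) (h0 r t)]
          exact Finset.sum_congr rfl fun r _ => (ENNReal.ofReal_mul (cf_nonneg q M r)).symm
        rw [e4, ← ENNReal.ofReal_add (by positivity)
          (Finset.sum_nonneg fun r _ => mul_nonneg (cf_nonneg q M r) (h0 r t))]
        exact ENNReal.ofReal_le_ofReal (e1.trans (by linarith))
    _ = ENNReal.ofReal (2 ^ (q - 1) * H) * volume (Gd D a b H) + ∑ r ∈ Finset.range m,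
          ENNReal.ofReal (cf q M r) * ∫⁻ t in Gd D a b H,
            ENNReal.ofReal ((T D t)^[j] (fun x => gr D r x t ^ 2) (a + t * b)) := by
        rw [lintegral_add_left measurable_const, setLIntegral_const,
          lintegral_finsetSum _ fun r _ => (hm r).const_mul _]
        congr 1
        exact Finset.sum_congr rfl fun r _ => lintegral_const_mul _ (hm r)
    _ ≤ ENNReal.ofReal (2 ^ (q - 1) * H) + ∑ r ∈ Finset.range m,
          ENNReal.ofReal (cf q M r) * ENNReal.ofReal (C * H * kap L M K ^ r) := by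
        refine add_le_add ?_ (Finset.sum_le_sum fun r _ => mul_le_mul_right (hC2 a b hb hb' H hH j r) _)
        calc ENNReal.ofReal (2 ^ (q - 1) * H) * volume (Gd D a b H)
            ≤ ENNReal.ofReal (2 ^ (q - 1) * H) * 1 := mul_le_mul_right (vol_Gd a b H) _
          _ = _ := mul_one _
    _ = ENNReal.ofReal (2 ^ (q - 1) * H + ∑ r ∈ Finset.range m, cf q M r * (C * H * kap L M K ^ r)) := by
        rw [ENNReal.ofReal_add (by positivity) (Finset.sum_nonneg fun r _ =>
          mul_nonneg (cf_nonneg q M r) (by positivity)),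
          ENNReal.ofReal_sum_of_nonneg fun r _ => mul_nonneg (cf_nonneg q M r) (by positivity)]
        congr 1
        exact Finset.sum_congr rfl fun r _ => (ENNReal.ofReal_mul (cf_nonneg q M r)).symm
    _ ≤ _ := by
        refine ENNReal.ofReal_le_ofReal ?_
        have e1 := geo (q := q) (M := M) hκ h.kap_small m
        have e2 : ∑ r ∈ Finset.range m, cf q M r * (C * H * kap L M K ^ r) =
            C * H * ∑ r ∈ Finset.range m, cf q M r * kap L M K ^ r := by
          rw [Finset.mul_sum]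
          exact Finset.sum_congr rfl fun r _ => by ring
        rw [e2]
        have e3 := mul_le_mul_of_nonneg_left e1 (by positivity : 0 ≤ C * H)
        calc _ ≤ 2 ^ (q - 1) * H +
              C * H * (2 * (2 ^ (2 * (q - 1)) * (2 * (M : ℝ)) ^ (q - 2))) := by linarith
          _ = _ := by ring

end Pool.Agent.RDX
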