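import Pool.Agent.RDX.Stmts

/-!
# RDX: module ND4, upper bound for the iterates, half width four
-/

set_option autoImplicit false

namespace Pool.Agent.RDX

open MeasureTheory Set
open Pool.Agent.RDS

namespace ND4M

variable {L : ℕ} {D : Fin L → ℕ × ℕ}

theorem card_le {M : ℕ} (hM : Deg D M) {t : ℝ} (ht : t ∈ Icc (-1 : ℝ) 2) (z : ℝ) :
    (Finset.univ.filter fun i : Fin L => |((D i).1 : ℝ) + t * ((D i).2 : ℝ) - z| ≤ 4).card ≤
      2 * M := by
  classical
  have h1 := hM t ht (z + 1)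
  have h2 := hM t ht (z - 1)
  have h3 : (Finset.univ.filter fun i : Fin L =>
      |((D i).1 : ℝ) + t * ((D i).2 : ℝ) - z| ≤ 4) ⊆
      (Finset.univ.filter fun i : Fin L =>
        |((D i).1 : ℝ) + t * ((D i).2 : ℝ) - (z + 1)| ≤ 3) ∪
      (Finset.univ.filter fun i : Fin L =>
        |((D i).1 : ℝ) + t * ((D i).2 : ℝ) - (z - 1)| ≤ 3) := by
    intro i hi
    simp only [Finset.mem_filter, Finset.mem_univ, true_and, Finset.mem_union] at hi ⊢
    rw [abs_le] at hi
    rcases le_total (((D i).1 : ℝ) + t * ((D i).2 : ℝ)) z with h | h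
    · right
      rw [abs_le]
      constructor <;> linarith [hi.1, hi.2]
    · left
      rw [abs_le]
      constructor <;> linarith [hi.1, hi.2]
  have h4 := (Finset.card_le_card h3).trans (Finset.card_union_le _ _)
  omega

theorem T_ind_le (hD : Ok D) {M : ℕ} (hM : Deg D M) {t : ℝ} (ht : t ∈ Icc (-1 : ℝ) 2) (x : ℝ) :
    T D t (ind 4) x ≤ 2 * (M : ℝ) := by
  have hL := hD.pos
  unfold T
  rw [div_le_iff₀ hL, Fintype.sum_prod_type_right]
  have h1 : ∀ j : Fin L, ∑ i : Fin L, ind 4 ((L : ℝ) * x - dt D t (i, j)) ≤ 2 * (M : ℝ) := by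
    intro j
    have h2 := card_le hM ht ((L : ℝ) * x + (((D j).1 : ℝ) + t * ((D j).2 : ℝ)))
    have h2' : ((Finset.univ.filter fun i : Fin L => |((D i).1 : ℝ) + t * ((D i).2 : ℝ) -
        ((L : ℝ) * x + (((D j).1 : ℝ) + t * ((D j).2 : ℝ)))| ≤ 4).card : ℝ) ≤ 2 * (M : ℝ) := by
      exact_mod_cast h2
    refine le_trans ?_ h2'
    rw [Finset.card_filter, Nat.cast_sum]
    refine Finset.sum_le_sum fun i _ => ?_
    have h3 : |(L : ℝ) * x - dt D t (i, j)| = |((D i).1 : ℝ) + t * ((D i).2 : ℝ) -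
        ((L : ℝ) * x + (((D j).1 : ℝ) + t * ((D j).2 : ℝ)))| := by
      rw [← abs_neg]
      congr 1
      unfold dt dx dy
      push_cast
      ring
    by_cases h4 : |((D i).1 : ℝ) + t * ((D i).2 : ℝ) -
        ((L : ℝ) * x + (((D j).1 : ℝ) + t * ((D j).2 : ℝ)))| ≤ 4
    · rw [if_pos h4, ind_of_le (h3.trans_le h4)]
      norm_num
    · rw [if_neg h4, ind_of_lt (h3 ▸ not_le.1 h4)]
      norm_num
  calc ∑ j : Fin L, ∑ i : Fin L, ind 4 ((L : ℝ) * x - dt D t (i, j))
        ≤ ∑ _j : Fin L, 2 * (M : ℝ) := Finset.sum_le_sum fun j _ => h1 j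
    _ = 2 * (M : ℝ) * L := by
        rw [Finset.sum_const, Finset.card_univ, Fintype.card_fin, nsmul_eq_mul]
        ring

theorem iter_le (hD : Ok D) {M : ℕ} (hM : Deg D M) {t : ℝ} (ht : t ∈ Icc (-1 : ℝ) 2) (n : ℕ) :
    ∀ x, (T D t)^[n] (ind 4) x ≤ (2 * (M : ℝ)) ^ n * ind 4 x := by
  induction n with
  | zero => intro x; simp
  | succ n ih =>
    intro x
    by_cases hx : |x| ≤ 4
    · rw [iter_succ', ind_of_le hx, mul_one]
      calc T D t ((T D t)^[n] (ind 4)) x ≤ T D t (fun y => (2 * (M : ℝ)) ^ n * ind 4 y) x :=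
            T_mono ih t x
        _ = (2 * (M : ℝ)) ^ n * T D t (ind 4) x := T_smul _ _ t x
        _ ≤ (2 * (M : ℝ)) ^ n * (2 * (M : ℝ)) :=
            mul_le_mul_of_nonneg_left (T_ind_le hD hM ht x) (by positivity)
        _ = (2 * (M : ℝ)) ^ (n + 1) := (pow_succ _ _).symm
    · have hx' := not_le.1 hx
      have habs : |t| ≤ 2 := abs_le.2 ⟨by linarith [ht.1], ht.2⟩
      rw [iter_zero hD (by linarith : 1 + |t| ≤ 4) (fun y hy => ind_of_lt hy) (n + 1) x hx',
        ind_of_lt hx', mul_zero]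

end ND4M

theorem ND4_thm : Stmt_ND4 := by
  intro L D hD M hM t ht n x
  refine (ND4M.iter_le hD hM ht n x).trans ?_
  exact mul_le_of_le_one_right (by positivity) (ind_le_one _ _)

end Pool.Agent.RDX
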