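import Pool.Agent.RDX.Stmts

/-!
# Random digit sets, second part: module OPQ
-/

set_option autoImplicit false

namespace Pool.Agent.RDX

open MeasureTheory Set
open Pool.Agent.RDS

namespace OPQM

theorem core (L X Y x y : ℤ) (hL : 4 ≤ L) (hx : |x| ≤ L - 1) (hy : |y| ≤ L - 1)
    (h0 : Y = 0 → X ≠ 0) (h : |L * Y - y| ≤ 1)
    (o1 : ¬ (L - 1 ≤ |y| ∧ |x| ≤ 5)) (o2 : ¬ (L - 5 ≤ |x| ∧ |y| ≤ 1))
    (o3 : ¬ (L - 5 ≤ |x| ∧ L - 1 ≤ |y|)) : 6 ≤ |L * X - x| := by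
  have hXp : 1 ≤ X → L ≤ L * X := fun h => by nlinarith
  have hXn : X ≤ -1 → L * X ≤ -L := fun h => by nlinarith
  have hX0 : X = 0 → L * X = 0 := fun h => by rw [h, mul_zero]
  have hYp : 2 ≤ Y → 2 * L ≤ L * Y := fun h => by nlinarith
  have hYn : Y ≤ -2 → L * Y ≤ -(2 * L) := fun h => by nlinarith
  have hY1 : Y = 1 → L * Y = L := fun h => by rw [h, mul_one]
  have hYm : Y = -1 → L * Y = -L := fun h => by rw [h]; ring
  have hY0 : Y = 0 → L * Y = 0 := fun h => by rw [h, mul_zero]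
  generalize L * X = A at *
  generalize L * Y = B at *
  rcases abs_cases x with ⟨e1, _⟩ | ⟨e1, _⟩ <;> rcases abs_cases y with ⟨e2, _⟩ | ⟨e2, _⟩ <;>
    rcases abs_cases (A - x) with ⟨e3, _⟩ | ⟨e3, _⟩ <;>
    rcases abs_cases (B - y) with ⟨e4, _⟩ | ⟨e4, _⟩ <;>
    rw [e1] at hx o1 o2 o3 <;> rw [e2] at hy o1 o2 o3 <;> rw [e3] <;> rw [e4] at h <;> omega

theorem abs_dx {L : ℕ} {D : Fin L → ℕ × ℕ} (hD : Ok D) (p : Fin L × Fin L) :
    |dx D p| ≤ (L : ℤ) - 1 := by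
  have h1 := (hD.bx p.1).1
  have h2 := (hD.bx p.2).1
  unfold dx
  rw [abs_le]
  constructor <;> omega

theorem abs_dy {L : ℕ} {D : Fin L → ℕ × ℕ} (hD : Ok D) (p : Fin L × Fin L) :
    |dy D p| ≤ (L : ℤ) - 1 := by
  have h1 := (hD.bx p.1).2
  have h2 := (hD.bx p.2).2
  unfold dy
  rw [abs_le]
  constructor <;> omega

end OPQM

open OPQM in
theorem OPQ_thm : Stmt_OPQ := by
  intro L D hD hinj hopp p p' hp h t ht
  have ho := hopp p'
  push Not at ho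
  obtain ⟨o1, o2, o3⟩ := ho
  have key : 6 ≤ |(L : ℤ) * dx D p - dx D p'| := by
    apply core (L : ℤ) (dx D p) (dy D p) (dx D p') (dy D p') (by exact_mod_cast hD.four)
      (abs_dx hD p') (abs_dy hD p') ?_ h
    · rintro ⟨h1, h2⟩
      exact absurd h2 (not_le.2 (o1 h1))
    · rintro ⟨h1, h2⟩
      exact absurd h2 (not_le.2 (o2 h1))
    · rintro ⟨h1, h2⟩
      exact absurd h2 (not_le.2 (o3 h1))
    · intro h0 h1
      apply hp
      apply hinj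
      unfold dy at h0
      unfold dx at h1
      exact Prod.ext (by omega) (by omega)
  have e : (L : ℝ) * dt D t p - dt D t p' =
      (((L : ℤ) * dx D p - dx D p' : ℤ) : ℝ) + t * (((L : ℤ) * dy D p - dy D p' : ℤ) : ℝ) := by
    unfold dt
    push_cast
    ring
  have k1 : (6 : ℝ) ≤ |(((L : ℤ) * dx D p - dx D p' : ℤ) : ℝ)| := by exact_mod_cast key
  have k2 : |(((L : ℤ) * dy D p - dy D p' : ℤ) : ℝ)| ≤ 1 := by exact_mod_cast h
  have k3 : |t * (((L : ℤ) * dy D p - dy D p' : ℤ) : ℝ)| ≤ 1 := by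
    rw [abs_mul, abs_of_nonneg ht.1]
    calc t * |(((L : ℤ) * dy D p - dy D p' : ℤ) : ℝ)| ≤ 1 * 1 :=
          mul_le_mul ht.2 k2 (abs_nonneg _) zero_le_one
      _ = 1 := one_mul 1
  rw [e]
  have k4 := abs_sub_abs_le_abs_sub (((L : ℤ) * dx D p - dx D p' : ℤ) : ℝ)
    (-(t * (((L : ℤ) * dy D p - dy D p' : ℤ) : ℝ)))
  rw [abs_neg, sub_neg_eq_add] at k4
  linarith

end Pool.Agent.RDX
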