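import Pool.Agent.RDX.Stmts

/-!
# PRX: the pairs of different words by their first different letter
-/

set_option autoImplicit false

namespace Pool.Agent.RDX

open MeasureTheory Set
open Pool.Agent.RDS

namespace PRXM

variable {L : ℕ} {D : Fin L → ℕ × ℕ}

/-- The first letter and the rest. -/
theorem sum_cons {M : Type*} [AddCommMonoid M] (n : ℕ) (g : Wd L (n + 1) → M) :
    ∑ w, g w = ∑ i : Fin L, ∑ u : Wd L n, g (Fin.cons i u) := by
  rw [← (Fin.consEquiv (fun _ : Fin (n + 1) => Fin L)).sum_comp g, Fintype.sum_prod_type]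
  rfl

theorem sum_pair {M : Type*} [AddCommMonoid M] (n : ℕ) (g : Wd L (n + 1) → Wd L (n + 1) → M) :
    ∑ w : Wd L (n + 1) × Wd L (n + 1), g w.1 w.2 =
      ∑ p : Fin L × Fin L, ∑ w : Wd L n × Wd L n, g (Fin.cons p.1 w.1) (Fin.cons p.2 w.2) := by
  rw [Fintype.sum_prod_type, Fintype.sum_prod_type, sum_cons n]
  refine Finset.sum_congr rfl fun i _ => ?_
  have h1 : ∀ u : Wd L n, ∑ v : Wd L (n + 1), g (Fin.cons i u) v =
      ∑ k : Fin L, ∑ v : Wd L n, g (Fin.cons i u) (Fin.cons k v) := fun u => sum_cons n _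
  simp only [h1]
  rw [Finset.sum_comm]
  refine Finset.sum_congr rfl fun k _ => ?_
  rw [Fintype.sum_prod_type]

theorem px_cons {n : ℕ} (i : Fin L) (u : Wd L n) :
    px D (Fin.cons i u : Wd L (n + 1)) = ((D i).1 + px D u) / (L : ℝ) := by
  unfold px
  rw [Fin.sum_univ_succ, add_div, Finset.sum_div]
  simp only [Fin.cons_zero, Fin.cons_succ, Fin.val_zero, Fin.val_succ, zero_add, pow_one]
  congr 1
  refine Finset.sum_congr rfl fun j _ => ?_
  rw [pow_succ _ (j.val + 1), div_div]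

theorem py_cons {n : ℕ} (i : Fin L) (u : Wd L n) :
    py D (Fin.cons i u : Wd L (n + 1)) = ((D i).2 + py D u) / (L : ℝ) := by
  unfold py
  rw [Fin.sum_univ_succ, add_div, Finset.sum_div]
  simp only [Fin.cons_zero, Fin.cons_succ, Fin.val_zero, Fin.val_succ, zero_add, pow_one]
  congr 1
  refine Finset.sum_congr rfl fun j _ => ?_
  rw [pow_succ _ (j.val + 1), div_div]

/-- The difference of the projections of two words. -/
theorem pr_cons (hL : (0 : ℝ) < L) (t : ℝ) {n : ℕ} (p : Fin L × Fin L) (u v : Wd L n) :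
    (L : ℝ) ^ (n + 1) * (pr D t (Fin.cons p.1 u : Wd L (n + 1)) -
      pr D t (Fin.cons p.2 v : Wd L (n + 1))) =
      (L : ℝ) ^ n * dt D t p + (L : ℝ) ^ n * (pr D t u - pr D t v) := by
  unfold pr dt dx dy
  rw [px_cons, px_cons, py_cons, py_cons]
  push_cast
  field_simp
  ring

/-- The iterates of the operator. -/
theorem iter_pair (hL : (0 : ℝ) < L) (t : ℝ) (φ : ℝ → ℝ) (n : ℕ) (x : ℝ) :
    (T D t)^[n] φ x = (∑ w : Wd L n × Wd L n,
      φ ((L : ℝ) ^ n * x + (L : ℝ) ^ n * (pr D t w.1 - pr D t w.2))) / (L : ℝ) ^ n := by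
  have key : (T D t)^[n] φ x = (∑ w : Wd L n × Wd L n,
      φ ((L : ℝ) ^ n * x - (L : ℝ) ^ n * (pr D t w.1 - pr D t w.2))) / (L : ℝ) ^ n := by
    induction n generalizing x with
    | zero =>
      have h0 : ∀ w : Wd L 0 × Wd L 0,
          φ ((L : ℝ) ^ 0 * x - (L : ℝ) ^ 0 * (pr D t w.1 - pr D t w.2)) = φ x := by
        intro w
        have : w.1 = w.2 := Subsingleton.elim _ _
        rw [this]
        congr 1
        ring
      simp only [h0]
      simp
    | succ n ih =>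
      rw [iter_succ']
      unfold T
      have h1 : ∀ p : Fin L × Fin L, (T D t)^[n] φ ((L : ℝ) * x - dt D t p) =
          (∑ w : Wd L n × Wd L n, φ ((L : ℝ) ^ (n + 1) * x - (L : ℝ) ^ (n + 1) *
            (pr D t (Fin.cons p.1 w.1 : Wd L (n + 1)) -
              pr D t (Fin.cons p.2 w.2 : Wd L (n + 1))))) / (L : ℝ) ^ n := by
        intro p
        rw [ih]
        congr 1
        refine Finset.sum_congr rfl fun w _ => ?_
        rw [pr_cons hL]
        congr 1
        ring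
      have h2 := sum_pair (L := L) n fun a b =>
        φ ((L : ℝ) ^ (n + 1) * x - (L : ℝ) ^ (n + 1) * (pr D t a - pr D t b))
      rw [h2]
      have h3 : (∑ p : Fin L × Fin L, (T D t)^[n] φ ((L : ℝ) * x - dt D t p)) =
          (∑ p : Fin L × Fin L, ∑ w : Wd L n × Wd L n, φ ((L : ℝ) ^ (n + 1) * x -
            (L : ℝ) ^ (n + 1) * (pr D t (Fin.cons p.1 w.1 : Wd L (n + 1)) -
              pr D t (Fin.cons p.2 w.2 : Wd L (n + 1))))) / (L : ℝ) ^ n := by
        rw [Finset.sum_div]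
        exact Finset.sum_congr rfl fun p _ => h1 p
      change (∑ p : Fin L × Fin L, (T D t)^[n] φ ((L : ℝ) * x - dt D t p)) / (L : ℝ) = _
      rw [h3, div_div, ← pow_succ]
  rw [key]
  congr 1
  rw [← (Equiv.prodComm (Wd L n) (Wd L n)).sum_comp]
  refine Finset.sum_congr rfl fun w _ => ?_
  congr 1
  simp only [Equiv.prodComm_apply, Prod.fst_swap, Prod.snd_swap]
  ring

/-- The pairs of different words, weighted. -/
noncomputable def W (D : Fin L → ℕ × ℕ) (t : ℝ) (φ : ℝ → ℝ) (n : ℕ) : ℝ :=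
  ∑ w : Wd L n × Wd L n, if w.1 = w.2 then 0 else φ ((L : ℝ) ^ n * (pr D t w.1 - pr D t w.2))

theorem W_succ (hL : (0 : ℝ) < L) (t : ℝ) (φ : ℝ → ℝ) (n : ℕ) :
    W D t φ (n + 1) / (L : ℝ) ^ (n + 1) = W D t φ n / (L : ℝ) ^ n +
      (∑ p : Fin L × Fin L, if p.1 = p.2 then 0 else (T D t)^[n] φ (dt D t p)) / L := by
  have h2 := sum_pair (L := L) n fun a b =>
    if a = b then (0 : ℝ) else φ ((L : ℝ) ^ (n + 1) * (pr D t a - pr D t b))
  unfold W
  rw [h2]
  have h3 : ∀ p : Fin L × Fin L, (∑ w : Wd L n × Wd L n,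
      if (Fin.cons p.1 w.1 : Wd L (n + 1)) = Fin.cons p.2 w.2 then (0 : ℝ) else
        φ ((L : ℝ) ^ (n + 1) * (pr D t (Fin.cons p.1 w.1 : Wd L (n + 1)) -
          pr D t (Fin.cons p.2 w.2 : Wd L (n + 1))))) =
      (if p.1 = p.2 then (∑ w : Wd L n × Wd L n,
        if w.1 = w.2 then 0 else φ ((L : ℝ) ^ n * (pr D t w.1 - pr D t w.2))) else 0) +
      (L : ℝ) ^ n * (if p.1 = p.2 then 0 else (T D t)^[n] φ (dt D t p)) := by
    intro p
    by_cases hp : p.1 = p.2
    · rw [if_pos hp, if_pos hp, mul_zero, add_zero]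
      refine Finset.sum_congr rfl fun w _ => ?_
      have e1 : ((Fin.cons p.1 w.1 : Wd L (n + 1)) = Fin.cons p.2 w.2) ↔ w.1 = w.2 := by
        rw [Fin.cons_inj]
        exact ⟨fun h => h.2, fun h => ⟨hp, h⟩⟩
      have e2 : dt D t p = 0 := by
        unfold dt dx dy
        rw [hp]
        simp
      rw [pr_cons hL, e2, mul_zero, zero_add]
      by_cases hw : w.1 = w.2
      · rw [if_pos hw, if_pos (e1.2 hw)]
      · rw [if_neg hw, if_neg fun h => hw (e1.1 h)]
    · rw [if_neg hp, if_neg hp, zero_add, iter_pair hL, mul_div_cancel₀ _ (pow_ne_zero n hL.ne')]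
      refine Finset.sum_congr rfl fun w _ => ?_
      rw [if_neg fun h => hp (Fin.cons_inj.1 h).1, pr_cons hL]
  have h4 : (∑ p : Fin L × Fin L, ∑ w : Wd L n × Wd L n,
      if (Fin.cons p.1 w.1 : Wd L (n + 1)) = Fin.cons p.2 w.2 then (0 : ℝ) else
        φ ((L : ℝ) ^ (n + 1) * (pr D t (Fin.cons p.1 w.1 : Wd L (n + 1)) -
          pr D t (Fin.cons p.2 w.2 : Wd L (n + 1))))) =
      (L : ℝ) * (∑ w : Wd L n × Wd L n,
        if w.1 = w.2 then 0 else φ ((L : ℝ) ^ n * (pr D t w.1 - pr D t w.2))) +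
      (L : ℝ) ^ n * ∑ p : Fin L × Fin L, if p.1 = p.2 then 0 else (T D t)^[n] φ (dt D t p) := by
    rw [Finset.sum_congr rfl fun p _ => h3 p, Finset.sum_add_distrib, ← Finset.mul_sum]
    congr 1
    rw [Fintype.sum_prod_type]
    simp
  rw [h4]
  field_simp
  ring

end PRXM

/-- The pairs of different words by their first different letter. -/
theorem PRX_thm : Stmt_PRX := by
  intro L D hD t φ n
  have hL : (0 : ℝ) < L := hD.pos
  have key : PRXM.W D t φ n / (L : ℝ) ^ n =
      ∑ j ∈ Finset.range n, (∑ p : Fin L × Fin L,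
        if p.1 = p.2 then 0 else (T D t)^[j] φ (dt D t p)) / L := by
    induction n with
    | zero =>
      have h0 : PRXM.W D t φ 0 = 0 := by
        unfold PRXM.W
        refine Finset.sum_eq_zero fun w _ => ?_
        rw [if_pos (Subsingleton.elim _ _)]
      rw [h0, Finset.sum_range_zero, zero_div]
    | succ n ih => rw [PRXM.W_succ hL, ih, Finset.sum_range_succ]
  unfold PRXM.W at key
  convert key using 2

end Pool.Agent.RDX
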