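import Pool.Agent.RDX.Stmts

/-!
# Random digit sets, second part: module PSX
-/

set_option autoImplicit false

namespace Pool.Agent.RDX

open MeasureTheory Set Filter Topology
open Pool.Agent.RDS

namespace PSXM

theorem hasDerivAt_Psi (y : ℝ) : HasDerivAt Psi (deriv Psi y) y :=
  ((contDiff_Psi 1).differentiable (by norm_num) y).hasDerivAt

theorem continuous_deriv_Psi : Continuous (deriv Psi) :=
  (contDiff_Psi 1).continuous_deriv (by norm_num)

theorem deriv_Psi_eq_zero {y : ℝ} (hy : 4 < |y|) : deriv Psi y = 0 := by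
  have h : Psi =ᶠ[𝓝 y] fun _ => (0 : ℝ) := by
    have h1 : ∀ᶠ z in 𝓝 y, 4 < |z| := continuous_abs.continuousAt.eventually_const_lt hy
    filter_upwards [h1] with z hz
    exact Psi_eq_zero (by linarith)
  rw [h.deriv_eq, deriv_const]

theorem far {L : ℕ} {D : Fin L → ℕ × ℕ} (hD : Ok D) {t : ℝ} (ht : t ∈ Icc (-1 : ℝ) 2) {y : ℝ}
    (hy : 4 < |y|) (p : Fin L × Fin L) : 4 < |(L : ℝ) * y - dt D t p| := by
  have h1 := hD.abs_dt t p
  have h2 := hD.ge
  have h3 : |(L : ℝ) * y| = L * |y| := by rw [abs_mul, abs_of_pos hD.pos]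
  have h4 := abs_sub_abs_le_abs_sub ((L : ℝ) * y) (dt D t p)
  have h0 : |t| ≤ 2 := abs_le.2 ⟨by linarith [ht.1], ht.2⟩
  have h5 : ((L : ℝ) - 1) * (1 + |t|) ≤ (L - 1) * 3 :=
    mul_le_mul_of_nonneg_left (by linarith) (by linarith)
  have h6 : (L : ℝ) * 4 < L * |y| := mul_lt_mul_of_pos_left hy hD.pos
  linarith

end PSXM

theorem PSX_thm : Stmt_PSX := by
  intro L D hD
  have hL := hD.pos
  refine ⟨?_, ?_, ?_, ?_, ?_, ?_⟩
  · intro t y
    unfold p0 T p1
    have h1 : HasDerivAt (fun z : ℝ => ∑ p : Fin L × Fin L, Psi ((L : ℝ) * z - dt D t p))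
        (∑ p : Fin L × Fin L, deriv Psi ((L : ℝ) * y - dt D t p) * L) y := by
      refine HasDerivAt.fun_sum fun p _ => ?_
      have h2 : HasDerivAt (fun z : ℝ => (L : ℝ) * z - dt D t p) (L : ℝ) y := by
        simpa using ((hasDerivAt_id y).const_mul (L : ℝ)).sub_const (dt D t p)
      exact (PSXM.hasDerivAt_Psi _).comp y h2
    have h3 := (h1.div_const (L : ℝ)).sub (PSXM.hasDerivAt_Psi y)
    refine h3.congr_deriv ?_
    rw [← Finset.sum_mul, mul_div_assoc, div_self hL.ne', mul_one]
  · intro t y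
    unfold p0 T p2
    have h1 : HasDerivAt (fun τ : ℝ => ∑ p : Fin L × Fin L, Psi ((L : ℝ) * y - dt D τ p))
        (∑ p : Fin L × Fin L, deriv Psi ((L : ℝ) * y - dt D t p) * -(dy D p : ℝ)) t := by
      refine HasDerivAt.fun_sum fun p _ => ?_
      have h2 : HasDerivAt (fun τ : ℝ => (L : ℝ) * y - dt D τ p) (-(dy D p : ℝ)) t := by
        have h3 := (((hasDerivAt_id t).mul_const (dy D p : ℝ)).const_add (dx D p : ℝ)).const_sub
          ((L : ℝ) * y)
        simpa [dt] using h3
      exact (PSXM.hasDerivAt_Psi _).comp t h2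
    have h3 := (h1.div_const (L : ℝ)).sub_const (Psi y)
    refine h3.congr_deriv ?_
    congr 1
    exact Finset.sum_congr rfl fun p _ => mul_comm _ _
  · unfold p0 T
    refine Continuous.sub ?_ (continuous_Psi.comp continuous_snd)
    refine Continuous.div_const ?_ _
    refine continuous_finsetSum _ fun p _ => ?_
    exact continuous_Psi.comp (by unfold dt; fun_prop)
  · unfold p1
    refine Continuous.sub ?_ (PSXM.continuous_deriv_Psi.comp continuous_snd)
    refine continuous_finsetSum _ fun p _ => ?_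
    exact PSXM.continuous_deriv_Psi.comp (by unfold dt; fun_prop)
  · unfold p2
    refine Continuous.div_const ?_ _
    refine continuous_finsetSum _ fun p _ => ?_
    exact continuous_const.mul (PSXM.continuous_deriv_Psi.comp (by unfold dt; fun_prop))
  · intro t ht y hy
    have h1 := fun p => PSXM.far hD ht hy p
    refine ⟨?_, ?_, ?_⟩
    · show (∑ p : Fin L × Fin L, Psi ((L : ℝ) * y - dt D t p)) / (L : ℝ) - Psi y = 0
      rw [Finset.sum_eq_zero fun p _ => Psi_eq_zero (by linarith [h1 p]), zero_div,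
        Psi_eq_zero (by linarith), sub_zero]
    · unfold p1
      rw [Finset.sum_eq_zero fun p _ => PSXM.deriv_Psi_eq_zero (h1 p),
        PSXM.deriv_Psi_eq_zero hy, sub_zero]
    · unfold p2
      rw [Finset.sum_eq_zero fun p _ => by rw [PSXM.deriv_Psi_eq_zero (h1 p), mul_zero], zero_div]

end Pool.Agent.RDX
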