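import Pool.Agent.RDX.Stmts
import Pool.Agent.RDS.RND

/-!
# RN2: almost all choices satisfy the stronger criterion (MP_98e313_an)
-/

set_option autoImplicit false

namespace Pool.Agent.RDX

open Pool.Agent.RDS

open Pool.Agent.RDS.RNDM in
theorem RN2_thm : Stmt_RN2 := by
  intro hRC hRG hRU hRS hRH hRD hRE hRL hAS hROP q hq
  obtain ⟨M, s, s1, K, δ, hδ, L0, hL0, h⟩ := hAS q hq
  have hlim : Filter.Tendsto (fun L : ℕ => δ L + 200 / (L : ℝ)) Filter.atTop (nhds 0) := by
    have h1 := hδ.add (tendsto_const_div_atTop_nhds_zero_nat (200 : ℝ))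
    rwa [add_zero] at h1
  refine tendsto_of_tendsto_of_tendsto_of_le_of_le' tendsto_const_nhds hlim ?_ ?_
  · exact Filter.Eventually.of_forall fun L => div_nonneg (nb_nonneg _) (by positivity)
  · filter_upwards [Filter.eventually_ge_atTop L0] with L hL
    obtain ⟨⟨h1, h2, h3, h4, h5, h6, h7, h8⟩, h9⟩ := h L hL
    have hL200 : 200 ≤ L := hL0.trans hL
    have hLp : (0 : ℝ) < L := by
      have : 0 < L := by omega
      exact_mod_cast this
    have hP : (0 : ℝ) < (L : ℝ) ^ (2 * L) := by positivity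
    have e1 := hRD hRC L (M L) (by omega) h2
    have e2 := markov hRE L (by omega) (K L) h6
    have e3 := hRL hRC hRG hRU hRS hRH L (M L) (s L) (s1 L) hL200 h1 h3 h4 h5
    have e0 := hROP L (by omega)
    have e4 : nb L (fun ω => ¬ PX q (dg ω)) ≤
        nb L (fun ω => ¬ Opp (dg ω) ∨ (¬ Deg (dg ω) (M L) ∨
          ¬ (eng (dg ω) : ℝ) ≤ K L * (L : ℝ) ^ 2 ∨
          (Deg (dg ω) (M L) ∧ ¬ Low (dg ω) ((s L : ℝ) / L)))) := by
      apply nb_mono
      intro ω hω
      by_contra hcon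
      apply hω
      rw [not_or, not_or, not_or, not_not, not_not, not_not] at hcon
      obtain ⟨c0, c1, c2, c3⟩ := hcon
      have c4 : Low (dg ω) ((s L : ℝ) / L) := by
        by_contra hl
        exact c3 ⟨c1, hl⟩
      have hs1 : (1 : ℝ) ≤ s L := by exact_mod_cast h3
      have hs4 : 4 * (s L : ℝ) ≤ L := by exact_mod_cast h4
      refine ⟨M L, K L, (s L : ℝ) / L, ?_, c0⟩
      exact
        { four := by omega
          bx := fun i => ⟨(ω i).1.2, (ω i).2.2⟩
          deg := c1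
          low := c4
          enr := c2
          hM := h1
          hK := h6
          hc := div_pos (by linarith) hLp
          hc' := by
            rw [div_le_iff₀ hLp]
            linarith
          key := h7
          hq := hq
          key2 := h9 }
    have e45 := nb_or (L := L) _ (fun ω => ¬ Opp (dg ω))
      (fun ω => ¬ Deg (dg ω) (M L) ∨ ¬ (eng (dg ω) : ℝ) ≤ K L * (L : ℝ) ^ 2 ∨
          (Deg (dg ω) (M L) ∧ ¬ Low (dg ω) ((s L : ℝ) / L))) (fun ω hω => hω)
    have e5 := nb_or (L := L) _ (fun ω => ¬ Deg (dg ω) (M L))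
      (fun ω => ¬ (eng (dg ω) : ℝ) ≤ K L * (L : ℝ) ^ 2 ∨
          (Deg (dg ω) (M L) ∧ ¬ Low (dg ω) ((s L : ℝ) / L))) (fun ω hω => hω)
    have e6 := nb_or (L := L) _ (fun ω => ¬ (eng (dg ω) : ℝ) ≤ K L * (L : ℝ) ^ 2)
      (fun ω => Deg (dg ω) (M L) ∧ ¬ Low (dg ω) ((s L : ℝ) / L)) (fun ω hω => hω)
    rw [div_le_iff₀ hP]
    refine le_trans ?_ (mul_le_mul_of_nonneg_right (add_le_add_left h8 (200 / (L : ℝ))) hP.le)
    have e7 : nb L (fun ω => ¬ PX q (dg ω)) ≤
        200 / (L : ℝ) * (L : ℝ) ^ (2 * L) +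
        (20 * (L : ℝ) ^ 2 * (11 ^ (M L + 1) / (Nat.factorial (M L + 1) : ℝ)) * (L : ℝ) ^ (2 * L) +
        (3 / K L * (L : ℝ) ^ (2 * L) +
        (4 * (L : ℝ) ^ s1 L * Real.exp (-((L : ℝ) / 96)) +
      400 * (L : ℝ) ^ 2 * (L : ℝ) ^ s L * Real.exp (-((s1 L : ℝ) / (96 * M L)))) *
        (L : ℝ) ^ (2 * L))) := by
      linarith
    refine e7.trans (le_of_eq ?_)
    ring

end Pool.Agent.RDX
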