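import Pool.Agent.RDX.Stmts

/-!
# ROP: random digits avoid nearly facing opposite sides
-/

set_option autoImplicit false

namespace Pool.Agent.RDX

open Pool.Agent.RDS

namespace ROPM

open Finset

variable {L : ℕ}

/-- The difference of two numbers below `L`. -/
def df (a : Fin L × Fin L) : ℤ := (a.1.val : ℤ) - (a.2.val : ℤ)

open Classical in
theorem card_near (c : ℕ) :
    (univ.filter fun a : Fin L × Fin L => |df a| ≤ (c : ℤ)).card ≤ L * (2 * c + 1) := by
  have h0 : L * (2 * c + 1) = (range L ×ˢ range (2 * c + 1)).card := by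
    rw [card_product, card_range, card_range]
  rw [h0]
  refine card_le_card_of_injOn
    (fun a => (a.1.val, a.2.val + c - a.1.val)) ?_ ?_
  · intro a ha
    have h := (mem_filter.1 (mem_coe.1 ha)).2
    unfold df at h
    rw [abs_le] at h
    have h1 := a.1.isLt
    have h2 := a.2.isLt
    rw [mem_coe, mem_product, mem_range, mem_range]
    simp only
    constructor <;> omega
  · intro a ha b hb hab
    have h := (mem_filter.1 (mem_coe.1 ha)).2
    have h' := (mem_filter.1 (mem_coe.1 hb)).2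
    unfold df at h h'
    rw [abs_le] at h h'
    simp only [Prod.mk.injEq] at hab
    apply Prod.ext <;> apply Fin.ext <;> omega

open Classical in
theorem card_far1 (hL : 1 ≤ L) :
    (univ.filter fun a : Fin L × Fin L => (L : ℤ) - 1 ≤ |df a|).card ≤ 2 := by
  refine le_trans ?_ (card_le_two (a := 0) (b := L - 1))
  refine card_le_card_of_injOn (fun a => a.1.val) ?_ ?_
  · intro a ha
    have h := (mem_filter.1 (mem_coe.1 ha)).2
    unfold df at h
    have h1 := a.1.isLt
    have h2 := a.2.isLt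
    rw [le_abs] at h
    rw [mem_coe, mem_insert, mem_singleton]
    simp only
    omega
  · intro a ha b hb hab
    have h := (mem_filter.1 (mem_coe.1 ha)).2
    have h' := (mem_filter.1 (mem_coe.1 hb)).2
    unfold df at h h'
    rw [le_abs] at h h'
    simp only at hab
    have h1 := a.1.isLt
    have h2 := a.2.isLt
    have h3 := b.1.isLt
    have h4 := b.2.isLt
    apply Prod.ext <;> apply Fin.ext
    · exact hab
    · by_cases hL1 : L = 1
      · omega
      · omega

open Classical in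
theorem card_far5 (hL : 16 ≤ L) :
    (univ.filter fun a : Fin L × Fin L => (L : ℤ) - 5 ≤ |df a|).card ≤ 50 := by
  have h0 : 50 = (range 2 ×ˢ (range 5 ×ˢ range 5)).card := by
    simp
  rw [h0]
  refine card_le_card_of_injOn
    (fun a => if a.1.val < a.2.val then (0, (a.1.val, a.2.val - (L - 5)))
      else (1, (a.2.val, a.1.val - (L - 5)))) ?_ ?_
  · intro a ha
    have h := (mem_filter.1 (mem_coe.1 ha)).2
    unfold df at h
    have h1 := a.1.isLt
    have h2 := a.2.isLt
    rw [le_abs] at h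
    rw [mem_coe]
    simp only
    split_ifs with hlt
    · simp only [mem_product, mem_range]
      refine ⟨?_, ?_, ?_⟩ <;> omega
    · simp only [mem_product, mem_range]
      refine ⟨?_, ?_, ?_⟩ <;> omega
  · intro a ha b hb hab
    have h := (mem_filter.1 (mem_coe.1 ha)).2
    have h' := (mem_filter.1 (mem_coe.1 hb)).2
    unfold df at h h'
    rw [le_abs] at h h'
    have h1 := a.1.isLt
    have h2 := a.2.isLt
    have h3 := b.1.isLt
    have h4 := b.2.isLt
    simp only at hab
    split_ifs at hab with hc1 hc2 hc2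
    · simp only [Prod.mk.injEq, true_and] at hab
      apply Prod.ext <;> apply Fin.ext <;> omega
    · simp only [Prod.mk.injEq] at hab
      omega
    · simp only [Prod.mk.injEq] at hab
      omega
    · simp only [Prod.mk.injEq, true_and] at hab
      apply Prod.ext <;> apply Fin.ext <;> omega

open Classical in
/-- The forbidden pairs of digits. -/
noncomputable def Bad (L : ℕ) : Finset ((Fin L × Fin L) × (Fin L × Fin L)) :=
  univ.filter fun r =>
    ((L : ℤ) - 1 ≤ |df (r.1.2, r.2.2)| ∧ |df (r.1.1, r.2.1)| ≤ ((5 : ℕ) : ℤ)) ∨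
    ((L : ℤ) - 5 ≤ |df (r.1.1, r.2.1)| ∧ |df (r.1.2, r.2.2)| ≤ ((1 : ℕ) : ℤ)) ∨
    ((L : ℤ) - 5 ≤ |df (r.1.1, r.2.1)| ∧ (L : ℤ) - 1 ≤ |df (r.1.2, r.2.2)|)

open Classical in
theorem card_bad (hL : 16 ≤ L) : (Bad L).card ≤ 179 * L := by
  set N5 := univ.filter fun a : Fin L × Fin L => |df a| ≤ ((5 : ℕ) : ℤ) with hN5
  set N1 := univ.filter fun a : Fin L × Fin L => |df a| ≤ ((1 : ℕ) : ℤ) with hN1
  set F1 := univ.filter fun a : Fin L × Fin L => (L : ℤ) - 1 ≤ |df a| with hF1
  set F5 := univ.filter fun a : Fin L × Fin L => (L : ℤ) - 5 ≤ |df a| with hF5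
  have h1 : (Bad L).card ≤ ((N5 ×ˢ F1) ∪ ((F5 ×ˢ N1) ∪ (F5 ×ˢ F1))).card := by
    refine card_le_card_of_injOn (fun r => ((r.1.1, r.2.1), (r.1.2, r.2.2))) ?_ ?_
    · intro r hr
      have h := (mem_filter.1 (mem_coe.1 hr)).2
      rw [mem_coe]
      simp only [mem_union, mem_product, hN5, hN1, hF1, hF5, mem_filter, mem_univ, true_and]
      tauto
    · intro r _ r' _ h
      simp only [Prod.mk.injEq] at h
      obtain ⟨⟨h1, h2⟩, h3, h4⟩ := h
      exact Prod.ext (Prod.ext h1 h3) (Prod.ext h2 h4)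
  have a5 : N5.card ≤ L * (2 * 5 + 1) := card_near 5
  have a1 : N1.card ≤ L * (2 * 1 + 1) := card_near 1
  have b1 : F1.card ≤ 2 := card_far1 (by omega)
  have b5 : F5.card ≤ 50 := card_far5 hL
  have h2 : ((N5 ×ˢ F1) ∪ ((F5 ×ˢ N1) ∪ (F5 ×ˢ F1))).card ≤
      N5.card * F1.card + (F5.card * N1.card + F5.card * F1.card) := by
    refine (card_union_le _ _).trans ?_
    refine Nat.add_le_add (card_product _ _).le ?_
    refine (card_union_le _ _).trans ?_
    exact Nat.add_le_add (card_product _ _).le (card_product _ _).le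
  have c1 : N5.card * F1.card ≤ L * (2 * 5 + 1) * 2 := Nat.mul_le_mul a5 b1
  have c2 : F5.card * N1.card ≤ 50 * (L * (2 * 1 + 1)) := Nat.mul_le_mul b5 a1
  have c3 : F5.card * F1.card ≤ 50 * 2 := Nat.mul_le_mul b5 b1
  omega

open Classical in
/-- The choices with a prescribed pair of values. -/
theorem card_pair (B : Finset ((Fin L × Fin L) × (Fin L × Fin L))) {i k : Fin L} (hik : i ≠ k) :
    (univ.filter fun ω : Fin L → Fin L × Fin L => (ω i, ω k) ∈ B).card ≤
      B.card * (L * L) ^ (L - 2) := by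
  have hs : Fintype.card {j : Fin L // j ∉ ({i, k} : Finset (Fin L))} = L - 2 := by
    have h := Fintype.card_coe (({i, k} : Finset (Fin L))ᶜ)
    rw [card_compl, Finset.card_pair hik, Fintype.card_fin] at h
    rw [← h]
    exact Fintype.card_congr (Equiv.subtypeEquivRight fun j => by simp)
  have hcard : B.card * (L * L) ^ (L - 2) =
      (B ×ˢ (univ : Finset ({j : Fin L // j ∉ ({i, k} : Finset (Fin L))} → Fin L × Fin L))).card := by
    rw [card_product, card_univ, Fintype.card_fun, Fintype.card_prod, Fintype.card_fin, hs]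
  rw [hcard]
  refine card_le_card_of_injOn (fun ω => ((ω i, ω k), fun j => ω j)) ?_ ?_
  · intro ω hω
    have h := (mem_filter.1 (mem_coe.1 hω)).2
    rw [mem_coe, mem_product]
    exact ⟨h, mem_univ _⟩
  · intro ω _ ω' _ h
    simp only [Prod.mk.injEq] at h
    obtain ⟨⟨h1, h2⟩, h3⟩ := h
    funext j
    by_cases hj : j ∈ ({i, k} : Finset (Fin L))
    · rw [mem_insert, mem_singleton] at hj
      rcases hj with rfl | rfl
      · exact h1
      · exact h2
    · exact congrFun h3 ⟨j, hj⟩

open Classical in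
theorem card_not_opp (hL : 16 ≤ L) (P : (Fin L → Fin L × Fin L) → Prop)
    (hP : ∀ ω, P ω → ¬ Opp (dg ω)) :
    (univ.filter P).card ≤ (L * L) * (179 * L * (L * L) ^ (L - 2)) := by
  have h1 : univ.filter P ⊆
      (univ : Finset (Fin L × Fin L)).biUnion fun p =>
        univ.filter fun ω : Fin L → Fin L × Fin L => p.1 ≠ p.2 ∧ (ω p.1, ω p.2) ∈ Bad L := by
    intro ω hω
    have h := hP ω (mem_filter.1 hω).2
    unfold Opp at h
    push Not at h
    obtain ⟨p, hp⟩ := h
    rw [mem_biUnion]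
    refine ⟨p, mem_univ _, ?_⟩
    rw [mem_filter]
    refine ⟨mem_univ _, ?_, ?_⟩
    · intro hpp
      have e1 : dx (dg ω) p = 0 := by unfold dx; rw [hpp]; ring
      have e2 : dy (dg ω) p = 0 := by unfold dy; rw [hpp]; ring
      rw [e1, e2] at hp
      simp only [abs_zero] at hp
      omega
    · unfold Bad
      rw [mem_filter]
      refine ⟨mem_univ _, ?_⟩
      exact hp
  refine (card_le_card h1).trans ?_
  refine (card_biUnion_le_card_mul _ _ (179 * L * (L * L) ^ (L - 2)) ?_).trans ?_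
  · intro p _
    by_cases hp : p.1 = p.2
    · rw [filter_false_of_mem (by
        intro ω _ h
        exact h.1 hp)]
      simp
    · refine (card_le_card (t := univ.filter fun ω : Fin L → Fin L × Fin L =>
        (ω p.1, ω p.2) ∈ Bad L) ?_).trans ((card_pair (Bad L) hp).trans ?_)
      · intro ω hω
        rw [mem_filter] at hω ⊢
        exact ⟨hω.1, hω.2.2⟩
      · exact Nat.mul_le_mul_right _ (card_bad hL)
  · rw [card_univ, Fintype.card_prod, Fintype.card_fin]

end ROPM

theorem ROP_thm : Stmt_ROP := by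
  intro L hL
  have h := ROPM.card_not_opp (L := L) hL (fun ω => ¬ Opp (dg ω)) (fun _ hω => hω)
  have h2 : nb L (fun ω => ¬ Opp (dg ω)) ≤
      (((L * L) * (179 * L * (L * L) ^ (L - 2)) : ℕ) : ℝ) := by
    unfold nb
    exact_mod_cast h
  refine h2.trans ?_
  obtain ⟨n, rfl⟩ : ∃ n, L = n + 2 := ⟨L - 2, by omega⟩
  rw [Nat.add_sub_cancel]
  push_cast
  have hpos : (0 : ℝ) < (n : ℝ) + 2 := by positivity
  have e1 : 200 / ((n : ℝ) + 2) * ((n : ℝ) + 2) ^ (2 * (n + 2)) =
      200 * ((n : ℝ) + 2) ^ (2 * n + 3) := by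
    have : ((n : ℝ) + 2) ^ (2 * (n + 2)) = ((n : ℝ) + 2) ^ (2 * n + 3) * ((n : ℝ) + 2) := by
      rw [← pow_succ]
      congr 1
    rw [this]
    field_simp
  have e2 : (((n : ℝ) + 2) * ((n : ℝ) + 2)) * (179 * ((n : ℝ) + 2) * ((((n : ℝ) + 2) *
      ((n : ℝ) + 2)) ^ n)) = 179 * ((n : ℝ) + 2) ^ (2 * n + 3) := by
    rw [← sq, ← pow_mul]
    ring
  rw [e1, e2]
  have : (0 : ℝ) ≤ ((n : ℝ) + 2) ^ (2 * n + 3) := by positivity
  linarith

end Pool.Agent.RDX
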