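import Pool.Agent.RDX.Stmts
import Pool.Agent.RDS.RATE

/-!
# Random digit sets, second part: the mean square of the increments
-/

set_option autoImplicit false

namespace Pool.Agent.RDX

open MeasureTheory Set
open Pool.Agent.RDS

open Pool.Agent.RDS.RATEM in
/-- The mean square of the increments, with `Psi` in place of `Phi`. -/
theorem RTX_thm : Stmt_RTX := by
  intro hCSH hEXP hPSI hDER hPAR hLEMF hLEMG hPSB L D M K c hcr
  have hD : Ok D := hcr.toOk
  obtain ⟨C, hC, hL⟩ := hLEMF hPAR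
  obtain ⟨B, hB, hBt⟩ := hPSB hLEMG hPSI D hD
  obtain ⟨-, -, hc0, hc1, hc2, hz⟩ := hPSI D hD
  have hLp := hD.pos
  have hK := hcr.hK
  refine ⟨5 * C * B ^ 2 + 1, by positivity, fun r => ?_⟩
  obtain ⟨ι, hι, u, v, hu, hv, -, hT, hq⟩ := hEXP hCSH D hD r
  obtain ⟨-, hg, hdg, -, -, -⟩ := hDER hPSI D hD r ι u v hT
  set A : ℝ := (L : ℝ) ^ r with hAdef
  have hA : 0 < A := hD.pw r
  have hA1 : 1 ≤ A := hD.pw1 r
  have hA2 : (L : ℝ) ^ (2 * r) = A ^ 2 := by rw [hAdef, ← pow_mul, mul_comm]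
  -- the three mean squares
  set X : ENNReal := ENNReal.ofReal (C * B ^ 2 * (1 / A) ^ 2 * eqp u v) with hX
  have hm0 : ∫⁻ t in Icc (-1 : ℝ) 2, Gs u v (fun _ => 1 / A) (p0 D) t ≤ X :=
    hL ι u v (fun _ => 1 / A) (1 / A) B 4 (p0 D)
      (fun q => by rw [abs_of_pos (by positivity)]) hB hc0
      (fun t ht y hy => (hz t ht y hy).1) (fun t ht ω => (hBt t ht ω).1)
  have hm2 : ∫⁻ t in Icc (-1 : ℝ) 2, Gs u v (fun _ => 1 / A ^ 2) (p2 D) t ≤ X := by
    refine hL ι u v (fun _ => 1 / A ^ 2) (1 / A) B 4 (p2 D)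
      (fun q => ?_) hB hc2
      (fun t ht y hy => (hz t ht y hy).2.2) (fun t ht ω => (hBt t ht ω).2.2)
    rw [abs_of_pos (by positivity)]
    refine one_div_le_one_div_of_le hA ?_
    nlinarith
  have hm1 : ∫⁻ t in Icc (-1 : ℝ) 2, Gs u v (fun q => (v q : ℝ) / A ^ 2) (p1 D) t ≤ X := by
    refine hL ι u v (fun q => (v q : ℝ) / A ^ 2) (1 / A) B 4 (p1 D)
      (fun q => ?_) hB hc1
      (fun t ht y hy => (hz t ht y hy).2.1) (fun t ht ω => (hBt t ht ω).2.1)
    rw [abs_div, abs_of_pos (by positivity : (0 : ℝ) < A ^ 2), div_le_div_iff₀ (by positivity) hA]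
    have := hv q
    nlinarith
  have hN : ∀ t : ℝ, Nr D r t ≤ ENNReal.ofReal (1 / A) * (Gs u v (fun _ => 1 / A) (p0 D) t +
      (2 * Gs u v (fun _ => 1 / A ^ 2) (p2 D) t +
        2 * Gs u v (fun q => (v q : ℝ) / A ^ 2) (p1 D) t)) := by
    intro t
    have mm : ∀ (b : ι → ℝ) (g : ℝ → ℝ → ℝ), Continuous (fun q : ℝ × ℝ => g q.1 q.2) →
        Measurable fun x : ℝ => ENNReal.ofReal (Fs u v b g t (A * x)) := fun b g hg' =>
      ((continuous_Fs u v b hg').comp (f := fun y : ℝ => (t, A * y))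
        (by fun_prop)).measurable.ennreal_ofReal
    unfold Nr
    calc ∫⁻ x, ENNReal.ofReal (gr D r x t ^ 2 + dgr D r x t ^ 2 / (L : ℝ) ^ (2 * r))
        ≤ ∫⁻ x, (ENNReal.ofReal (Fs u v (fun _ => 1 / A) (p0 D) t (A * x)) +
          (2 * ENNReal.ofReal (Fs u v (fun _ => 1 / A ^ 2) (p2 D) t (A * x)) +
          2 * ENNReal.ofReal (Fs u v (fun q => (v q : ℝ) / A ^ 2) (p1 D) t (A * x)))) := by
          refine lintegral_mono fun x => ?_
          have h := pw u v (A := A) (t := t) (Y := A * x) hA (p0 D) (p1 D) (p2 D)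
            (hg x t) (hdg x t)
          rw [hA2]
          refine (ENNReal.ofReal_le_ofReal h).trans (le_of_eq ?_)
          have n0 := Fs_nonneg u v (fun _ => 1 / A) (p0 D) t (A * x)
          have n1 := Fs_nonneg u v (fun q => (v q : ℝ) / A ^ 2) (p1 D) t (A * x)
          have n2 := Fs_nonneg u v (fun _ => 1 / A ^ 2) (p2 D) t (A * x)
          rw [ENNReal.ofReal_add n0 (by positivity), ENNReal.ofReal_add (by positivity)
            (by positivity), ENNReal.ofReal_mul (by norm_num), ENNReal.ofReal_mul (by norm_num)]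
          norm_num
      _ = _ := by
          rw [lintegral_add_left (mm _ _ hc0), lintegral_add_left ((mm _ _ hc2).const_mul 2),
            lintegral_const_mul _ (mm _ _ hc2), lintegral_const_mul _ (mm _ _ hc1),
            lint_Fs u v _ hc0 t hA, lint_Fs u v _ hc1 t hA, lint_Fs u v _ hc2 t hA]
          ring
  have hm := measurable_Gs u v (fun _ => 1 / A) hc0
  have hm' := measurable_Gs u v (fun _ => 1 / A ^ 2) hc2
  have hm'' := measurable_Gs u v (fun q => (v q : ℝ) / A ^ 2) hc1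
  have hfin : 5 * (C * B ^ 2 * (1 / A) ^ 2 * eqp u v) * (1 / A) ≤
      (5 * C * B ^ 2 + 1) * (9 * K / L) ^ r := by
    have he : (eng D : ℝ) ≤ K * (L : ℝ) ^ 2 := hcr.enr
    have h1 : (eqp u v : ℝ) ≤ (9 * K) ^ r * A ^ 2 := by
      refine hq.trans ?_
      calc (9 * (eng D : ℝ)) ^ r ≤ (9 * (K * (L : ℝ) ^ 2)) ^ r :=
            pow_le_pow_left₀ (by positivity) (by linarith) r
        _ = (9 * K) ^ r * A ^ 2 := by
            rw [← mul_assoc, mul_pow, hAdef, ← pow_mul, ← pow_mul, mul_comm r 2]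
    have h2 : (9 * K / L) ^ r = (9 * K) ^ r / A := by rw [div_pow]
    have h3 : 5 * (C * B ^ 2 * (1 / A) ^ 2 * eqp u v) * (1 / A) ≤
        5 * (C * B ^ 2 * (1 / A) ^ 2 * ((9 * K) ^ r * A ^ 2)) * (1 / A) := by
      gcongr
    have h4 : 5 * (C * B ^ 2 * (1 / A) ^ 2 * ((9 * K) ^ r * A ^ 2)) * (1 / A) =
        5 * C * B ^ 2 * ((9 * K) ^ r / A) := by
      field_simp
    have h5 : 0 ≤ (9 * K) ^ r / A := by positivity
    rw [h2]
    calc _ ≤ _ := h3
      _ = 5 * C * B ^ 2 * ((9 * K) ^ r / A) := h4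
      _ ≤ _ := by nlinarith
  calc ∫⁻ t in Icc (-1 : ℝ) 2, Nr D r t
      ≤ ∫⁻ t in Icc (-1 : ℝ) 2, ENNReal.ofReal (1 / A) * (Gs u v (fun _ => 1 / A) (p0 D) t +
      (2 * Gs u v (fun _ => 1 / A ^ 2) (p2 D) t +
        2 * Gs u v (fun q => (v q : ℝ) / A ^ 2) (p1 D) t)) := lintegral_mono fun t => hN t
    _ = ENNReal.ofReal (1 / A) * ((∫⁻ t in Icc (-1 : ℝ) 2, Gs u v (fun _ => 1 / A) (p0 D) t) +
      (2 * (∫⁻ t in Icc (-1 : ℝ) 2, Gs u v (fun _ => 1 / A ^ 2) (p2 D) t) +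
        2 * ∫⁻ t in Icc (-1 : ℝ) 2, Gs u v (fun q => (v q : ℝ) / A ^ 2) (p1 D) t)) := by
        have hmm : Measurable fun t => Gs u v (fun _ => 1 / A) (p0 D) t +
            (2 * Gs u v (fun _ => 1 / A ^ 2) (p2 D) t +
              2 * Gs u v (fun q => (v q : ℝ) / A ^ 2) (p1 D) t) :=
          hm.add ((hm'.const_mul 2).add (hm''.const_mul 2))
        rw [lintegral_const_mul _ hmm, lintegral_add_left hm, lintegral_add_left (hm'.const_mul 2),
          lintegral_const_mul _ hm', lintegral_const_mul _ hm'']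
    _ ≤ ENNReal.ofReal (1 / A) * (X + (2 * X + 2 * X)) := by gcongr
    _ = ENNReal.ofReal (5 * (C * B ^ 2 * (1 / A) ^ 2 * eqp u v) * (1 / A)) := by
        have e5 : X + (2 * X + 2 * X) = ENNReal.ofReal 5 * X := by
          have : ENNReal.ofReal 5 = 1 + (2 + 2) := by norm_num
          rw [this]
          ring
        rw [e5, hX, ← ENNReal.ofReal_mul (by norm_num), ← ENNReal.ofReal_mul (by positivity)]
        congr 1
        ring
    _ ≤ _ := ENNReal.ofReal_le_ofReal hfin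

end Pool.Agent.RDX
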