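import Pool.Agent.RDX.Stmts

/-!
# SHR: the supports of the iterates shrink
-/

set_option autoImplicit false

namespace Pool.Agent.RDX

open MeasureTheory Set
open Pool.Agent.RDS

/-- The supports of the iterates shrink. -/
theorem SHR_thm : Stmt_SHR := by
  intro L D hD hL t ht φ hφ n x
  have ht0 : |t| ≤ 1 := by rw [abs_of_nonneg ht.1]; exact ht.2
  have hz : ∀ (m : ℕ) (y : ℝ), 4 < |y| → (T D t)^[m] φ y = 0 := fun m =>
    iter_zero hD (c := 4) (by linarith) hφ m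
  refine ⟨hz n x, fun hn hx => ?_⟩
  obtain ⟨m, rfl⟩ : ∃ m, n = m + 1 := ⟨n - 1, by omega⟩
  rw [iter_succ']
  show (∑ p : Fin L × Fin L, (T D t)^[m] φ ((L : ℝ) * x - dt D t p)) / (L : ℝ) = 0
  rw [Finset.sum_eq_zero, zero_div]
  intro p _
  apply hz
  have hL' : (16 : ℝ) ≤ L := by exact_mod_cast hL
  have h1 := hD.abs_dt t p
  have h2 : (L - 1 : ℝ) * (1 + |t|) ≤ (L - 1) * 2 :=
    mul_le_mul_of_nonneg_left (by linarith) (by linarith)
  have h3 : |(L : ℝ) * x| = L * |x| := by rw [abs_mul, abs_of_pos hD.pos]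
  have h4 := abs_sub_abs_le_abs_sub ((L : ℝ) * x) (dt D t p)
  have h6 : (L : ℝ) * (9 / 4) < L * |x| := mul_lt_mul_of_pos_left hx hD.pos
  linarith

end Pool.Agent.RDX
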