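import Pool.Agent.RDX.Stmts
import Pool.Agent.RDS.STEP

/-!
# Random digit sets, second part: module SPX, the increments along the moving points

Port of `RDS/STEP.lean` with the moving point `a + t b` and the bump function `Psi`.
-/

set_option autoImplicit false

namespace Pool.Agent.RDX

open MeasureTheory Set
open Pool.Agent.RDS

namespace SPXM

variable {L : ℕ} {D : Fin L → ℕ × ℕ}

/-- The square integral of the increments over the directions near `t0`. -/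
noncomputable def HH (D : Fin L → ℕ × ℕ) (r : ℕ) (t0 x : ℝ) : ENNReal :=
  ∫⁻ τ in Icc (t0 - 1 / (2 * (L : ℝ) ^ r)) (t0 + 1 / (2 * (L : ℝ) ^ r)),
    ENNReal.ofReal (gr D r x τ ^ 2 + dgr D r x τ ^ 2 / (L : ℝ) ^ (2 * r))

theorem aux {x : ℝ} (hx : 0 < x) (m G : ℝ) : x * m * G = m / x * G * x ^ 2 := by
  field_simp

theorem Ydiff (x : ℝ) (n r : ℕ) (t : ℝ) :
    Y D t (n + r + 1) x - Y D t (n + r) x = (T D t)^[n] (fun x => gr D r x t) x := by
  unfold Y gr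
  rw [show n + r + 1 = n + (r + 1) from by ring, iter_add_apply t n (r + 1),
    iter_add_apply t n r, iter_sub]

theorem joint_cont {r : ℕ} (h1 : Continuous (fun q : ℝ × ℝ => gr D r q.1 q.2))
    (h2 : Continuous (fun q : ℝ × ℝ => dgr D r q.1 q.2)) :
    Continuous (fun p : ℝ × ℝ => gr D r p.1 p.2 ^ 2 +
      dgr D r p.1 p.2 ^ 2 / (L : ℝ) ^ (2 * r)) :=
  (h1.pow 2).add ((h2.pow 2).div_const _)

theorem measurable_HH {r : ℕ} (h1 : Continuous (fun q : ℝ × ℝ => gr D r q.1 q.2))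
    (h2 : Continuous (fun q : ℝ × ℝ => dgr D r q.1 q.2)) (t0 : ℝ) :
    Measurable (HH D r t0) := by
  have h := joint_cont h1 h2
  unfold HH
  exact Measurable.lintegral_prod_right' (f := fun p : ℝ × ℝ =>
    ENNReal.ofReal (gr D r p.1 p.2 ^ 2 + dgr D r p.1 p.2 ^ 2 / (L : ℝ) ^ (2 * r)))
    h.measurable.ennreal_ofReal

theorem measurable_Nr {r : ℕ} (h1 : Continuous (fun q : ℝ × ℝ => gr D r q.1 q.2))
    (h2 : Continuous (fun q : ℝ × ℝ => dgr D r q.1 q.2)) :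
    Measurable (Nr D r) := by
  have h := (joint_cont h1 h2).comp continuous_swap
  unfold Nr
  exact Measurable.lintegral_prod_right' (f := fun p : ℝ × ℝ =>
    ENNReal.ofReal (gr D r p.2 p.1 ^ 2 + dgr D r p.2 p.1 ^ 2 / (L : ℝ) ^ (2 * r)))
    h.measurable.ennreal_ofReal

theorem lint_HH {r : ℕ} (h1 : Continuous (fun q : ℝ × ℝ => gr D r q.1 q.2))
    (h2 : Continuous (fun q : ℝ × ℝ => dgr D r q.1 q.2)) (t0 : ℝ) :
    ∫⁻ x, HH D r t0 x = ∫⁻ τ in Icc (t0 - 1 / (2 * (L : ℝ) ^ r)) (t0 + 1 / (2 * (L : ℝ) ^ r)),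
      Nr D r τ := by
  have h := joint_cont h1 h2
  unfold HH Nr
  exact lintegral_lintegral_swap (f := fun x τ =>
    ENNReal.ofReal (gr D r x τ ^ 2 + dgr D r x τ ^ 2 / (L : ℝ) ^ (2 * r)))
    h.measurable.ennreal_ofReal.aemeasurable

theorem sob_bound (hD : Ok D) {r : ℕ}
    (h1 : Continuous (fun q : ℝ × ℝ => gr D r q.1 q.2))
    (h2 : Continuous (fun q : ℝ × ℝ => dgr D r q.1 q.2))
    (h3 : ∀ x t : ℝ, HasDerivAt (fun τ => gr D r x τ) (dgr D r x t) t)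
    (t0 t x : ℝ) (ht : |t - t0| ≤ 1 / (2 * (L : ℝ) ^ r)) :
    ENNReal.ofReal (gr D r x t ^ 2) ≤ ENNReal.ofReal (2 * (L : ℝ) ^ r) * HH D r t0 x := by
  have hc1 : Continuous (fun τ => gr D r x τ) :=
    h1.comp (f := fun τ : ℝ => (x, τ)) (by fun_prop)
  have hc2 : Continuous (fun τ => dgr D r x τ) :=
    h2.comp (f := fun τ : ℝ => (x, τ)) (by fun_prop)
  have hq : (0 : ℝ) < (L : ℝ) ^ r := hD.pw r
  have h4 : (0 : ℝ) < 1 / (2 * (L : ℝ) ^ r) := by positivity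
  have hab : t0 - 1 / (2 * (L : ℝ) ^ r) < t0 + 1 / (2 * (L : ℝ) ^ r) := by linarith
  obtain ⟨ht1, ht2⟩ := abs_le.1 ht
  have hs := FCQ.SOB_thm (fun τ => gr D r x τ) (fun τ => dgr D r x τ) _ _ t hab
    (fun τ => h3 x τ) hc2 ⟨by linarith, by linarith⟩
  have hlen : (t0 + 1 / (2 * (L : ℝ) ^ r)) - (t0 - 1 / (2 * (L : ℝ) ^ r)) =
      1 / (L : ℝ) ^ r := by
    field_simp
    ring
  rw [hlen] at hs
  have h16 : (L : ℝ) ^ (2 * r) = (L : ℝ) ^ r * (L : ℝ) ^ r := by rw [← pow_add]; congr 1; ring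
  have e1 : (2 : ℝ) / (1 / (L : ℝ) ^ r) = 2 * (L : ℝ) ^ r := by field_simp
  have e2 : 2 * (1 / (L : ℝ) ^ r) = 2 * (L : ℝ) ^ r / (L : ℝ) ^ (2 * r) := by
    rw [h16]; field_simp
  rw [e1, e2] at hs
  have hcF : Continuous (fun τ => gr D r x τ ^ 2 + dgr D r x τ ^ 2 / (L : ℝ) ^ (2 * r)) :=
    (hc1.pow 2).add ((hc2.pow 2).div_const _)
  have hsum : (∫ τ in (t0 - 1 / (2 * (L : ℝ) ^ r))..(t0 + 1 / (2 * (L : ℝ) ^ r)),
      (gr D r x τ ^ 2 + dgr D r x τ ^ 2 / (L : ℝ) ^ (2 * r))) =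
      (∫ τ in (t0 - 1 / (2 * (L : ℝ) ^ r))..(t0 + 1 / (2 * (L : ℝ) ^ r)), gr D r x τ ^ 2) +
        (∫ τ in (t0 - 1 / (2 * (L : ℝ) ^ r))..(t0 + 1 / (2 * (L : ℝ) ^ r)),
          dgr D r x τ ^ 2) / (L : ℝ) ^ (2 * r) := by
    have hf1 : Continuous (fun τ => gr D r x τ ^ 2) := hc1.pow 2
    have hf2 : Continuous (fun τ => dgr D r x τ ^ 2 / (L : ℝ) ^ (2 * r)) :=
      (hc2.pow 2).div_const _
    rw [intervalIntegral.integral_add (hf1.intervalIntegrable _ _)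
      (hf2.intervalIntegrable _ _), intervalIntegral.integral_div]
  have hfin : gr D r x t ^ 2 ≤ 2 * (L : ℝ) ^ r *
      ∫ τ in (t0 - 1 / (2 * (L : ℝ) ^ r))..(t0 + 1 / (2 * (L : ℝ) ^ r)),
      (gr D r x τ ^ 2 + dgr D r x τ ^ 2 / (L : ℝ) ^ (2 * r)) := by
    rw [hsum]
    refine hs.trans (le_of_eq ?_)
    ring
  calc ENNReal.ofReal (gr D r x t ^ 2)
      ≤ ENNReal.ofReal (2 * (L : ℝ) ^ r *
        ∫ τ in (t0 - 1 / (2 * (L : ℝ) ^ r))..(t0 + 1 / (2 * (L : ℝ) ^ r)),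
        (gr D r x τ ^ 2 + dgr D r x τ ^ 2 / (L : ℝ) ^ (2 * r))) :=
          ENNReal.ofReal_le_ofReal hfin
    _ = ENNReal.ofReal (2 * (L : ℝ) ^ r) *
        ENNReal.ofReal (∫ τ in Ioc (t0 - 1 / (2 * (L : ℝ) ^ r))
        (t0 + 1 / (2 * (L : ℝ) ^ r)),
          (gr D r x τ ^ 2 + dgr D r x τ ^ 2 / (L : ℝ) ^ (2 * r))) := by
        rw [ENNReal.ofReal_mul (by positivity), intervalIntegral.integral_of_le hab.le]
    _ = ENNReal.ofReal (2 * (L : ℝ) ^ r) *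
        ∫⁻ τ in Ioc (t0 - 1 / (2 * (L : ℝ) ^ r)) (t0 + 1 / (2 * (L : ℝ) ^ r)),
        ENNReal.ofReal (gr D r x τ ^ 2 + dgr D r x τ ^ 2 / (L : ℝ) ^ (2 * r)) := by
        rw [ofReal_integral_eq_lintegral_ofReal hcF.integrableOn_Ioc
          (ae_of_all _ fun τ => by positivity)]
    _ ≤ ENNReal.ofReal (2 * (L : ℝ) ^ r) * HH D r t0 x := by
        apply mul_le_mul_right
        exact lintegral_mono_set Ioc_subset_Icc_self

end SPXM

open SPXM in
open Classical in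
theorem SPX_thm : Stmt_SPX := by
  intro hCSH hEXP hPSI hDER hNOD L D M K c q0 hCX hR
  have hC : Crit D M K c := hCX.toCrit
  have hOk : Ok D := hC.toOk
  have hL := hOk.pos
  have hL4 := hOk.ge
  have hL16 := hCX.L16
  have hM1 := hCX.M1
  obtain ⟨C0, hC0, hC1⟩ := hR
  refine ⟨2 * (L : ℝ) ^ 3 * C0, by positivity, ?_⟩
  intro a0 b0 hp hp2 n r hnr
  -- the increments
  obtain ⟨ι', hι', u', v', -, -, -, hexp', -⟩ := hEXP hCSH D hOk r
  obtain ⟨hder, -, -, hg1, hg2, hzero⟩ := hDER hPSI D hOk r ι' u' v' hexp'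
  -- the expansion at the level n
  obtain ⟨ι, hι, u, v, hu, hv, -, hexp, -⟩ := hEXP hCSH D hOk n
  set a : ι → ℝ := fun q => (L : ℝ) ^ n * (a0 : ℝ) - u q with ha
  set b : ι → ℝ := fun q => (L : ℝ) ^ n * (b0 : ℝ) - v q with hb
  have hLn : (0 : ℝ) < (L : ℝ) ^ n := hOk.pw n
  have hLn1 : (1 : ℝ) ≤ (L : ℝ) ^ n := hOk.pw1 n
  have hLr : (0 : ℝ) < (L : ℝ) ^ r := hOk.pw r
  have hLr1 : (1 : ℝ) ≤ (L : ℝ) ^ r := hOk.pw1 r
  have hLnr : 8 * (L : ℝ) ^ r ≤ (L : ℝ) ^ n := by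
    have h1 : (L : ℝ) ^ (r + 1) ≤ (L : ℝ) ^ n := pow_le_pow_right₀ (by linarith) hnr
    rw [pow_succ] at h1
    nlinarith
  have hx : ∀ (t : ℝ) (q : ι), (L : ℝ) ^ n * ((a0 : ℝ) + t * (b0 : ℝ)) -
      ((u q : ℝ) + t * (v q : ℝ)) = a q + b q * t := by
    intro t q
    simp only [ha, hb]
    ring
  have hdyabs : (2 : ℝ) ≤ |(b0 : ℝ)| := by exact_mod_cast hp
  have hdyabs2 : |(b0 : ℝ)| ≤ (L : ℝ) ^ 2 := by exact_mod_cast hp2
  have hblow : ∀ q, (L : ℝ) ^ n ≤ |b q| := by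
    intro q
    have h1 := hv q
    have h2 : |(L : ℝ) ^ n * (b0 : ℝ)| = (L : ℝ) ^ n * |(b0 : ℝ)| := by
      rw [abs_mul, abs_of_pos hLn]
    have h3 := abs_sub_abs_le_abs_sub ((L : ℝ) ^ n * (b0 : ℝ)) (v q : ℝ)
    rw [h2] at h3
    have h4 : (L : ℝ) ^ n * 2 ≤ (L : ℝ) ^ n * |(b0 : ℝ)| :=
      mul_le_mul_of_nonneg_left hdyabs hLn.le
    simp only [hb]
    linarith
  have hbup : ∀ q, |b q| ≤ (L : ℝ) ^ (n + 3) := by
    intro q
    have h1 := hv q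
    have h2 : |(L : ℝ) ^ n * (b0 : ℝ)| = (L : ℝ) ^ n * |(b0 : ℝ)| := by
      rw [abs_mul, abs_of_pos hLn]
    have h3 := abs_sub ((L : ℝ) ^ n * (b0 : ℝ)) (v q : ℝ)
    rw [h2] at h3
    have h4 : (L : ℝ) ^ n * |(b0 : ℝ)| ≤ (L : ℝ) ^ n * (L : ℝ) ^ 2 :=
      mul_le_mul_of_nonneg_left hdyabs2 hLn.le
    have h5 : (L : ℝ) ^ n * ((L : ℝ) ^ 2 + 1) ≤ (L : ℝ) ^ n * (L : ℝ) ^ 3 :=
      mul_le_mul_of_nonneg_left (by nlinarith) hLn.le
    simp only [hb]
    rw [pow_add]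
    linarith
  have hb0 : ∀ q, b q ≠ 0 := fun q => abs_pos.1 (lt_of_lt_of_le hLn (hblow q))
  have hbc : ∀ (q : ι) (s : ℝ), a q + b q * s = b q * (s - (-a q / b q)) := by
    intro q s
    have := hb0 q
    field_simp
    ring
  -- the number of the points near zero
  have hcard : ∀ s ∈ Icc (-1 : ℝ) 2,
      ((Finset.univ.filter fun q => |a q + b q * s| ≤ 4).card : ℝ) ≤
        (L : ℝ) ^ n * (2 * (M : ℝ)) ^ n := by
    intro s hs
    have h1 := hNOD D hOk M hC.deg s hs n ((a0 : ℝ) + s * (b0 : ℝ))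
    rw [hexp, div_le_iff₀ hLn] at h1
    have h2 : ∑ q, ind 4 ((L : ℝ) ^ n * ((a0 : ℝ) + s * (b0 : ℝ)) -
        ((u q : ℝ) + s * (v q : ℝ))) =
        ((Finset.univ.filter fun q => |a q + b q * s| ≤ 4).card : ℝ) := by
      rw [Finset.card_filter]
      push_cast
      refine Finset.sum_congr rfl fun q _ => ?_
      rw [hx]
      unfold ind
      rfl
    rw [h2] at h1
    linarith
  have hcard3 : ∀ s ∈ Icc (-1 : ℝ) 2,
      ((Finset.univ.filter fun q => |a q + b q * s| ≤ 3).card : ℝ) ≤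
        (L : ℝ) ^ n * (2 * (M : ℝ)) ^ n := by
    intro s hs
    refine le_trans ?_ (hcard s hs)
    have : (Finset.univ.filter fun q => |a q + b q * s| ≤ 3) ⊆
        (Finset.univ.filter fun q => |a q + b q * s| ≤ 4) := by
      intro q hq
      obtain ⟨h1, h2⟩ := Finset.mem_filter.1 hq
      exact Finset.mem_filter.2 ⟨h1, by linarith⟩
    exact_mod_cast Finset.card_le_card this
  set Q : Finset ι := Finset.univ.filter fun q => -a q / b q ∈ Icc (-1 / 2 : ℝ) (3 / 2) with hQ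
  set ρ : ℝ := 1 / (2 * (L : ℝ) ^ r) with hρ
  have hρ0 : 0 < ρ := by rw [hρ]; positivity
  have hρ1 : ρ ≤ 1 / 2 := by
    rw [hρ]
    exact one_div_le_one_div_of_le (by norm_num) (by linarith)
  have h2L : 4 / (L : ℝ) ^ n ≤ ρ := by
    rw [hρ, div_le_div_iff₀ hLn (by positivity)]
    linarith
  -- the pointwise estimate
  have hpt : ∀ t ∈ Icc (0 : ℝ) 1,
      ENNReal.ofReal ((Y D t (n + r + 1) (a0 + t * b0) - Y D t (n + r) (a0 + t * b0)) ^ 2) ≤
        ENNReal.ofReal ((2 * (M : ℝ)) ^ n / (L : ℝ) ^ n) * ∑ q ∈ Q,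
          ENNReal.ofReal (2 * (L : ℝ) ^ r) * HH D r (-a q / b q) (b q * t + a q) := by
    intro t ht
    rw [Ydiff, hexp]
    have hx' : ∀ q, gr D r ((L : ℝ) ^ n * ((a0 : ℝ) + t * (b0 : ℝ)) - ((u q : ℝ) + t * (v q : ℝ))) t =
        gr D r (a q + b q * t) t := fun q => by rw [hx]
    rw [Finset.sum_congr rfl fun q _ => hx' q]
    set A : Finset ι := Finset.univ.filter fun q => |a q + b q * t| ≤ 4 with hA
    have hs1 : ∑ q, gr D r (a q + b q * t) t = ∑ q ∈ A, gr D r (a q + b q * t) t := by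
      symm
      apply Finset.sum_subset (Finset.subset_univ _)
      intro q _ hq
      apply hzero _ t ht
      rw [hA, Finset.mem_filter, not_and] at hq
      exact not_le.1 (hq (Finset.mem_univ q))
    have hAc : (A.card : ℝ) ≤ (L : ℝ) ^ n * (2 * (M : ℝ)) ^ n := by
      refine le_trans ?_ (hcard t ⟨by linarith [ht.1], by linarith [ht.2]⟩)
      exact le_rfl
    have hAd : ∀ q ∈ A, |t - (-a q / b q)| ≤ 4 / (L : ℝ) ^ n := by
      intro q hq
      obtain ⟨-, h2⟩ := Finset.mem_filter.1 hq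
      rw [hbc, abs_mul] at h2
      rw [le_div_iff₀ hLn]
      calc |t - (-a q / b q)| * (L : ℝ) ^ n ≤ |t - (-a q / b q)| * |b q| :=
            mul_le_mul_of_nonneg_left (hblow q) (abs_nonneg _)
        _ = |b q| * |t - (-a q / b q)| := mul_comm _ _
        _ ≤ 4 := h2
    have hAQ : A ⊆ Q := by
      intro q hq
      have h1 := (hAd q hq).trans (h2L.trans hρ1)
      obtain ⟨h3, h4⟩ := abs_le.1 h1
      refine Finset.mem_filter.2 ⟨Finset.mem_univ q, ?_, ?_⟩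
      · linarith [ht.1]
      · linarith [ht.2]
    have hcs : (∑ q ∈ A, gr D r (a q + b q * t) t) ^ 2 ≤
        (A.card : ℝ) * ∑ q ∈ A, gr D r (a q + b q * t) t ^ 2 := sq_sum_le_card_mul_sum_sq
    have hnn : 0 ≤ ∑ q ∈ A, gr D r (a q + b q * t) t ^ 2 :=
      Finset.sum_nonneg fun q _ => sq_nonneg _
    have hreal : ((∑ q, gr D r (a q + b q * t) t) / (L : ℝ) ^ n) ^ 2 ≤
        (2 * (M : ℝ)) ^ n / (L : ℝ) ^ n * ∑ q ∈ A, gr D r (a q + b q * t) t ^ 2 := by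
      rw [hs1, div_pow, div_le_iff₀ (by positivity)]
      calc (∑ q ∈ A, gr D r (a q + b q * t) t) ^ 2
          ≤ (A.card : ℝ) * ∑ q ∈ A, gr D r (a q + b q * t) t ^ 2 := hcs
        _ ≤ ((L : ℝ) ^ n * (2 * (M : ℝ)) ^ n) * ∑ q ∈ A, gr D r (a q + b q * t) t ^ 2 :=
            mul_le_mul_of_nonneg_right hAc hnn
        _ = _ := aux hLn _ _
    calc ENNReal.ofReal (((∑ q, gr D r (a q + b q * t) t) / (L : ℝ) ^ n) ^ 2)
        ≤ ENNReal.ofReal ((2 * (M : ℝ)) ^ n / (L : ℝ) ^ n *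
          ∑ q ∈ A, gr D r (a q + b q * t) t ^ 2) := ENNReal.ofReal_le_ofReal hreal
      _ = ENNReal.ofReal ((2 * (M : ℝ)) ^ n / (L : ℝ) ^ n) *
          ∑ q ∈ A, ENNReal.ofReal (gr D r (a q + b q * t) t ^ 2) := by
          rw [ENNReal.ofReal_mul (by positivity), ENNReal.ofReal_sum_of_nonneg
            (fun q _ => sq_nonneg _)]
      _ ≤ ENNReal.ofReal ((2 * (M : ℝ)) ^ n / (L : ℝ) ^ n) * ∑ q ∈ A,
          ENNReal.ofReal (2 * (L : ℝ) ^ r) * HH D r (-a q / b q) (b q * t + a q) := by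
          apply mul_le_mul_right
          apply Finset.sum_le_sum
          intro q hq
          rw [add_comm (b q * t) (a q)]
          exact sob_bound hOk hg1 hg2 hder (-a q / b q) t (a q + b q * t)
            ((hAd q hq).trans h2L)
      _ ≤ _ := by
          apply mul_le_mul_right
          exact Finset.sum_le_sum_of_subset hAQ
  have hHm : ∀ t0, Measurable (HH D r t0) := fun t0 => measurable_HH hg1 hg2 t0
  have hHd : ∀ q, Measurable (fun t => HH D r (-a q / b q) (b q * t + a q)) := fun q =>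
    (hHm _).comp (f := fun t => b q * t + a q) (by fun_prop)
  -- integration of one point
  have hone : ∀ q, ∫⁻ t in Icc (0 : ℝ) 1, HH D r (-a q / b q) (b q * t + a q) ≤
      ENNReal.ofReal (1 / (L : ℝ) ^ n) *
        ∫⁻ τ in Icc (-a q / b q - ρ) (-a q / b q + ρ), Nr D r τ := by
    intro q
    calc ∫⁻ t in Icc (0 : ℝ) 1, HH D r (-a q / b q) (b q * t + a q)
        ≤ ∫⁻ t, HH D r (-a q / b q) (b q * t + a q) := setLIntegral_le_lintegral _ _
      _ = ENNReal.ofReal |(b q)⁻¹| * ∫⁻ x, HH D r (-a q / b q) x :=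
          STEPM.lint_affine _ (hHm _) _ _ (hb0 q)
      _ ≤ ENNReal.ofReal (1 / (L : ℝ) ^ n) * ∫⁻ x, HH D r (-a q / b q) x := by
          apply mul_le_mul_left
          apply ENNReal.ofReal_le_ofReal
          rw [abs_inv, ← one_div]
          exact one_div_le_one_div_of_le hLn (hblow q)
      _ = _ := by rw [lint_HH hg1 hg2]
  -- the count
  set Z : ℝ := 2 * ρ * (L : ℝ) ^ (n + 3) * ((L : ℝ) ^ n * (2 * (M : ℝ)) ^ n) with hZ
  have hZ0 : 0 ≤ Z := by rw [hZ]; positivity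
  have hd1 : 1 / (L : ℝ) ^ (n + 3) ≤ ρ := by
    refine le_trans ?_ h2L
    rw [div_le_div_iff₀ (by positivity) hLn, pow_add]
    have h5 : (1 : ℝ) ≤ (L : ℝ) ^ 3 := one_le_pow₀ (by linarith)
    nlinarith
  have hd2 : 1 / (L : ℝ) ^ (n + 3) ≤ 1 / 2 := hd1.trans hρ1
  have hcount : ∀ τ : ℝ, ((Q.filter fun q => |τ - (-a q / b q)| ≤ ρ).card : ℝ) ≤ Z := by
    intro τ
    refine STEPM.count a b ((L : ℝ) ^ (n + 3)) ((L : ℝ) ^ n * (2 * (M : ℝ)) ^ n) ρ (by positivity)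
      (by positivity) hb0 hbup hd1 hd2 hcard3 τ _ ?_
    intro q hq
    obtain ⟨h1, h2⟩ := Finset.mem_filter.1 hq
    exact ⟨(Finset.mem_filter.1 h1).2, h2⟩
  have hwin := STEPM.sum_windows (fun q => -a q / b q) ρ Z hρ1 (Nr D r) (measurable_Nr hg1 hg2) Q
    (fun q hq => (Finset.mem_filter.1 hq).2) hcount
  calc ∫⁻ t in Icc (0 : ℝ) 1, ENNReal.ofReal
        ((Y D t (n + r + 1) (a0 + t * b0) - Y D t (n + r) (a0 + t * b0)) ^ 2)
      ≤ ∫⁻ t in Icc (0 : ℝ) 1, ENNReal.ofReal ((2 * (M : ℝ)) ^ n / (L : ℝ) ^ n) * ∑ q ∈ Q,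
          ENNReal.ofReal (2 * (L : ℝ) ^ r) * HH D r (-a q / b q) (b q * t + a q) :=
        setLIntegral_mono' measurableSet_Icc hpt
    _ = ENNReal.ofReal ((2 * (M : ℝ)) ^ n / (L : ℝ) ^ n) * ∑ q ∈ Q,
          ENNReal.ofReal (2 * (L : ℝ) ^ r) *
            ∫⁻ t in Icc (0 : ℝ) 1, HH D r (-a q / b q) (b q * t + a q) := by
        rw [lintegral_const_mul _ (Finset.measurable_sum _ fun q _ =>
          ((hHd q).const_mul _)), lintegral_finsetSum _ (fun q _ =>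
          ((hHd q).const_mul _))]
        congr 1
        refine Finset.sum_congr rfl fun q _ => ?_
        rw [lintegral_const_mul _ (hHd q)]
    _ ≤ ENNReal.ofReal ((2 * (M : ℝ)) ^ n / (L : ℝ) ^ n) * ∑ q ∈ Q,
          ENNReal.ofReal (2 * (L : ℝ) ^ r) * (ENNReal.ofReal (1 / (L : ℝ) ^ n) *
            ∫⁻ τ in Icc (-a q / b q - ρ) (-a q / b q + ρ), Nr D r τ) := by
        apply mul_le_mul_right
        apply Finset.sum_le_sum
        intro q _
        exact mul_le_mul_right (hone q) _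
    _ = ENNReal.ofReal ((2 * (M : ℝ)) ^ n / (L : ℝ) ^ n) * (ENNReal.ofReal (2 * (L : ℝ) ^ r) *
          (ENNReal.ofReal (1 / (L : ℝ) ^ n) * ∑ q ∈ Q,
            ∫⁻ τ in Icc (-a q / b q - ρ) (-a q / b q + ρ), Nr D r τ)) := by
        rw [← Finset.mul_sum, ← Finset.mul_sum]
    _ ≤ ENNReal.ofReal ((2 * (M : ℝ)) ^ n / (L : ℝ) ^ n) * (ENNReal.ofReal (2 * (L : ℝ) ^ r) *
          (ENNReal.ofReal (1 / (L : ℝ) ^ n) * (ENNReal.ofReal Z *
            ENNReal.ofReal (C0 * (9 * K / L) ^ r)))) := by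
        refine mul_le_mul_right (mul_le_mul_right (mul_le_mul_right (hwin.trans ?_) _) _) _
        exact mul_le_mul_right (hC1 r) _
    _ = ENNReal.ofReal (2 * (L : ℝ) ^ 3 * C0 * (2 * (M : ℝ)) ^ (2 * n) * (9 * K / L) ^ r) := by
        have hK : (0 : ℝ) ≤ 9 * K / L := by
          have := hC.hK
          positivity
        rw [← ENNReal.ofReal_mul hZ0, ← ENNReal.ofReal_mul (by positivity),
          ← ENNReal.ofReal_mul (by positivity), ← ENNReal.ofReal_mul (by positivity)]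
        congr 1
        rw [hZ, hρ, show (2 * (M : ℝ)) ^ (2 * n) = (2 * (M : ℝ)) ^ n * (2 * (M : ℝ)) ^ n from by
          rw [← pow_add]; congr 1; ring, pow_add]
        field_simp

end Pool.Agent.RDX
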