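import Pool.Agent.RDX.Stmts
import Pool.Agent.RDS.STOP
import Pool.Agent.RDS.AUT

/-!
# ST2: stopping intervals and the weights of the bad pairs
-/

set_option autoImplicit false

namespace Pool.Agent.RDX

open MeasureTheory Set
open Pool.Agent.RDS

namespace ST2M

open Pool.Agent.RDS.STOPM

variable {L : ℕ} {D : Fin L → ℕ × ℕ}

theorem integrable_mul (hD : Ok D) (m n : ℕ) (t a b : ℝ) :
    Integrable fun x => f D m t ((L : ℝ) ^ n * (x - a)) * f D m t ((L : ℝ) ^ n * (x - b)) := by
  have h1 : Integrable fun x => (L : ℝ) ^ m * f D m t ((L : ℝ) ^ n * (x - a)) :=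
    (integrable_scale hD (integrable_f m t) n a).const_mul _
  have hm := measurable_f (D := D) m t
  refine h1.mono' ?_ (Filter.Eventually.of_forall fun x => ?_)
  · exact ((hm.comp (by fun_prop)).mul (hm.comp (by fun_prop))).aestronglyMeasurable
  · rw [Real.norm_eq_abs, abs_of_nonneg (mul_nonneg (f_nonneg _ _ _) (f_nonneg _ _ _)), mul_comm]
    exact mul_le_mul_of_nonneg_right (f_le _ _ _) (f_nonneg _ _ _)

theorem integral_mul (hD : Ok D) (m n : ℕ) (t a b : ℝ) :
    ∫ x, f D m t ((L : ℝ) ^ n * (x - a)) * f D m t ((L : ℝ) ^ n * (x - b)) =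
      AUTM.G D m t ((L : ℝ) ^ n * (a - b)) / (L : ℝ) ^ n := by
  have h := integral_scale hD
    (fun z => f D m t z * f D m t (z + (L : ℝ) ^ n * (a - b))) n a
  rw [show AUTM.G D m t ((L : ℝ) ^ n * (a - b)) =
    ∫ z, f D m t z * f D m t (z + (L : ℝ) ^ n * (a - b)) from rfl, ← h]
  congr 1
  funext x
  congr 2
  ring

/-- The correlation of two subsquares. -/
theorem G_le (hD : Ok D) {t β : ℝ} (ht : 0 ≤ t) (ht1 : t ≤ 1) (hβ : 0 ≤ β) (m : ℕ) (x : ℝ) :
    AUTM.G D m t x ≤ 2 * β + 2 * ps D β t m x := by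
  have h1 : AUTM.G D m t x ≤ 2 * Y D t m x := by
    rw [AUTM.key hD]
    unfold Y
    rw [← iter_smul]
    exact iter_mono (tent_le ht ht1) t m x
  have h2 := Y_le_ps (D := D) β t m x
  rw [max_eq_left hβ] at h2
  linarith

open Classical in
/-- The weight of a pair of words. -/
noncomputable def pw (D : Fin L → ℕ × ℕ) (β t : ℝ) (n m : ℕ) (w : Wd L n × Wd L n) : ℝ :=
  if w.1 = w.2 then 0 else ps D β t m ((L : ℝ) ^ n * (pr D t w.1 - pr D t w.2))

theorem pw_nonneg (β t : ℝ) (n m : ℕ) (w : Wd L n × Wd L n) : 0 ≤ pw D β t n m w := by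
  unfold pw
  split
  · exact le_rfl
  · exact ps_nonneg _ _ _ _

theorem Bd_eq (N : ℕ) (β t : ℝ) : Bd D N β t =
    ∑ i ∈ Finset.range N, (∑ w : Wd L (i + 1) × Wd L (i + 1),
      pw D β t (i + 1) (N - (i + 1)) w) / (L : ℝ) ^ (i + 1) := by
  unfold Bd pw
  rfl

open Classical in
theorem G_pair (hD : Ok D) {t β : ℝ} (ht : 0 ≤ t) (ht1 : t ≤ 1) (hβ : 0 ≤ β) (n m : ℕ)
    (u v : Wd L n) :
    AUTM.G D m t ((L : ℝ) ^ n * (pr D t u - pr D t v)) ≤
      (if u = v then S D (n + m) t else 0) + 2 * β + 2 * pw D β t n m (u, v) := by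
  by_cases h : u = v
  · subst h
    have h1 := S_le hD n m t
    rw [AUTM.S_eq m] at h1
    have h2 := pw_nonneg (D := D) β t n m (u, u)
    rw [if_pos rfl, sub_self, mul_zero]
    linarith
  · rw [if_neg h, zero_add]
    refine (G_le hD ht ht1 hβ m _).trans ?_
    unfold pw
    rw [if_neg h]

open Classical in
/-- The second moment over one interval of level `n`. -/
theorem main_int (hD : Ok D) {t β : ℝ} (ht : 0 ≤ t) (ht1 : t ≤ 1) (hβ : 0 ≤ β) {n m K : ℕ} (j : ℤ)
    (hc : cnt D t n j ≤ L * K) :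
    ∫⁻ x in Iv L n j, ENNReal.ofReal (f D (n + m) t x ^ 2) ≤
      ENNReal.ofReal ((L : ℝ) * K * S D (n + m) t + 2 * β * ((L : ℝ) * K) ^ 2) *
        volume (Iv L n j) +
      ∑ w : Wd L n × Wd L n, if meets D t w.1 j then
        ENNReal.ofReal (2 * pw D β t n m w / (L : ℝ) ^ n) else 0 := by
  have h4 := hD.pw n
  have hL := hD.pos
  set s : Finset (Wd L n) := Finset.univ.filter fun w : Wd L n => meets D t w j with hs
  have hsc : (s.card : ℝ) ≤ L * K := by
    have : s.card = cnt D t n j := rfl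
    rw [this]
    exact_mod_cast hc
  set g : ℝ → ℝ := fun x => (∑ u ∈ s, f D m t ((L : ℝ) ^ n * (x - pr D t u))) ^ 2 with hg
  have hpt : ∀ x ∈ Iv L n j, ENNReal.ofReal (f D (n + m) t x ^ 2) ≤ ENNReal.ofReal (g x) := by
    intro x hx
    apply ENNReal.ofReal_le_ofReal
    have h1 : f D (n + m) t x = ∑ u ∈ s, f D m t ((L : ℝ) ^ n * (x - pr D t u)) := by
      rw [f_add hD]
      symm
      apply Finset.sum_subset (Finset.subset_univ _)
      intro u _ hu
      by_contra hne
      apply hu
      have h2 := mem_Icc_of_f_ne_zero hD ht hne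
      have h3 : x ∈ psq D t u := by
        rw [mem_Icc] at h2
        unfold psq
        rw [mem_Icc]
        constructor
        · have := (mul_nonneg_iff_of_pos_left h4).mp h2.1
          linarith
        · have h5 : x - pr D t u ≤ (1 + t) / (L : ℝ) ^ n := by
            rw [le_div_iff₀ h4, mul_comm]
            exact h2.2
          linarith
      have h6 := meets_of_mem hD h3
      have h7 : ⌊(L : ℝ) ^ n * x⌋ = j := hx
      rw [h7] at h6
      exact Finset.mem_filter.mpr ⟨Finset.mem_univ _, h6⟩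
    rw [h1]
  have hgeq : g = fun x => ∑ u ∈ s, ∑ v ∈ s,
      f D m t ((L : ℝ) ^ n * (x - pr D t u)) * f D m t ((L : ℝ) ^ n * (x - pr D t v)) := by
    funext x
    simp only [hg]
    rw [sq, Finset.sum_mul_sum]
  have hgi : Integrable g := by
    rw [hgeq]
    exact integrable_finsetSum _ fun u _ => integrable_finsetSum _ fun v _ =>
      integrable_mul hD _ _ _ _ _
  have hg0 : ∀ x, 0 ≤ g x := fun x => sq_nonneg _
  have hgm : Measurable fun x => ENNReal.ofReal (g x) := by
    apply Measurable.ennreal_ofReal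
    refine Measurable.pow_const (Finset.measurable_sum _ fun u _ => ?_) 2
    exact (measurable_f m t).comp (by fun_prop)
  have hgint : ∫ x, g x = ∑ u ∈ s, ∑ v ∈ s,
      AUTM.G D m t ((L : ℝ) ^ n * (pr D t u - pr D t v)) / (L : ℝ) ^ n := by
    rw [hgeq, integral_finsetSum _ fun u _ => integrable_finsetSum _ fun v _ =>
      integrable_mul hD _ _ _ _ _]
    refine Finset.sum_congr rfl fun u _ => ?_
    rw [integral_finsetSum _ fun v _ => integrable_mul hD _ _ _ _ _]
    exact Finset.sum_congr rfl fun v _ => integral_mul hD _ _ _ _ _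
  have hW0 : ∀ w : Wd L n × Wd L n, 0 ≤ (if meets D t w.1 j then
      2 * pw D β t n m w / (L : ℝ) ^ n else 0) := by
    intro w
    split
    · exact div_nonneg (mul_nonneg (by norm_num) (pw_nonneg _ _ _ _ _)) h4.le
    · exact le_rfl
  have hS0 := S_nonneg (D := D) (n + m) t
  have hreal : ∫ x, g x ≤
      ((L : ℝ) * K * S D (n + m) t + 2 * β * ((L : ℝ) * K) ^ 2) * (1 / (L : ℝ) ^ n) +
      ∑ w : Wd L n × Wd L n, if meets D t w.1 j then
        2 * pw D β t n m w / (L : ℝ) ^ n else 0 := by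
    rw [hgint]
    have e1 : ∑ u ∈ s, ∑ v ∈ s,
        AUTM.G D m t ((L : ℝ) ^ n * (pr D t u - pr D t v)) / (L : ℝ) ^ n ≤
        ∑ u ∈ s, ∑ v ∈ s, ((if u = v then S D (n + m) t else 0) + 2 * β +
          2 * pw D β t n m (u, v)) / (L : ℝ) ^ n :=
      Finset.sum_le_sum fun u _ => Finset.sum_le_sum fun v _ =>
        div_le_div_of_nonneg_right (G_pair hD ht ht1 hβ n m u v) h4.le
    have e2 : ∑ u ∈ s, ∑ v ∈ s, ((if u = v then S D (n + m) t else 0) + 2 * β +
          2 * pw D β t n m (u, v)) / (L : ℝ) ^ n =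
        ((s.card : ℝ) * S D (n + m) t + 2 * β * ((s.card : ℝ) * s.card)) * (1 / (L : ℝ) ^ n) +
        ∑ u ∈ s, ∑ v ∈ s, 2 * pw D β t n m (u, v) / (L : ℝ) ^ n := by
      have i1 : ∀ u ∈ s, ∑ v ∈ s, ((if u = v then S D (n + m) t else 0) + 2 * β +
          2 * pw D β t n m (u, v)) / (L : ℝ) ^ n =
          (S D (n + m) t + s.card * (2 * β)) / (L : ℝ) ^ n +
            ∑ v ∈ s, 2 * pw D β t n m (u, v) / (L : ℝ) ^ n := by
        intro u hu
        have i2 : ∀ v ∈ s, ((if u = v then S D (n + m) t else 0) + 2 * β +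
            2 * pw D β t n m (u, v)) / (L : ℝ) ^ n =
            ((if u = v then S D (n + m) t else 0) + 2 * β) / (L : ℝ) ^ n +
              2 * pw D β t n m (u, v) / (L : ℝ) ^ n := fun v _ => add_div _ _ _
        rw [Finset.sum_congr rfl i2, Finset.sum_add_distrib]
        congr 1
        rw [← Finset.sum_div, Finset.sum_add_distrib, Finset.sum_ite_eq, if_pos hu,
          Finset.sum_const, nsmul_eq_mul]
      rw [Finset.sum_congr rfl i1, Finset.sum_add_distrib, Finset.sum_const, nsmul_eq_mul]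
      congr 1
      ring
    have e3 : ∑ u ∈ s, ∑ v ∈ s, 2 * pw D β t n m (u, v) / (L : ℝ) ^ n ≤
        ∑ w : Wd L n × Wd L n, if meets D t w.1 j then
          2 * pw D β t n m w / (L : ℝ) ^ n else 0 := by
      rw [Fintype.sum_prod_type]
      have i3 : ∀ u ∈ s, ∑ v ∈ s, 2 * pw D β t n m (u, v) / (L : ℝ) ^ n ≤
          ∑ v : Wd L n, if meets D t u j then
            2 * pw D β t n m (u, v) / (L : ℝ) ^ n else 0 := by
        intro u hu
        have hu' : meets D t u j := (Finset.mem_filter.mp hu).2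
        simp only [hu', if_true]
        exact Finset.sum_le_sum_of_subset_of_nonneg (Finset.subset_univ _) fun v _ _ =>
          div_nonneg (mul_nonneg (by norm_num) (pw_nonneg _ _ _ _ _)) h4.le
      refine (Finset.sum_le_sum i3).trans ?_
      exact Finset.sum_le_sum_of_subset_of_nonneg (Finset.subset_univ _) fun u _ _ =>
        Finset.sum_nonneg fun v _ => hW0 (u, v)
    have e4 : ((s.card : ℝ) * S D (n + m) t + 2 * β * ((s.card : ℝ) * s.card)) *
        (1 / (L : ℝ) ^ n) ≤
        ((L : ℝ) * K * S D (n + m) t + 2 * β * ((L : ℝ) * K) ^ 2) * (1 / (L : ℝ) ^ n) := by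
      refine mul_le_mul_of_nonneg_right ?_ (by positivity)
      have h3 : (0 : ℝ) ≤ s.card := Nat.cast_nonneg _
      have h5 : (s.card : ℝ) * s.card ≤ (L * K) * (L * K) := mul_le_mul hsc hsc h3 (by positivity)
      have h6 : (s.card : ℝ) * S D (n + m) t ≤ L * K * S D (n + m) t :=
        mul_le_mul_of_nonneg_right hsc hS0
      have h7 : 2 * β * ((s.card : ℝ) * s.card) ≤ 2 * β * ((L : ℝ) * K) ^ 2 := by
        refine mul_le_mul_of_nonneg_left ?_ (by positivity)
        rw [sq]
        exact h5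
      exact add_le_add h6 h7
    rw [e2] at e1
    exact e1.trans (add_le_add e4 e3)
  calc ∫⁻ x in Iv L n j, ENNReal.ofReal (f D (n + m) t x ^ 2)
      ≤ ∫⁻ x in Iv L n j, ENNReal.ofReal (g x) := setLIntegral_mono hgm hpt
    _ ≤ ∫⁻ x, ENNReal.ofReal (g x) := setLIntegral_le_lintegral _ _
    _ = ENNReal.ofReal (∫ x, g x) :=
        (ofReal_integral_eq_lintegral_ofReal hgi (Filter.Eventually.of_forall hg0)).symm
    _ ≤ ENNReal.ofReal (((L : ℝ) * K * S D (n + m) t + 2 * β * ((L : ℝ) * K) ^ 2) *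
        (1 / (L : ℝ) ^ n) + ∑ w : Wd L n × Wd L n, if meets D t w.1 j then
          2 * pw D β t n m w / (L : ℝ) ^ n else 0) := ENNReal.ofReal_le_ofReal hreal
    _ = _ := by
        rw [ENNReal.ofReal_add (by positivity) (Finset.sum_nonneg fun w _ => hW0 w),
          volume_Iv hD, ENNReal.ofReal_mul (by positivity),
          ENNReal.ofReal_sum_of_nonneg fun w _ => hW0 w]
        congr 1
        refine Finset.sum_congr rfl fun w _ => ?_
        split
        · rfl
        · exact ENNReal.ofReal_zero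

open Classical in
/-- A square meets at most three intervals of its level. -/
theorem tsum_meets (hD : Ok D) {t : ℝ} (ht1 : t ≤ 1) {n : ℕ} (u : Wd L n) (a : ENNReal) :
    ∑' j : ℤ, (if meets D t u j then a else 0) ≤ 3 * a := by
  have h4 := hD.pw n
  set c := ⌊(L : ℝ) ^ n * pr D t u⌋ with hc
  have hsub : ∀ j, meets D t u j → j ∈ Finset.Icc c (c + 2) := by
    rintro j ⟨h1, h2⟩
    rw [lt_div_iff₀ h4] at h1
    rw [div_le_iff₀ h4, add_mul, div_mul_cancel₀ _ h4.ne'] at h2
    have e1 := Int.floor_le ((L : ℝ) ^ n * pr D t u)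
    have e2 := Int.lt_floor_add_one ((L : ℝ) ^ n * pr D t u)
    rw [← hc] at e1 e2
    rw [Finset.mem_Icc]
    constructor
    · have : (c : ℝ) < j + 1 := by nlinarith
      have : c < j + 1 := by exact_mod_cast this
      omega
    · have : (j : ℝ) < c + 3 := by nlinarith
      have : j < c + 3 := by exact_mod_cast this
      omega
  rw [tsum_eq_sum (s := Finset.Icc c (c + 2)) fun j hj => if_neg fun h => hj (hsub j h)]
  calc ∑ j ∈ Finset.Icc c (c + 2), (if meets D t u j then a else 0)
      ≤ ∑ _j ∈ Finset.Icc c (c + 2), a := Finset.sum_le_sum fun j _ => by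
        split
        · exact le_rfl
        · exact zero_le
    _ = 3 * a := by
        rw [Finset.sum_const, Int.card_Icc, nsmul_eq_mul]
        congr 1
        have : (c + 2 + 1 - c).toNat = 3 := by
          have : c + 2 + 1 - c = 3 := by ring
          rw [this]
          rfl
        rw [this]
        norm_num

theorem bound_A (hD : Ok D) {t β : ℝ} (ht : 0 ≤ t) (ht1 : t ≤ 1) (hβ : 0 ≤ β) {N K : ℕ}
    (hK : 2 ≤ K) :
    ∀ n ≤ N, ∫⁻ x in A D t n K, ENNReal.ofReal (f D N t x ^ 2) ≤
      ENNReal.ofReal ((L : ℝ) * K * S D N t + 2 * β * ((L : ℝ) * K) ^ 2) * volume (A D t n K) +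
      ENNReal.ofReal (6 * ∑ i ∈ Finset.range n, (∑ w : Wd L (i + 1) × Wd L (i + 1),
        pw D β t (i + 1) (N - (i + 1)) w) / (L : ℝ) ^ (i + 1)) := by
  classical
  intro n
  induction n with
  | zero =>
    intro _
    rw [A_zero hK]
    simp
  | succ n ih =>
    intro hn
    set c := ENNReal.ofReal ((L : ℝ) * K * S D N t + 2 * β * ((L : ℝ) * K) ^ 2) with hc
    set Z := A D t (n + 1) K \ A D t n K with hZ
    have h4 := hD.pw (n + 1)
    have hZm : MeasurableSet Z := (measurable_A hD t (n + 1) K).diff (measurable_A hD t n K)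
    have hdis : Disjoint (A D t n K) Z := disjoint_sdiff_right
    have hun : A D t (n + 1) K = A D t n K ∪ Z :=
      (union_sdiff_cancel (A_subset_succ t n K)).symm
    have hZb : ∫⁻ x in Z, ENNReal.ofReal (f D N t x ^ 2) ≤ c * volume Z +
        ENNReal.ofReal (6 * ((∑ w : Wd L (n + 1) × Wd L (n + 1),
          pw D β t (n + 1) (N - (n + 1)) w) / (L : ℝ) ^ (n + 1))) := by
      have hcov : Z = ⋃ j : ℤ, Z ∩ Iv L (n + 1) j := by
        rw [← inter_iUnion]
        refine (inter_eq_left.mpr fun x _ => ?_).symm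
        exact mem_iUnion.mpr ⟨⌊(L : ℝ) ^ (n + 1) * x⌋, rfl⟩
      have hm : ∀ j : ℤ, MeasurableSet (Z ∩ Iv L (n + 1) j) := fun j =>
        hZm.inter (measurable_Iv hD _ _)
      have hd : Pairwise (Function.onFun Disjoint fun j : ℤ => Z ∩ Iv L (n + 1) j) := by
        intro i j hij
        rw [Function.onFun, Set.disjoint_left]
        rintro x ⟨-, h1⟩ ⟨-, h2⟩
        exact hij ((show ⌊(L : ℝ) ^ (n + 1) * x⌋ = i from h1).symm.trans h2)
      have h1 : ∫⁻ x in Z, ENNReal.ofReal (f D N t x ^ 2) =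
          ∑' j : ℤ, ∫⁻ x in Z ∩ Iv L (n + 1) j, ENNReal.ofReal (f D N t x ^ 2) := by
        conv_lhs => rw [hcov]
        exact lintegral_iUnion hm hd _
      have h2 : volume Z = ∑' j : ℤ, volume (Z ∩ Iv L (n + 1) j) := by
        conv_lhs => rw [hcov]
        exact measure_iUnion hd hm
      have h3 : ∀ j : ℤ, ∫⁻ x in Z ∩ Iv L (n + 1) j, ENNReal.ofReal (f D N t x ^ 2) ≤
          c * volume (Z ∩ Iv L (n + 1) j) +
          ∑ w : Wd L (n + 1) × Wd L (n + 1), if meets D t w.1 j then
            ENNReal.ofReal (2 * pw D β t (n + 1) (N - (n + 1)) w / (L : ℝ) ^ (n + 1)) else 0 := by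
        intro j
        rcases (Z ∩ Iv L (n + 1) j).eq_empty_or_nonempty with he | ⟨x, hxZ, hxj⟩
        · rw [he]
          simp
        · have hxj' : ⌊(L : ℝ) ^ (n + 1) * x⌋ = j := hxj
          have hxn : ∀ m ≤ n, cnt D t m ⌊(L : ℝ) ^ m * x⌋ < K := by
            intro m hm
            by_contra hcon
            push Not at hcon
            exact hxZ.2 ⟨m, hm, hcon⟩
          have hsub : Iv L (n + 1) j ⊆ Z := by
            intro y hy
            have hyj : ⌊(L : ℝ) ^ (n + 1) * y⌋ = j := hy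
            refine ⟨same_A hD (hxj'.trans hyj.symm) hxZ.1, fun hyA => hxZ.2 ?_⟩
            refine same_A hD ?_ hyA
            rw [floor_coarse hD y n 1, floor_coarse hD x n 1, hyj, hxj']
          have hI : Z ∩ Iv L (n + 1) j = Iv L (n + 1) j := inter_eq_right.mpr hsub
          rw [hI]
          have h5 := cnt_succ hD ht x n
          rw [hxj'] at h5
          have h6 := hxn n le_rfl
          have h7 := main_int hD ht ht1 hβ (m := N - (n + 1)) j
            (h5.trans (Nat.mul_le_mul_left L h6.le))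
          have h8 : n + 1 + (N - (n + 1)) = N := by omega
          rw [h8] at h7
          exact h7
      rw [h1]
      calc ∑' j : ℤ, ∫⁻ x in Z ∩ Iv L (n + 1) j, ENNReal.ofReal (f D N t x ^ 2)
          ≤ ∑' j : ℤ, (c * volume (Z ∩ Iv L (n + 1) j) +
            ∑ w : Wd L (n + 1) × Wd L (n + 1), if meets D t w.1 j then
              ENNReal.ofReal (2 * pw D β t (n + 1) (N - (n + 1)) w / (L : ℝ) ^ (n + 1))
                else 0) := ENNReal.tsum_le_tsum h3
        _ = c * volume Z + ∑ w : Wd L (n + 1) × Wd L (n + 1), ∑' j : ℤ,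
            (if meets D t w.1 j then
              ENNReal.ofReal (2 * pw D β t (n + 1) (N - (n + 1)) w / (L : ℝ) ^ (n + 1))
                else 0) := by
            rw [ENNReal.tsum_add, ENNReal.tsum_mul_left, ← h2,
              Summable.tsum_finsetSum fun _ _ => ENNReal.summable]
        _ ≤ c * volume Z + ∑ w : Wd L (n + 1) × Wd L (n + 1), 3 *
            ENNReal.ofReal (2 * pw D β t (n + 1) (N - (n + 1)) w / (L : ℝ) ^ (n + 1)) := by
            gcongr with w _
            exact tsum_meets hD ht1 w.1 _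
        _ = _ := by
            congr 1
            have e1 : ∀ w : Wd L (n + 1) × Wd L (n + 1), 3 *
                ENNReal.ofReal (2 * pw D β t (n + 1) (N - (n + 1)) w / (L : ℝ) ^ (n + 1)) =
                ENNReal.ofReal (6 * (pw D β t (n + 1) (N - (n + 1)) w / (L : ℝ) ^ (n + 1))) := by
              intro w
              rw [show (3 : ENNReal) = ENNReal.ofReal 3 by norm_num,
                ← ENNReal.ofReal_mul (by norm_num)]
              congr 1
              ring
            rw [Finset.sum_congr rfl fun w _ => e1 w, ← ENNReal.ofReal_sum_of_nonneg,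
              ← Finset.mul_sum, Finset.sum_div]
            intro w _
            have := pw_nonneg (D := D) β t (n + 1) (N - (n + 1)) w
            positivity
    have hs0 : 0 ≤ ∑ i ∈ Finset.range n, (∑ w : Wd L (i + 1) × Wd L (i + 1),
        pw D β t (i + 1) (N - (i + 1)) w) / (L : ℝ) ^ (i + 1) :=
      Finset.sum_nonneg fun i _ => div_nonneg (Finset.sum_nonneg fun w _ => pw_nonneg _ _ _ _ _)
        (hD.pw _).le
    have hs1 : 0 ≤ (∑ w : Wd L (n + 1) × Wd L (n + 1),
        pw D β t (n + 1) (N - (n + 1)) w) / (L : ℝ) ^ (n + 1) :=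
      div_nonneg (Finset.sum_nonneg fun w _ => pw_nonneg _ _ _ _ _) h4.le
    rw [hun, lintegral_union hZm hdis, measure_union hdis hZm, mul_add, Finset.sum_range_succ,
      mul_add 6, ENNReal.ofReal_add (by positivity) (by positivity)]
    refine (add_le_add (ih (Nat.le_of_succ_le hn)) hZb).trans (le_of_eq ?_)
    ring

end ST2M

open ST2M Pool.Agent.RDS.STOPM in
/-- Stopping intervals with few bad pairs. -/
theorem ST2_thm : Stmt_ST2 := by
  intro L D hD N K β t ht ht1 hK hβ hS hB
  have hAm := measurable_A hD t N K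
  have hL := hD.pos
  have hL4 : (4 : ℝ) ≤ L := by exact_mod_cast hD.four
  have hβ0 : (0 : ℝ) ≤ β := by linarith
  set F : ℝ → ENNReal := fun x => ENNReal.ofReal (f D N t x ^ 2) with hF
  have h1 : ENNReal.ofReal (S D N t) = ∫⁻ x, F x := by
    unfold S
    exact ofReal_integral_eq_lintegral_ofReal (integrable_f_sq N t)
      (Filter.Eventually.of_forall fun x => sq_nonneg _)
  have h2 : ∫⁻ x in A D t N K, F x ≤
      ENNReal.ofReal ((L : ℝ) * K * S D N t + 2 * β * ((L : ℝ) * K) ^ 2) *
        volume (A D t N K) + ENNReal.ofReal (6 * Bd D N β t) := by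
    have := ST2M.bound_A hD ht ht1 hβ0 hK N le_rfl
    rwa [← ST2M.Bd_eq] at this
  have hmeasK : Measurable fun x => ENNReal.ofReal (K * f D N t x) :=
    ((measurable_f N t).const_mul _).ennreal_ofReal
  have h3 : ∫⁻ x in (A D t N K)ᶜ, F x ≤ ENNReal.ofReal (2 * K) := by
    calc ∫⁻ x in (A D t N K)ᶜ, F x ≤ ∫⁻ x in (A D t N K)ᶜ, ENNReal.ofReal (K * f D N t x) := by
          refine setLIntegral_mono hmeasK fun x hx => ?_
          apply ENNReal.ofReal_le_ofReal
          rw [sq]
          refine mul_le_mul_of_nonneg_right ?_ (f_nonneg _ _ _)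
          have h4 : cnt D t N ⌊(L : ℝ) ^ N * x⌋ < K := by
            by_contra hc
            push Not at hc
            exact hx ⟨N, le_rfl, hc⟩
          have h5 := f_le_cnt hD t x N
          have h6 : (cnt D t N ⌊(L : ℝ) ^ N * x⌋ : ℝ) ≤ K := by exact_mod_cast h4.le
          linarith
      _ ≤ ∫⁻ x, ENNReal.ofReal (K * f D N t x) := setLIntegral_le_lintegral _ _
      _ = ENNReal.ofReal (∫ x, K * f D N t x) :=
          (ofReal_integral_eq_lintegral_ofReal ((integrable_f N t).const_mul _)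
            (Filter.Eventually.of_forall fun x =>
              mul_nonneg (Nat.cast_nonneg _) (f_nonneg _ _ _))).symm
      _ ≤ _ := by
          apply ENNReal.ofReal_le_ofReal
          rw [integral_const_mul, integral_f hD N ht]
          have : (0 : ℝ) ≤ K := Nat.cast_nonneg _
          nlinarith
  have hfin : volume (A D t N K) ≠ ⊤ := by
    refine ne_top_of_le_ne_top ?_ (measure_mono (A_bounded hD ht ht1 (N := N) hK))
    rw [Real.volume_Icc]
    exact ENNReal.ofReal_ne_top
  set a : ℝ := (volume (A D t N K)).toReal with ha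
  have ha0 : 0 ≤ a := ENNReal.toReal_nonneg
  have hS0 := S_nonneg (D := D) N t
  have hB0 := Bd_nonneg (D := D) N β t
  have hK0 : (2 : ℝ) ≤ K := by exact_mod_cast hK
  set c : ℝ := (L : ℝ) * K * S D N t + 2 * β * ((L : ℝ) * K) ^ 2 with hc
  have hc0 : 0 ≤ c := by positivity
  have h4 : ENNReal.ofReal (S D N t) ≤
      ENNReal.ofReal (c * a + 6 * Bd D N β t + 2 * K) := by
    rw [h1, ← lintegral_add_compl F hAm, ENNReal.ofReal_add (by positivity) (by positivity),
      ENNReal.ofReal_add (by positivity) (by positivity), ENNReal.ofReal_mul hc0,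
      ha, ENNReal.ofReal_toReal hfin]
    exact add_le_add h2 h3
  have h5 : S D N t ≤ c * a + 6 * Bd D N β t + 2 * K :=
    (ENNReal.ofReal_le_ofReal_iff (by positivity)).1 h4
  have hSpos : 0 < S D N t := by linarith
  have h6 : 5 / 8 * S D N t ≤ c * a := by linarith
  have h7 : c ≤ S D N t * (β * (L : ℝ) ^ 2 * K / 2) := by
    have i1 : (L : ℝ) * K * S D N t ≤ S D N t * (β * (L : ℝ) ^ 2 * K / 4) := by
      have j1 : (L : ℝ) * 4 ≤ β * (L : ℝ) ^ 2 := by nlinarith
      have j2 : (0 : ℝ) ≤ K * S D N t := by positivity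
      nlinarith
    have i2 : 2 * β * ((L : ℝ) * K) ^ 2 ≤ S D N t * (β * (L : ℝ) ^ 2 * K / 4) := by
      have j3 : (0 : ℝ) ≤ β * (L : ℝ) ^ 2 * K / 4 := by positivity
      have j4 := mul_le_mul_of_nonneg_right hS j3
      nlinarith
    rw [hc]
    linarith
  have h8 : 5 / 8 * S D N t ≤ S D N t * (β * (L : ℝ) ^ 2 * K / 2) * a :=
    h6.trans (mul_le_mul_of_nonneg_right h7 ha0)
  rw [div_le_iff₀ (by positivity)]
  have h9 : S D N t * (5 / 8) ≤ S D N t * (a * (β * (L : ℝ) ^ 2 * K) / 2) := by
    linarith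
  have h10 := le_of_mul_le_mul_left h9 hSpos
  linarith

end Pool.Agent.RDX
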