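import Pool.Agent.RDX.Stmts
import Pool.Agent.RDS.TLE

/-!
# Random digit sets, second part: the upper tail of the iterates at the moving points
-/

set_option autoImplicit false

namespace Pool.Agent.RDX

open MeasureTheory Set
open Pool.Agent.RDS

namespace UTXM

variable {L : ℕ} {D : Fin L → ℕ × ℕ}

/-- The exceptional directions. -/
def bad (D : Fin L → ℕ × ℕ) (a b : ℤ) (k : ℕ) : Set ℝ :=
  {t | t ∈ Icc (0 : ℝ) 1 ∧ 1 / 2 ^ k < |Y D t (k + 1) (a + t * b) - Y D t k (a + t * b)|}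

theorem cheb (a b : ℤ) (k : ℕ) {B : ℝ}
    (h : ∫⁻ t in Icc (0 : ℝ) 1, ENNReal.ofReal
      ((Y D t (k + 1) (a + t * b) - Y D t k (a + t * b)) ^ 2) ≤ ENNReal.ofReal B) :
    volume (bad D a b k) ≤ ENNReal.ofReal (B / (1 / 2 ^ k) ^ 2) := by
  have ha : (0 : ℝ) < 1 / 2 ^ k := by positivity
  have hcont : Continuous fun t : ℝ => Y D t (k + 1) (a + t * b) - Y D t k (a + t * b) :=
    (continuous_Y_pt (k + 1) a b).sub (continuous_Y_pt k a b)
  have hm : Measurable fun t : ℝ => ENNReal.ofReal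
      ((Y D t (k + 1) (a + t * b) - Y D t k (a + t * b)) ^ 2) :=
    (hcont.measurable.pow_const 2).ennreal_ofReal
  have h1 := mul_meas_ge_le_lintegral (μ := volume.restrict (Icc (0 : ℝ) 1)) hm
    (ENNReal.ofReal ((1 / 2 ^ k) ^ 2))
  have hS : MeasurableSet {t : ℝ | ENNReal.ofReal ((1 / 2 ^ k) ^ 2) ≤
      ENNReal.ofReal ((Y D t (k + 1) (a + t * b) - Y D t k (a + t * b)) ^ 2)} :=
    measurableSet_le measurable_const hm
  rw [Measure.restrict_apply hS] at h1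
  have h2 : bad D a b k ⊆ {t : ℝ | ENNReal.ofReal ((1 / 2 ^ k) ^ 2) ≤
      ENNReal.ofReal ((Y D t (k + 1) (a + t * b) - Y D t k (a + t * b)) ^ 2)} ∩
        Icc (0 : ℝ) 1 := by
    rintro t ⟨ht, h3⟩
    refine ⟨?_, ht⟩
    show ENNReal.ofReal ((1 / 2 ^ k) ^ 2) ≤
      ENNReal.ofReal ((Y D t (k + 1) (a + t * b) - Y D t k (a + t * b)) ^ 2)
    refine ENNReal.ofReal_le_ofReal ?_
    rw [← sq_abs (Y D t (k + 1) (a + t * b) - Y D t k (a + t * b))]
    exact pow_le_pow_left₀ ha.le h3.le 2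
  have hpos : (0 : ℝ) < (1 / 2 ^ k) ^ 2 := by positivity
  have h4 : ENNReal.ofReal ((1 / 2 ^ k) ^ 2) * volume (bad D a b k) ≤ ENNReal.ofReal B :=
    (mul_le_mul_right (measure_mono h2) _).trans (h1.trans h)
  rw [ENNReal.ofReal_div_of_pos hpos, ENNReal.le_div_iff_mul_le
    (Or.inl (ENNReal.ofReal_pos.2 hpos).ne') (Or.inl ENNReal.ofReal_ne_top), mul_comm]
  exact h4

theorem bad_le_one (a b : ℤ) (k : ℕ) : volume (bad D a b k) ≤ 1 := by
  have h : bad D a b k ⊆ Icc (0 : ℝ) 1 := fun t ht => ht.1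
  refine (measure_mono h).trans ?_
  rw [Real.volume_Icc]
  simp

/-- The arithmetic of the Chebyshev bound. -/
theorem arith {m K C0 l e : ℝ} (_hl : 0 < l) (hM : 1 ≤ m) (hK : 1 ≤ K)
    (hC : 0 < C0) (he : 0 < e) (he1 : e ≤ 1) (hsq : e ^ 2 = 576 * K * m ^ 2 / l) {n r : ℕ}
    (h1 : r + 1 ≤ n) (h2 : n ≤ r + 2) :
    C0 * (2 * m) ^ (2 * n) * (9 * K / l) ^ r / (1 / 2 ^ (n + r)) ^ 2 ≤
      16 * C0 * (2 * m) ^ 4 / e ^ 2 * e ^ (n + r) := by
  obtain ⟨s, rfl, hs⟩ : ∃ s, n = r + s ∧ (s = 1 ∨ s = 2) := ⟨n - r, by omega, by omega⟩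
  have hK0 : 0 < K := by linarith
  have hm0 : 0 < m := by linarith
  have e1 : C0 * (2 * m) ^ (2 * (r + s)) * (9 * K / l) ^ r / (1 / 2 ^ (r + s + r)) ^ 2 =
      C0 * (4 ^ s * (2 * m) ^ (2 * s)) * (576 * K * m ^ 2 / l) ^ r := by
    have i1 : (576 * K * m ^ 2 / l) ^ r = 16 ^ r * (2 * m) ^ (2 * r) * (9 * K / l) ^ r := by
      rw [pow_mul, ← mul_pow, ← mul_pow]
      congr 1
      ring
    have i2 : ((2 : ℝ) ^ (r + s + r)) ^ 2 = 16 ^ r * 4 ^ s := by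
      rw [← pow_mul, show (r + s + r) * 2 = 4 * r + 2 * s by ring, pow_add, pow_mul, pow_mul]
      norm_num
    rw [i1, one_div, inv_pow, div_inv_eq_mul, i2, mul_add, pow_add]
    ring
  rw [e1, ← hsq, ← pow_mul]
  have e2 : e ^ (2 * r) ≤ e ^ (r + s + r) / e ^ 2 := by
    rw [le_div_iff₀ (by positivity), ← pow_add]
    exact pow_le_pow_of_le_one he.le he1 (by omega)
  have e3 : (4 : ℝ) ^ s * (2 * m) ^ (2 * s) ≤ 16 * (2 * m) ^ 4 := by
    refine mul_le_mul ?_ (pow_le_pow_right₀ (by linarith) (by omega)) (by positivity) (by norm_num)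
    rcases hs with rfl | rfl <;> norm_num
  calc C0 * (4 ^ s * (2 * m) ^ (2 * s)) * e ^ (2 * r)
      ≤ C0 * (16 * (2 * m) ^ 4) * (e ^ (r + s + r) / e ^ 2) :=
        mul_le_mul (mul_le_mul_of_nonneg_left e3 hC.le) e2 (by positivity) (by positivity)
    _ = _ := by ring

/-- The measure of the exceptional sets. -/
theorem vol_bad {M : ℕ} {K c C0 : ℝ} {q : ℕ} (hD : CritX D M K c q) (hC : 0 < C0) {a b : ℤ}
    (h : ∀ n r : ℕ, r + 1 ≤ n →
      ∫⁻ t in Icc (0 : ℝ) 1, ENNReal.ofReal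
          ((Y D t (n + r + 1) (a + t * b) - Y D t (n + r) (a + t * b)) ^ 2) ≤
        ENNReal.ofReal (C0 * (2 * (M : ℝ)) ^ (2 * n) * (9 * K / L) ^ r)) (k : ℕ) :
    volume (bad D a b k) ≤
      ENNReal.ofReal ((1 + 16 * C0 * (2 * (M : ℝ)) ^ 4 / the L M K ^ 2) * the L M K ^ k) := by
  have hc := hD.the_pos
  have hc' := hD.the_half
  have hM := hD.M1
  have hpos : 0 ≤ 16 * C0 * (2 * (M : ℝ)) ^ 4 / the L M K ^ 2 := by positivity
  rcases Nat.eq_zero_or_pos k with rfl | hk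
  · refine (bad_le_one a b 0).trans ?_
    rw [pow_zero, mul_one, ← ENNReal.ofReal_one]
    exact ENNReal.ofReal_le_ofReal (by linarith)
  · obtain ⟨n, r, rfl, h1, h2⟩ : ∃ n r, k = n + r ∧ r + 1 ≤ n ∧ n ≤ r + 2 :=
      ⟨k - (k - 1) / 2, (k - 1) / 2, by omega, by omega, by omega⟩
    refine (cheb a b (n + r) (h n r h1)).trans (ENNReal.ofReal_le_ofReal ?_)
    have hl : (0 : ℝ) < L := by linarith [hD.L16]
    refine (arith hl hM hD.hK hC hc (by linarith) hD.the_sq h1 h2).trans ?_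
    exact mul_le_mul_of_nonneg_right (by linarith) (by positivity)

/-- Outside the exceptional sets the iterates are bounded. -/
theorem small {m : ℝ} (hm : 1 ≤ m) {a b : ℤ} {t : ℝ}
    (ht : t ∈ Icc (0 : ℝ) 1) (hup : ∀ n : ℕ, Y D t n (a + t * b) ≤ m ^ n) {k0 : ℕ}
    (hb : ∀ k, k0 ≤ k → t ∉ bad D a b k) (n : ℕ) : Y D t n (a + t * b) ≤ m ^ k0 + 2 := by
  rcases lt_or_ge n k0 with hn | hn
  · have h1 : m ^ n ≤ m ^ k0 := pow_le_pow_right₀ hm hn.le
    have := hup n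
    linarith
  · obtain ⟨j, rfl⟩ := Nat.exists_eq_add_of_le hn
    have key : ∀ j : ℕ, Y D t (k0 + j) (a + t * b) ≤ m ^ k0 + (2 - 2 / 2 ^ j) := by
      intro j
      induction j with
      | zero => have := hup k0; norm_num at this ⊢; linarith
      | succ j ih =>
        have h2 : ¬ 1 / 2 ^ (k0 + j) <
            |Y D t (k0 + j + 1) (a + t * b) - Y D t (k0 + j) (a + t * b)| := fun h3 =>
          hb (k0 + j) (by omega) ⟨ht, h3⟩
        have h3 := not_lt.1 h2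
        have h4 := le_abs_self (Y D t (k0 + j + 1) (a + t * b) - Y D t (k0 + j) (a + t * b))
        have h5 : (1 : ℝ) / 2 ^ (k0 + j) ≤ 1 / 2 ^ j :=
          one_div_le_one_div_of_le (by positivity) (pow_le_pow_right₀ (by norm_num) (by omega))
        have h6 : (2 : ℝ) / 2 ^ j = 2 / 2 ^ (j + 1) + 1 / 2 ^ j := by
          rw [pow_succ]
          field_simp
          norm_num
        show Y D t (k0 + j + 1) (a + t * b) ≤ _
        linarith
    have := key j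
    have h7 : (0 : ℝ) ≤ 2 / 2 ^ j := by positivity
    linarith

/-- The trivial bound, from ND4. -/
theorem up (hND : Stmt_ND4) {M : ℕ} {K c : ℝ} {q : ℕ} (hD : CritX D M K c q) {t : ℝ}
    (ht : t ∈ Icc (0 : ℝ) 1) (n : ℕ) (x : ℝ) : Y D t n x ≤ (2 * (M : ℝ)) ^ n := by
  have h1 := hND D hD.toOk M hD.deg t ⟨by linarith [ht.1], by linarith [ht.2]⟩ n x
  refine le_trans ?_ h1
  exact iter_mono Psi_le_ind t n x

end UTXM

open UTXM in
theorem UTX_thm : Stmt_UTX := by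
  intro hND L D M K c q hD hst
  obtain ⟨C0, hC0, h⟩ := hst
  have hc := hD.the_pos
  have hc' := hD.the_half
  have hM := hD.M1
  set B : ℝ := 1 + 16 * C0 * (2 * (M : ℝ)) ^ 4 / the L M K ^ 2 with hBdef
  have hB : 0 < B := by positivity
  set F : Finset (ℤ × ℤ) := ((Finset.Icc (-(L : ℤ) ^ 2) ((L : ℤ) ^ 2)) ×ˢ
    (Finset.Icc (-(L : ℤ) ^ 2) ((L : ℤ) ^ 2))).filter fun p => 2 ≤ |p.2| with hF
  refine ⟨((F.card : ℝ) + 1) * (2 * B), by positivity, fun k0 _ => ?_⟩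
  have hsub : {t : ℝ | t ∈ Icc (0 : ℝ) 1 ∧ t ∉ GdA D ((2 * (M : ℝ)) ^ k0 + 2)} ⊆
      ⋃ p ∈ F, ⋃ j : ℕ, bad D p.1 p.2 (k0 + j) := by
    rintro t ⟨ht, h2⟩
    by_contra h3
    simp only [mem_iUnion, not_exists] at h3
    refine h2 ⟨ht, fun a b ha hb hb' m => ?_⟩
    have hmem : (a, b) ∈ F := by
      rw [hF, Finset.mem_filter, Finset.mem_product, Finset.mem_Icc, Finset.mem_Icc]
      exact ⟨⟨abs_le.1 ha, abs_le.1 hb'⟩, hb⟩
    refine small (by linarith) ht (fun n => up hND hD ht n _) (k0 := k0) (fun k hk => ?_) m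
    obtain ⟨j, rfl⟩ := Nat.exists_eq_add_of_le hk
    exact h3 (a, b) hmem j
  have hone : ∀ p ∈ F, volume (⋃ j : ℕ, bad D p.1 p.2 (k0 + j)) ≤
      ENNReal.ofReal (2 * B * the L M K ^ k0) := by
    intro p hp
    rw [hF, Finset.mem_filter, Finset.mem_product, Finset.mem_Icc, Finset.mem_Icc] at hp
    have h1 := vol_bad hD hC0 (h p.1 p.2 hp.2 (abs_le.2 hp.1.2))
    calc volume (⋃ j : ℕ, bad D p.1 p.2 (k0 + j))
        ≤ ∑' j : ℕ, volume (bad D p.1 p.2 (k0 + j)) := measure_iUnion_le _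
      _ ≤ ∑' j : ℕ, ENNReal.ofReal (B * the L M K ^ (k0 + j)) :=
          ENNReal.tsum_le_tsum fun j => h1 (k0 + j)
      _ ≤ _ := TLEM.tsum_bound hc hc' hB.le k0
  calc volume {t : ℝ | t ∈ Icc (0 : ℝ) 1 ∧ t ∉ GdA D ((2 * (M : ℝ)) ^ k0 + 2)}
      ≤ volume (⋃ p ∈ F, ⋃ j : ℕ, bad D p.1 p.2 (k0 + j)) := measure_mono hsub
    _ ≤ ∑ p ∈ F, volume (⋃ j : ℕ, bad D p.1 p.2 (k0 + j)) := measure_biUnion_finset_le _ _
    _ ≤ ∑ _p ∈ F, ENNReal.ofReal (2 * B * the L M K ^ k0) := Finset.sum_le_sum hone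
    _ = ENNReal.ofReal ((F.card : ℝ) * (2 * B * the L M K ^ k0)) := by
        rw [Finset.sum_const, nsmul_eq_mul, ENNReal.ofReal_mul (Nat.cast_nonneg _),
          ENNReal.ofReal_natCast]
    _ ≤ _ := by
        refine ENNReal.ofReal_le_ofReal ?_
        have : 0 ≤ 2 * B * the L M K ^ k0 := by positivity
        nlinarith

end Pool.Agent.RDX
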