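import Pool.Agent.RDS.All
import Pool.Agent.RDX.ND4
import Pool.Agent.RDX.SHR
import Pool.Agent.RDX.PSX
import Pool.Agent.RDX.PBX
import Pool.Agent.RDX.DRX
import Pool.Agent.RDX.RTX
import Pool.Agent.RDX.SPX
import Pool.Agent.RDX.UTX
import Pool.Agent.RDX.GST
import Pool.Agent.RDX.GS2
import Pool.Agent.RDX.MOM
import Pool.Agent.RDX.PRX
import Pool.Agent.RDX.OPQ
import Pool.Agent.RDX.BDX
import Pool.Agent.RDX.EXC
import Pool.Agent.RDX.ST2
import Pool.Agent.RDX.DC2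
import Pool.Agent.RDX.IN2
import Pool.Agent.RDX.MEN
import Pool.Agent.RDX.ROP
import Pool.Agent.RDX.AS2
import Pool.Agent.RDX.RN2
import Pool.Agent.RDX.CRX
import Pool.Agent.RDX.FNX

/-!
# Random digit sets, second part: assembly
-/

set_option autoImplicit false

namespace Pool.Agent.RDX

open Pool.Agent.RDS

theorem final : Stmt_FNX :=
  FNX_thm
    (CRX_thm CSH_thm EXP_thm PSI_thm DER_thm PAR_thm LEMF_thm LEMG_thm (PSB_thm LEMG_thm PSI_thm)
      RATE_thm NOD_thm STEP_thm (TLE_thm NOD_thm) AUT_thm TLS_thm VIT_thm REC_thm GEO_thm FAV_thm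
      CONT_thm CAP_thm
      ND4_thm SHR_thm PSX_thm (PBX_thm LEMG_thm PSX_thm) DRX_thm RTX_thm SPX_thm UTX_thm GST_thm
      GS2_thm MOM_thm
      PRX_thm OPQ_thm BDX_thm EXC_thm ST2_thm DC2_thm IN2_thm MEN_thm)
    (RN2_thm RC_thm RG_thm RU_thm RS_thm RH_thm RD_thm RE_thm RL_thm AS2_thm ROP_thm)
    RSY_thm RSB_thm

end Pool.Agent.RDX
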