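import Pool.Agent.RDX.Defs

/-!
# Random digit sets, second part: basic facts
-/

set_option autoImplicit false

namespace Pool.Agent.RDX

open MeasureTheory Set
open Pool.Agent.RDS

variable {L : ℕ} {D : Fin L → ℕ × ℕ}

/-! ### The base function -/

theorem Psi_nonneg (x : ℝ) : 0 ≤ Psi x := Real.smoothTransition.nonneg _

theorem Psi_le_one (x : ℝ) : Psi x ≤ 1 := Real.smoothTransition.le_one _

theorem Psi_even (x : ℝ) : Psi (-x) = Psi x := by unfold Psi; rw [neg_sq]

theorem Psi_eq_one {x : ℝ} (hx : |x| ≤ 3) : Psi x = 1 := by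
  unfold Psi
  refine Real.smoothTransition.one_of_one_le ?_
  rw [le_div_iff₀ (by norm_num), one_mul]
  have h1 : x ^ 2 ≤ 3 ^ 2 := sq_le_sq' (by linarith [neg_abs_le x]) (by
    linarith [le_abs_self x])
  linarith

theorem Psi_eq_zero {x : ℝ} (hx : 7 / 2 ≤ |x|) : Psi x = 0 := by
  unfold Psi
  refine Real.smoothTransition.zero_of_nonpos ?_
  refine div_nonpos_of_nonpos_of_nonneg ?_ (by norm_num)
  have h1 : (7 / 2) ^ 2 ≤ |x| ^ 2 := by nlinarith [abs_nonneg x]
  rw [sq_abs] at h1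
  linarith

theorem contDiff_Psi (n : ℕ∞) : ContDiff ℝ n Psi := by
  unfold Psi
  exact Real.smoothTransition.contDiff.comp (by fun_prop)

theorem continuous_Psi : Continuous Psi := (contDiff_Psi 0).continuous

theorem hasCompactSupport_Psi : HasCompactSupport Psi := by
  refine HasCompactSupport.intro (isCompact_Icc (a := (-4 : ℝ)) (b := 4)) fun x hx => ?_
  refine Psi_eq_zero ?_
  by_contra h
  push Not at h
  exact hx (abs_le.1 (by linarith))

theorem ind_le_Psi (x : ℝ) : ind 3 x ≤ Psi x := by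
  by_cases h : |x| ≤ 3
  · rw [Psi_eq_one h]; exact ind_le_one _ _
  · rw [ind_of_lt (not_le.1 h)]; exact Psi_nonneg x

theorem Psi_le_ind (x : ℝ) : Psi x ≤ ind 4 x := by
  by_cases h : |x| ≤ 4
  · rw [ind_of_le h]; exact Psi_le_one x
  · rw [Psi_eq_zero (by linarith [not_le.1 h])]; exact ind_nonneg _ x

theorem tent_le {t : ℝ} (_ht : 0 ≤ t) (ht1 : t ≤ 1) (x : ℝ) : tent t x ≤ 2 * Psi x := by
  unfold tent
  by_cases h : |x| ≤ 3
  · rw [Psi_eq_one h]
    refine max_le ?_ (by norm_num)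
    linarith [abs_nonneg x]
  · have h1 := Psi_nonneg x
    refine max_le ?_ (by linarith)
    linarith [not_le.1 h]

/-! ### The iterates -/

theorem Y_zero (t x : ℝ) : Y D t 0 x = Psi x := rfl

theorem Y_nonneg (t : ℝ) (n : ℕ) (x : ℝ) : 0 ≤ Y D t n x := iter_nonneg Psi_nonneg t n x

theorem iter_Y (t : ℝ) (j n : ℕ) : (T D t)^[j] (Y D t n) = Y D t (j + n) := by
  funext x
  unfold Y
  rw [iter_add_apply]

theorem continuous_Y (n : ℕ) : Continuous fun q : ℝ × ℝ => Y D q.1 n q.2 :=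
  continuous_iter_joint continuous_Psi n

theorem continuous_Y_pt (n : ℕ) (a b : ℝ) : Continuous fun t : ℝ => Y D t n (a + t * b) :=
  (continuous_Y n).comp (f := fun t : ℝ => (t, a + t * b)) (by fun_prop)

theorem measurableSet_Gd (a b : ℤ) (H : ℝ) : MeasurableSet (Gd D a b H) := by
  have : Gd D a b H = Icc (0 : ℝ) 1 ∩ ⋂ m : ℕ, {t | Y D t m (a + t * b) ≤ H} := by
    ext t
    simp only [Gd, mem_ofPred_eq, mem_inter_iff, mem_iInter]
  rw [this]
  exact measurableSet_Icc.inter (MeasurableSet.iInter fun m =>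
    (isClosed_le (continuous_Y_pt m a b) continuous_const).measurableSet)

theorem measurableSet_GdA (H : ℝ) : MeasurableSet (GdA D H) := by
  have : GdA D H = Icc (0 : ℝ) 1 ∩ ⋂ (a : ℤ) (b : ℤ) (_ : |a| ≤ (L : ℤ) ^ 2) (_ : 2 ≤ |b|)
      (_ : |b| ≤ (L : ℤ) ^ 2) (m : ℕ), {t | Y D t m (a + t * b) ≤ H} := by
    ext t
    simp only [GdA, mem_ofPred_eq, mem_inter_iff, mem_iInter]
  rw [this]
  exact measurableSet_Icc.inter (MeasurableSet.iInter fun a => MeasurableSet.iInter fun b =>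
    MeasurableSet.iInter fun _ => MeasurableSet.iInter fun _ => MeasurableSet.iInter fun _ =>
      MeasurableSet.iInter fun m =>
        (isClosed_le (continuous_Y_pt m a b) continuous_const).measurableSet)

theorem GdA_subset {a b : ℤ} (ha : |a| ≤ (L : ℤ) ^ 2) (hb : 2 ≤ |b|) (hb' : |b| ≤ (L : ℤ) ^ 2)
    (H : ℝ) : GdA D H ⊆ Gd D a b H := fun _ ht => ⟨ht.1, ht.2 a b ha hb hb'⟩

theorem ps_nonneg (β t : ℝ) (m : ℕ) (x : ℝ) : 0 ≤ ps D β t m x := by
  unfold ps
  split
  · exact Y_nonneg _ _ _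
  · exact le_rfl

theorem Y_le_ps (β t : ℝ) (m : ℕ) (x : ℝ) : Y D t m x ≤ max β 0 + ps D β t m x := by
  unfold ps
  split
  · linarith [le_max_right β 0]
  · rename_i h
    linarith [not_lt.1 h, le_max_left β 0]

theorem measurable_ps (β : ℝ) (m : ℕ) : Measurable fun q : ℝ × ℝ => ps D β q.1 m q.2 := by
  unfold ps
  exact Measurable.ite (measurableSet_lt measurable_const (continuous_Y m).measurable)
    (continuous_Y m).measurable measurable_const

theorem continuous_pr {n : ℕ} (w : Wd L n) : Continuous fun t => pr D t w := by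
  unfold pr; fun_prop

theorem Bd_nonneg (N : ℕ) (β t : ℝ) : 0 ≤ Bd D N β t := by
  unfold Bd
  refine Finset.sum_nonneg fun n _ => div_nonneg (Finset.sum_nonneg fun w _ => ?_) (by positivity)
  split
  · exact le_rfl
  · exact ps_nonneg _ _ _ _

theorem measurable_Bd (N : ℕ) (β : ℝ) : Measurable fun t => Bd D N β t := by
  unfold Bd
  refine Finset.measurable_sum _ fun n _ => (Finset.measurable_sum _ fun w _ => ?_).div_const _
  by_cases h : w.1 = w.2
  · simp only [h, if_true]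
    exact measurable_const
  · simp only [h, if_false]
    have h1 : Continuous fun t : ℝ => (L : ℝ) ^ (n + 1) * (pr D t w.1 - pr D t w.2) :=
      continuous_const.mul ((continuous_pr w.1).sub (continuous_pr w.2))
    exact (measurable_ps (D := D) β (N - (n + 1))).comp
      (f := fun t : ℝ => (t, (L : ℝ) ^ (n + 1) * (pr D t w.1 - pr D t w.2)))
      (measurable_id.prodMk h1.measurable)

/-! ### Numerical consequences of the criterion -/

section
variable {M : ℕ} {K c : ℝ} {q : ℕ}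

theorem CritX.M1 (h : CritX D M K c q) : (1 : ℝ) ≤ M := by exact_mod_cast h.hM

theorem CritX.big (h : CritX D M K c q) : 72 * K * (4 * (M : ℝ)) ^ 4 ≤ L := by
  have h1 := h.M1
  have h2 := h.hK
  refine le_trans ?_ h.key2
  refine mul_le_mul_of_nonneg_left ?_ (by linarith)
  exact pow_le_pow_right₀ (by linarith) (by have := h.hq; omega)

theorem CritX.L16 (h : CritX D M K c q) : (16 : ℝ) ≤ L := by
  have h1 := h.M1
  have h2 := h.hK
  have h3 : (1 : ℝ) ≤ (4 * (M : ℝ)) ^ 4 := one_le_pow₀ (by linarith)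
  have h4 := h.big
  nlinarith

theorem CritX.L16' (h : CritX D M K c q) : 16 ≤ L := by exact_mod_cast h.L16

theorem kap_nonneg (M : ℕ) (K : ℝ) : 0 ≤ kap L M K := Real.sqrt_nonneg _
theorem the_nonneg (M : ℕ) (K : ℝ) : 0 ≤ the L M K := Real.sqrt_nonneg _

theorem CritX.kap_pos (h : CritX D M K c q) : 0 < kap L M K := by
  have h1 := h.M1
  have h2 := h.hK
  have h3 := h.L16
  unfold kap
  exact Real.sqrt_pos.2 (by positivity)

theorem CritX.the_pos (h : CritX D M K c q) : 0 < the L M K := by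
  have h1 := h.M1
  have h2 := h.hK
  have h3 := h.L16
  unfold the
  exact Real.sqrt_pos.2 (by positivity)

theorem CritX.kap_sq (h : CritX D M K c q) : kap L M K ^ 2 = 18 * K * M / L := by
  have h1 := h.M1
  have h2 := h.hK
  have h3 := h.L16
  unfold kap
  exact Real.sq_sqrt (by positivity)

theorem CritX.the_sq (h : CritX D M K c q) : the L M K ^ 2 = 576 * K * (M : ℝ) ^ 2 / L := by
  have h1 := h.M1
  have h2 := h.hK
  have h3 := h.L16
  unfold the
  exact Real.sq_sqrt (by positivity)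

theorem CritX.kap_small (h : CritX D M K c q) :
    2 ^ (q - 1) * (2 * (M : ℝ)) ^ (q - 2) * kap L M K ≤ 1 / 2 := by
  have h1 := h.M1
  have h2 := h.hK
  have h3 := h.L16
  have hL : (0 : ℝ) < L := by linarith
  have h5 := h.key2
  obtain ⟨s, hs⟩ : ∃ s, q = s + 2 := ⟨q - 2, by have := h.hq; omega⟩
  subst hs
  rw [show s + 2 - 1 = s + 1 from rfl, show s + 2 - 2 = s from rfl]
  have h6 : 0 ≤ 2 ^ (s + 1) * (2 * (M : ℝ)) ^ s * kap L M K := by
    have := kap_nonneg (L := L) M K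
    positivity
  have h7 : (2 ^ (s + 1) * (2 * (M : ℝ)) ^ s * kap L M K) ^ 2 ≤ (1 / 2) ^ 2 := by
    rw [mul_pow, h.kap_sq]
    have e : (2 ^ (s + 1) * (2 * (M : ℝ)) ^ s) ^ 2 * (18 * K * M / L) =
        ((2 ^ (s + 1) * (2 * (M : ℝ)) ^ s) ^ 2 * M * 18 * K) / L := by ring
    rw [e, div_le_iff₀ hL]
    have e2 : (2 ^ (s + 1) * (2 * (M : ℝ)) ^ s) ^ 2 = 4 * (4 * (M : ℝ)) ^ (2 * s) := by
      have i1 : (4 * (M : ℝ)) ^ (2 * s) = 2 ^ (2 * s) * (2 * (M : ℝ)) ^ (2 * s) := by
        rw [← mul_pow]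
        congr 1
        ring
      have i2 : (2 ^ (s + 1) * (2 * (M : ℝ)) ^ s) ^ 2 =
          2 ^ (2 * (s + 1)) * (2 * (M : ℝ)) ^ (2 * s) := by
        rw [mul_pow, ← pow_mul, ← pow_mul, mul_comm (s + 1) 2, mul_comm s 2]
      rw [i1, i2, show 2 * (s + 1) = 2 * s + 2 from by ring, pow_add]
      ring
    rw [e2]
    have e3 : (4 * (M : ℝ)) ^ (2 * (s + 2)) = (4 * (M : ℝ)) ^ (2 * s) * (4 * (M : ℝ)) ^ 4 := by
      rw [← pow_add]; congr 1
    rw [e3] at h5
    have h8 : (0 : ℝ) < (4 * (M : ℝ)) ^ (2 * s) := by positivity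
    have h9 : (M : ℝ) * 4 ≤ (4 * (M : ℝ)) ^ 4 := by
      have : (4 * (M : ℝ)) ^ 1 ≤ (4 * (M : ℝ)) ^ 4 := pow_le_pow_right₀ (by linarith) (by norm_num)
      linarith
    have h10 : 0 ≤ K * (4 * (M : ℝ)) ^ (2 * s) := by positivity
    have h11 := mul_le_mul_of_nonneg_left h9 h10
    nlinarith
  exact abs_le_of_sq_le_sq' h7 (by norm_num) |>.2

theorem CritX.kap_le (h : CritX D M K c q) : kap L M K ≤ 1 / 4 := by
  have h1 := h.M1
  have h6 := h.kap_small
  have h7 := kap_nonneg (L := L) M K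
  have h8 : (2 : ℝ) ≤ 2 ^ (q - 1) := by
    have : (2 : ℝ) ^ 1 ≤ 2 ^ (q - 1) := pow_le_pow_right₀ (by norm_num) (by have := h.hq; omega)
    linarith
  have h9 : (1 : ℝ) ≤ (2 * (M : ℝ)) ^ (q - 2) := one_le_pow₀ (by linarith)
  have h10 : (2 : ℝ) ≤ 2 ^ (q - 1) * (2 * (M : ℝ)) ^ (q - 2) := by nlinarith
  nlinarith

theorem CritX.rate_le (h : CritX D M K c q) : 9 * K / L ≤ kap L M K ^ 2 := by
  have h1 := h.M1
  have h2 := h.hK
  have h3 := h.L16
  rw [h.kap_sq]
  refine div_le_div_of_nonneg_right ?_ (by linarith)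
  nlinarith

theorem CritX.rate_mul (h : CritX D M K c q) : 2 * (M : ℝ) * (9 * K / L) = kap L M K ^ 2 := by
  rw [h.kap_sq]
  ring

theorem CritX.the_le (h : CritX D M K c q) : the L M K * (2 * M) ≤ 1 := by
  have h1 := h.M1
  have h2 := h.hK
  have h3 := h.L16
  have hL : (0 : ℝ) < L := by linarith
  have h5 := h.big
  have h7 : (the L M K * (2 * M)) ^ 2 ≤ 1 ^ 2 := by
    rw [mul_pow, h.the_sq]
    have e : 576 * K * (M : ℝ) ^ 2 / L * (2 * (M : ℝ)) ^ 2 = (2304 * K * (M : ℝ) ^ 4) / L := by ring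
    rw [e, one_pow, div_le_iff₀ hL, one_mul]
    have e2 : 72 * K * (4 * (M : ℝ)) ^ 4 = 18432 * (K * (M : ℝ) ^ 4) := by ring
    rw [e2] at h5
    have : 0 ≤ K * (M : ℝ) ^ 4 := by positivity
    nlinarith
  exact abs_le_of_sq_le_sq' h7 (by norm_num) |>.2

theorem CritX.the_half (h : CritX D M K c q) : the L M K ≤ 1 / 2 := by
  have h1 := h.M1
  have h2 := h.the_le
  have h3 := the_nonneg (L := L) M K
  nlinarith

end

end Pool.Agent.RDX
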