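import Pool.Agent.RDX.Stmts

/-!
# Random digit sets, second part: module DC2, the dichotomy
-/

set_option autoImplicit false

namespace Pool.Agent.RDX

open MeasureTheory Set
open Pool.Agent.RDS

namespace DC2M

variable {L : ℕ} {D : Fin L → ℕ × ℕ}

theorem exp_ge : (3 : ℝ) ≤ Real.exp (11 / 10) := by
  refine le_trans ?_ (Real.sum_le_exp_of_nonneg (by norm_num : (0 : ℝ) ≤ 11 / 10) 6)
  simp only [Finset.sum_range_succ, Finset.sum_range_zero, Nat.factorial]
  norm_num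

/-- The recursion for one stopping scale. -/
theorem one_scale (hvit : Stmt_VIT) (hrec : Stmt_REC) (hstop : Stmt_ST2) (hD : Ok D)
    (N K β : ℕ) (t : ℝ) (ht0 : 0 ≤ t) (ht1 : t ≤ 1) (hK : 2 ≤ K) (hβ : 1 ≤ β)
    (hS : 8 * (K : ℝ) ≤ S D N t) (hBd : Bd D N β t ≤ 1 / 4) :
    ∃ η : ℝ, 1 / (20 * (β : ℝ) * (L : ℝ) ^ 2) ≤ η ∧ η ≤ 1 ∧
      ∀ M : ℕ, len D (N + M) t ≤ 5 / K * η + (1 - η) * len D M t := by
  have ha := hstop D hD N K (β : ℝ) t ht0 ht1 hK (by exact_mod_cast hβ) hS hBd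
  obtain ⟨B, hB, hdis, hA⟩ := hvit D hD N K t ht0 ht1 (by omega)
  obtain ⟨η, hη1, hη2, hL⟩ := hrec D hD N K t B ht0 ht1 hB hdis
  set s : ℝ := ∑ b ∈ B, (1 : ℝ) / (L : ℝ) ^ b.1 with hs
  have hK' : (2 : ℝ) ≤ K := by exact_mod_cast hK
  have hK0 : (0 : ℝ) < K := by linarith
  have hβ0 : (0 : ℝ) < β := by exact_mod_cast (by omega : 0 < β)
  have hL0 := hD.pos
  have hs1 : 1 / ((β : ℝ) * (L : ℝ) ^ 2 * K) ≤ 20 * s := ha.trans hA
  have hη3 : 1 / (20 * (β : ℝ) * (L : ℝ) ^ 2) ≤ η := by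
    refine le_trans ?_ hη1
    have e : 1 / (20 * (β : ℝ) * (L : ℝ) ^ 2) = K * (1 / ((β : ℝ) * (L : ℝ) ^ 2 * K) / 20) := by
      field_simp
    rw [e]
    exact mul_le_mul_of_nonneg_left (by linarith) hK0.le
  refine ⟨η, hη3, hη2, fun M => ?_⟩
  have h1 := hL M
  have h2 : 5 * s ≤ 5 / K * η := by
    have : s ≤ η / K := by
      rw [le_div_iff₀ hK0]
      linarith
    calc 5 * s ≤ 5 * (η / K) := by linarith
      _ = 5 / K * η := by ring
  linarith

/-- Iteration of the recursion. -/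
theorem rec_bound (u : ℕ → ℝ) (c d η : ℝ) (hη : η ≤ 1) (h0 : u 0 ≤ c + d)
    (h : ∀ j, u (j + 1) ≤ c * η + (1 - η) * u j) (j : ℕ) : u j ≤ c + d * (1 - η) ^ j := by
  induction j with
  | zero => rw [pow_zero]; linarith
  | succ j ih =>
    have h1 := mul_le_mul_of_nonneg_left ih (sub_nonneg.2 hη)
    have h2 := h j
    have h3 : c * η + (1 - η) * (c + d * (1 - η) ^ j) = c + d * (1 - η) ^ (j + 1) := by
      rw [pow_succ]; ring
    linarith

/-- From scale `i` to scale `i + 1`. -/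
theorem scale_step (hvit : Stmt_VIT) (hrec : Stmt_REC) (hstop : Stmt_ST2) (hD : Ok D)
    (N K M β : ℕ) (t : ℝ) (ht0 : 0 ≤ t) (ht1 : t ≤ 1) (hK : 2 ≤ K) (hβ : 1 ≤ β)
    (hS : 8 * (K : ℝ) ≤ S D N t) (hBd : Bd D N β t ≤ 1 / 4)
    (hM : len D (M * N) t ≤ 20 / K) : len D ((M + 22 * β * L ^ 2) * N) t ≤ 10 / K := by
  obtain ⟨η, hη3, hη2, hL⟩ := one_scale hvit hrec hstop hD N K β t ht0 ht1 hK hβ hS hBd
  have hK' : (2 : ℝ) ≤ K := by exact_mod_cast hK
  have hK0 : (0 : ℝ) < K := by linarith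
  have hβ0 : (0 : ℝ) < β := by exact_mod_cast (by omega : 0 < β)
  have hL0 := hD.pos
  have hstep : ∀ j : ℕ, len D ((M + (j + 1)) * N) t ≤
      5 / K * η + (1 - η) * len D ((M + j) * N) t := by
    intro j
    have h1 := hL ((M + j) * N)
    have e : N + (M + j) * N = (M + (j + 1)) * N := by ring
    rw [e] at h1
    exact h1
  have hu := rec_bound (fun j => len D ((M + j) * N) t) (5 / K) (15 / K) η hη2 (by
    have e : (5 : ℝ) / K + 15 / K = 20 / K := by ring
    rw [e]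
    exact hM) hstep (22 * β * L ^ 2)
  have hpow : (1 - η) ^ (22 * β * L ^ 2) ≤ 1 / 3 := by
    have h1 : 1 - η ≤ Real.exp (-η) := by
      have := Real.add_one_le_exp (-η)
      linarith
    calc (1 - η) ^ (22 * β * L ^ 2) ≤ Real.exp (-η) ^ (22 * β * L ^ 2) :=
          pow_le_pow_left₀ (sub_nonneg.2 hη2) h1 _
      _ = Real.exp ((22 * β * L ^ 2 : ℕ) * (-η)) := by rw [← Real.exp_nat_mul]
      _ ≤ Real.exp (-(11 / 10)) := by
          apply Real.exp_le_exp.2
          have h3 : (22 * (β : ℝ) * (L : ℝ) ^ 2) * (1 / (20 * (β : ℝ) * (L : ℝ) ^ 2)) ≤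
              22 * (β : ℝ) * (L : ℝ) ^ 2 * η :=
            mul_le_mul_of_nonneg_left hη3 (by positivity)
          have h4 : (22 * (β : ℝ) * (L : ℝ) ^ 2) * (1 / (20 * (β : ℝ) * (L : ℝ) ^ 2)) = 11 / 10 := by
            field_simp
            norm_num
          rw [h4] at h3
          push_cast
          linarith
      _ ≤ 1 / 3 := by
          rw [Real.exp_neg, ← one_div]
          exact one_div_le_one_div_of_le (by norm_num) exp_ge
  have h5 : (15 : ℝ) / K * (1 - η) ^ (22 * β * L ^ 2) ≤ 15 / K * (1 / 3) :=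
    mul_le_mul_of_nonneg_left hpow (by positivity)
  calc len D ((M + 22 * β * L ^ 2) * N) t ≤ 5 / K + 15 / K * (1 - η) ^ (22 * β * L ^ 2) := hu
    _ ≤ 5 / K + 15 / K * (1 / 3) := by linarith
    _ = 10 / K := by ring

end DC2M

open DC2M

theorem DC2_thm : Stmt_DC2 := by
  intro hvit hrec hstop L D hD N k β t ht0 ht1 _ hβ hS hBd n hn
  have key : ∀ i : ℕ, i ≤ k → len D ((22 * β * L ^ 2 * i) * N) t ≤ 10 / 2 ^ i := by
    intro i
    induction i with
    | zero =>
      intro _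
      have h1 := len_le hD ((22 * β * L ^ 2 * 0) * N) ht0
      rw [pow_zero, div_one]
      linarith
    | succ i ih =>
      intro hi
      have hj2 := ih (by omega)
      have hS' : 8 * ((2 ^ (i + 1) : ℕ) : ℝ) ≤ S D N t := by
        refine le_trans ?_ hS
        have h1 : (2 : ℝ) ^ (i + 1) ≤ 2 ^ k := pow_le_pow_right₀ (by norm_num) hi
        push_cast
        linarith
      have h2 := scale_step hvit hrec hstop hD N (2 ^ (i + 1)) (22 * β * L ^ 2 * i) β t ht0 ht1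
        (by
          calc 2 = 2 ^ 1 := (pow_one 2).symm
            _ ≤ 2 ^ (i + 1) := Nat.pow_le_pow_right (by norm_num) (by omega)) hβ hS' hBd (by
          refine hj2.trans (le_of_eq ?_)
          push_cast
          rw [pow_succ]
          field_simp
          norm_num)
      have e : 22 * β * L ^ 2 * (i + 1) = 22 * β * L ^ 2 * i + 22 * β * L ^ 2 := by ring
      rw [e]
      push_cast at h2
      exact h2
  have hj2 := key k le_rfl
  have hjn : (22 * β * L ^ 2 * k) * N ≤ n := by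
    rw [mul_comm]
    exact hn
  exact (len_anti hD ht0 hjn).trans hj2

end Pool.Agent.RDX
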