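import Pool.Agent.RDS.Stmts

/-!
# Random digit sets, second part: definitions

See `Stmts.lean` for the theorem and the plan of the proof.
-/

set_option autoImplicit false

namespace Pool.Agent.RDX

open MeasureTheory Set
open Pool.Agent.RDS

variable {L : ℕ}

/-- A smooth even function, `1` for `|x| ≤ 3`, `0` for `|x| ≥ 7/2`. -/
noncomputable def Psi (x : ℝ) : ℝ := Real.smoothTransition ((49 / 4 - x ^ 2) / (49 / 4 - 9))

/-- The iterates of the operator at `Psi`. -/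
noncomputable def Y (D : Fin L → ℕ × ℕ) (t : ℝ) (n : ℕ) (x : ℝ) : ℝ := (T D t)^[n] Psi x

/-- `T Psi - Psi` and its derivatives in `y` and in `t`. -/
noncomputable def p0 (D : Fin L → ℕ × ℕ) (t y : ℝ) : ℝ := T D t Psi y - Psi y
noncomputable def p1 (D : Fin L → ℕ × ℕ) (t y : ℝ) : ℝ :=
  ∑ p : Fin L × Fin L, deriv Psi ((L : ℝ) * y - dt D t p) - deriv Psi y
noncomputable def p2 (D : Fin L → ℕ × ℕ) (t y : ℝ) : ℝ :=
  (∑ p : Fin L × Fin L, -(dy D p : ℝ) * deriv Psi ((L : ℝ) * y - dt D t p)) / (L : ℝ)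

/-- The increments `T^(r+1) Psi - T^r Psi`. -/
noncomputable def gr (D : Fin L → ℕ × ℕ) (r : ℕ) (x t : ℝ) : ℝ :=
  (T D t)^[r + 1] Psi x - (T D t)^[r] Psi x

/-- The derivative of the increments in the direction. -/
noncomputable def dgr (D : Fin L → ℕ × ℕ) (r : ℕ) (x t : ℝ) : ℝ := deriv (fun τ => gr D r x τ) t

/-- The square norm of the increments and of their derivatives, scaled. -/
noncomputable def Nr (D : Fin L → ℕ × ℕ) (r : ℕ) (t : ℝ) : ENNReal :=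
  ∫⁻ x, ENNReal.ofReal (gr D r x t ^ 2 + dgr D r x t ^ 2 / (L : ℝ) ^ (2 * r))

/-- The mean square of the increments decreases. -/
def Rat (D : Fin L → ℕ × ℕ) (K : ℝ) : Prop := ∃ C : ℝ, 0 < C ∧ ∀ r : ℕ,
  ∫⁻ t in Icc (-1 : ℝ) 2, Nr D r t ≤ ENNReal.ofReal (C * (9 * K / L) ^ r)

/-- The criterion, with a stronger largeness condition on `L`. -/
structure CritX (D : Fin L → ℕ × ℕ) (M : ℕ) (K c : ℝ) (q : ℕ) : Prop extends Crit D M K c where
  hq : 2 ≤ q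
  key2 : 72 * K * (4 * (M : ℝ)) ^ (2 * q) ≤ L

/-- No digits near opposite sides of the box which nearly face each other. -/
def Opp (D : Fin L → ℕ × ℕ) : Prop := ∀ p : Fin L × Fin L,
  ¬ (((L : ℤ) - 1 ≤ |dy D p| ∧ |dx D p| ≤ 5) ∨ ((L : ℤ) - 5 ≤ |dx D p| ∧ |dy D p| ≤ 1) ∨
    ((L : ℤ) - 5 ≤ |dx D p| ∧ (L : ℤ) - 1 ≤ |dy D p|))

/-- The two small ratios. -/
noncomputable def kap (L M : ℕ) (K : ℝ) : ℝ := √(18 * K * M / L)
noncomputable def the (L M : ℕ) (K : ℝ) : ℝ := √(576 * K * (M : ℝ) ^ 2 / L)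

/-- The directions in which the values of all the iterates at the moving point `a + t b` are at most
`H`. -/
def Gd (D : Fin L → ℕ × ℕ) (a b : ℤ) (H : ℝ) : Set ℝ :=
  {t | t ∈ Icc (0 : ℝ) 1 ∧ ∀ m : ℕ, Y D t m (a + t * b) ≤ H}

/-- The same for all the moving points of slope at least `2`. -/
def GdA (D : Fin L → ℕ × ℕ) (H : ℝ) : Set ℝ :=
  {t | t ∈ Icc (0 : ℝ) 1 ∧ ∀ a b : ℤ, |a| ≤ (L : ℤ) ^ 2 → 2 ≤ |b| → |b| ≤ (L : ℤ) ^ 2 →
    ∀ m : ℕ, Y D t m (a + t * b) ≤ H}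

open Classical in
/-- The value of the iterate if it exceeds `β`. -/
noncomputable def ps (D : Fin L → ℕ × ℕ) (β t : ℝ) (m : ℕ) (x : ℝ) : ℝ :=
  if β < Y D t m x then Y D t m x else 0

open Classical in
/-- The weight of the pairs of different squares of the generations `1, .., N` whose descendants
overlap too much. -/
noncomputable def Bd (D : Fin L → ℕ × ℕ) (N : ℕ) (β t : ℝ) : ℝ :=
  ∑ n ∈ Finset.range N, (∑ w : Wd L (n + 1) × Wd L (n + 1),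
    if w.1 = w.2 then 0 else ps D β t (N - (n + 1)) ((L : ℝ) ^ (n + 1) * (pr D t w.1 - pr D t w.2))) /
      (L : ℝ) ^ (n + 1)

/-- The two properties of the digits. -/
def PX (q : ℕ) (D : Fin L → ℕ × ℕ) : Prop := ∃ M K c, CritX D M K c q ∧ Opp D

/-- The conclusion for the digits `D`. -/
def ConcX (ε : ℝ) (D : Fin L → ℕ × ℕ) : Prop := ∃ c : ℝ, 0 < c ∧ ∀ n : ℕ, 1 ≤ n →
  c * FCC.Fav (gen D n) ≤ (n : ℝ) ^ (-1 + ε) ∧ c / √n ≤ FCC.gam (gen D n)

/-- The conclusion for a set of digits. -/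
def GoodX (ε : ℝ) (L : ℕ) (D : Finset (ℕ × ℕ)) : Prop := ∃ c : ℝ, 0 < c ∧ ∀ n : ℕ, 1 ≤ n →
  c * FCC.Fav (gens L D n) ≤ (n : ℝ) ^ (-1 + ε) ∧ c / √n ≤ FCC.gam (gens L D n)

end Pool.Agent.RDX
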