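import Pool.Agent.RDX.Basic

/-!
# Random digit sets, second part: statements and proofs

THEOREM. For every `ε > 0`, for all but a proportion `o(1)` (as `L → ∞`) of the `L`-element subsets
`D` of `{0, .., L-1}²`, the generations `E_n(D)` (`L ^ n` closed squares of side `L ^ (-n)`) satisfy
`c Fav(E_n) ≤ n^(-1+ε)` and `c n^(-1/2) ≤ γ(E_n)` for all `n ≥ 1`, with `c = c(D, ε) > 0`; so
`γ(E_n) ≥ c² n^(1/2-ε) Fav(E_n)`. (First part, `Pool/Agent/RDS`: the same with `n^(-1/2)`. The order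
`1/n` would be best possible.)

NEW IDEA. Stop at the first level `n` at which there are at least `K` squares over the `L`-adic
interval `I`. The first part bounds the second moment over `I` by `K² |I| S N` (all pairs of squares
as bad as a pair of equal ones). Now a pair `(u, v)` of different squares of generation `n` over `I`
contributes `|I| G_{N-n}(x)`, `x = L^n (pr u - pr v)`, `G_m(x) = (T^m tent)(x)`, and for most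
directions this is `≤ B = n^ε` for almost all pairs, because the increments `T^(r+1) Psi - T^r Psi`
are tiny in the mean square while the iterates are `≤ (2M)^r` everywhere, `M` a small power of `L`.
So `S N ≤ 2 K + L K |A| S N + 2 B (L K)² |A| + 8 Bd`, where `Bd` is the weight of the bad pairs, and
with `S N ≥ 8 K`, `Bd ≤ 1/4` this gives `|A| ≥ 1/(B L² K)` instead of `1/(2 L² K²)`: at each scale
`K` only `22 B L²` steps of `N` generations are needed (instead of `90 L² K`) to bring the length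
below `10/K`. With the tail estimate `|{t : S N t ≤ y}| ≤ C y/N` of the first part the mean length
is `≤ C n^(-1+ε)`.

CONVENTIONS. One module for each `Stmt_...`; a module may use all the facts of `RDS/Basic.lean` and
`RDX/Basic.lean` and, as hypotheses, the statements which its docstring names. Names without prefix
(`p0, p1, p2, gr, dgr, Nr, Rat`) are those of `RDX/Defs.lean` (with `Psi` in place of `Phi`); the rest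
(`T, dt, dx, dy, pr, f, S, len, A, Crit, Deg, ind, Tail, Stmt_EXP, ..`) is from `RDS`. All constants
`C` may depend on `L`, `D` and all the parameters before them.
-/

set_option autoImplicit false

namespace Pool.Agent.RDX

open MeasureTheory Set
open Pool.Agent.RDS

/-! ### A. Ports of the first part, with `Psi` in place of `Phi` -/

/-- ND4. As `RDS/NOD.lean`, with half width `4`: `T (ind 4) ≤ 2 M ind 4` for `t ∈ [-1,2]`: the strip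
`|L x - dt (i,j)| ≤ 4` for fixed `j` is covered by the two strips of half width `3` about
`L x + (D j)_t ± 1`; for `|x| > 4` the value is `0` because `|dt| ≤ 3 (L - 1)`. Induction. -/
def Stmt_ND4 : Prop := ∀ {L : ℕ} (D : Fin L → ℕ × ℕ), Ok D → ∀ M : ℕ, Deg D M →
  ∀ t ∈ Icc (-1 : ℝ) 2, ∀ (n : ℕ) (x : ℝ), (T D t)^[n] (ind 4) x ≤ (2 * (M : ℝ)) ^ n

/-- SHR. The supports shrink. `t ∈ [0,1]`, so `|dt| ≤ 2 (L - 1)`. If `|x| > 4` then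
`|L x - dt| > 4` (`iter_zero` with `c = 4`). If `|x| > 9/4` then `|L x - dt| > L/4 + 2 ≥ 4` (`L ≥ 16`), so
`T φ x = 0`; for `n ≥ 2` apply this to `T^(n-1) φ` (`iter_succ'`), which vanishes for `|y| > 4`. -/
def Stmt_SHR : Prop := ∀ {L : ℕ} (D : Fin L → ℕ × ℕ), Ok D → 16 ≤ L → ∀ t ∈ Icc (0 : ℝ) 1,
  ∀ φ : ℝ → ℝ, (∀ y, 4 < |y| → φ y = 0) → ∀ (n : ℕ) (x : ℝ),
    (4 < |x| → (T D t)^[n] φ x = 0) ∧ (1 ≤ n → 9 / 4 < |x| → (T D t)^[n] φ x = 0)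

/-- PSX. Port of `RDS/PSI.lean` (`Phi` replaced by `Psi`, support `|y| ≤ 4`). -/
def Stmt_PSX : Prop := ∀ {L : ℕ} (D : Fin L → ℕ × ℕ), Ok D →
  (∀ t y : ℝ, HasDerivAt (fun z => p0 D t z) (p1 D t y) y) ∧
  (∀ t y : ℝ, HasDerivAt (fun τ => p0 D τ y) (p2 D t y) t) ∧
  Continuous (fun q : ℝ × ℝ => p0 D q.1 q.2) ∧ Continuous (fun q : ℝ × ℝ => p1 D q.1 q.2) ∧
  Continuous (fun q : ℝ × ℝ => p2 D q.1 q.2) ∧
  (∀ t ∈ Icc (-1 : ℝ) 2, ∀ y, 4 < |y| → p0 D t y = 0 ∧ p1 D t y = 0 ∧ p2 D t y = 0)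

/-- PBX. Port of `RDS/PSB.lean`, from LEMG (with `R = 4`), PSX. -/
def Stmt_PBX : Prop := Stmt_LEMG → Stmt_PSX → ∀ {L : ℕ} (D : Fin L → ℕ × ℕ), Ok D →
  ∃ B : ℝ, 0 ≤ B ∧ ∀ t ∈ Icc (-1 : ℝ) 2, ∀ ω : ℝ,
    ‖FCQ.Ft (p0 D t) ω‖ ≤ B * |ω| / (1 + ω ^ 2) ∧ ‖FCQ.Ft (p1 D t) ω‖ ≤ B * |ω| / (1 + ω ^ 2) ∧
    ‖FCQ.Ft (p2 D t) ω‖ ≤ B * |ω| / (1 + ω ^ 2)

/-- DRX. Port of `RDS/DER.lean`, from PSX; support by `iter_zero` with `c = 4`. -/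
def Stmt_DRX : Prop := Stmt_PSX → ∀ {L : ℕ} (D : Fin L → ℕ × ℕ), Ok D → ∀ (r : ℕ) (ι : Type)
  [Fintype ι] (u v : ι → ℤ),
  (∀ (t : ℝ) (φ : ℝ → ℝ) (x : ℝ), (T D t)^[r] φ x =
    (∑ q, φ ((L : ℝ) ^ r * x - ((u q : ℝ) + t * (v q : ℝ)))) / (L : ℝ) ^ r) →
  (∀ x t : ℝ, HasDerivAt (fun τ => gr D r x τ) (dgr D r x t) t) ∧
  (∀ x t : ℝ, gr D r x t =
    (∑ q, p0 D t ((L : ℝ) ^ r * x - ((u q : ℝ) + t * (v q : ℝ)))) / (L : ℝ) ^ r) ∧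
  (∀ x t : ℝ, dgr D r x t =
    (∑ q, (p2 D t ((L : ℝ) ^ r * x - ((u q : ℝ) + t * (v q : ℝ))) -
      (v q : ℝ) * p1 D t ((L : ℝ) ^ r * x - ((u q : ℝ) + t * (v q : ℝ))))) / (L : ℝ) ^ r) ∧
  Continuous (fun q : ℝ × ℝ => gr D r q.1 q.2) ∧ Continuous (fun q : ℝ × ℝ => dgr D r q.1 q.2) ∧
  (∀ x : ℝ, ∀ t ∈ Icc (0 : ℝ) 1, 4 < |x| → gr D r x t = 0)

/-- RTX. Port of `RDS/RATE.lean` (the constants of LEMF with `R = 4`). -/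
def Stmt_RTX : Prop := Stmt_CSH → Stmt_EXP → Stmt_PSX → Stmt_DRX → Stmt_PAR → Stmt_LEMF →
  Stmt_LEMG → Stmt_PBX → ∀ {L : ℕ} (D : Fin L → ℕ × ℕ) (M : ℕ) (K c : ℝ), Crit D M K c → Rat D K

/-- The conclusion of SPX for `D`. -/
def StX {L : ℕ} (D : Fin L → ℕ × ℕ) (M : ℕ) (K : ℝ) : Prop := ∃ C : ℝ, 0 < C ∧
  ∀ a b : ℤ, 2 ≤ |b| → |b| ≤ (L : ℤ) ^ 2 → ∀ n r : ℕ, r + 1 ≤ n →
    ∫⁻ t in Icc (0 : ℝ) 1, ENNReal.ofReal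
        ((Y D t (n + r + 1) (a + t * b) - Y D t (n + r) (a + t * b)) ^ 2) ≤
      ENNReal.ofReal (C * (2 * (M : ℝ)) ^ (2 * n) * (9 * K / L) ^ r)

/-- SPX. Port of `RDS/STEP.lean` with the moving point `a + t b` in place of `dt p`
(`x_q(t) = L^n (a + t b) - (u_q + t v_q)`, slope between `L^n` and `L^(n+3)` in modulus; `|x_q| ≤ 4` on
the support; counts by ND4: `#{q : |x_q(s)| ≤ 4} ≤ L^n (2M)^n` for `s ∈ [-1,2]`; `4/L^n ≤ 1/(2 L^r)`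
because `L ≥ 16`). From EXP, PSX, DRX, ND4. -/
def Stmt_SPX : Prop := Stmt_CSH → Stmt_EXP → Stmt_PSX → Stmt_DRX → Stmt_ND4 →
  ∀ {L : ℕ} (D : Fin L → ℕ × ℕ) (M : ℕ) (K c : ℝ) (q : ℕ), CritX D M K c q → Rat D K → StX D M K

/-- The conclusion of UTX for `D`. -/
def UtX {L : ℕ} (D : Fin L → ℕ × ℕ) (M : ℕ) (K : ℝ) : Prop := ∃ C : ℝ, 0 < C ∧ ∀ k0 : ℕ, 1 ≤ k0 →
  volume {t : ℝ | t ∈ Icc (0 : ℝ) 1 ∧ t ∉ GdA D ((2 * (M : ℝ)) ^ k0 + 2)} ≤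
    ENNReal.ofReal (C * the L M K ^ k0)

/-- UTX. Upper tail of the iterates at the moving points, from ND4, `StX`; compare `RDS/TLE.lean`. For
fixed `a, b`: `bad_k := {t ∈ [0,1] : 2^(-k) < |Y (k+1) - Y k|}` (at `a + t b`); Chebyshev:
`|bad_k| ≤ 4^k ∫ (Y (k+1) - Y k)²`. `k = 2r+1`: `n = r+1`; `k = 2r+2`: `n = r+2`:
`|bad_k| ≤ 16 C (2M)⁴ (16 · 4 M² · 9 K/L)^r = 16 C (2M)⁴ the^(2r) ≤ C' the^k` for `k ≥ 1`
(`2r ≥ k - 2`, `the ≤ 1`). For `t` in no `bad_k`, `k ≥ k0`: `Y m ≤ (2M)^m ≤ (2M)^k0` for `m ≤ k0` (ND4,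
`Psi ≤ ind 4`), and `Y m ≤ Y k0 + ∑_(k ≥ k0) 2^(-k) ≤ (2M)^k0 + 1` for `m > k0`. Sum over `k ≥ k0`
(`the ≤ 1/2`) and over the `(2L²+1)²` pairs `(a, b)`. -/
def Stmt_UTX : Prop := Stmt_ND4 → ∀ {L : ℕ} (D : Fin L → ℕ × ℕ) (M : ℕ) (K c : ℝ) (q : ℕ),
  CritX D M K c q → StX D M K → UtX D M K

/-! ### B. Moments of the iterates in good directions -/

/-- The conclusion of GST for `D`. -/
def GsX {L : ℕ} (D : Fin L → ℕ × ℕ) (K : ℝ) : Prop := ∃ C : ℝ, 0 < C ∧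
  ∀ a b : ℤ, 2 ≤ |b| → |b| ≤ (L : ℤ) ^ 2 → ∀ H : ℝ, 1 ≤ H → ∀ n r : ℕ, 1 ≤ r → r + 1 ≤ n →
    ∫⁻ t in Gd D a b H, ENNReal.ofReal ((T D t)^[n] (fun x => gr D r x t ^ 2) (a + t * b)) ≤
      ENNReal.ofReal (C * H * (9 * K / L) ^ r)

/-- GST. As SPX, but without the factor `(2M)^(2n)`. By EXP `T^n (gr²)(a + t b) =
L^(-n) ∑_q gr r (x_q(t)) t ²`, and for `t ∈ [0,1]` only the `q` with `|x_q(t)| ≤ 9/4` count (SHR, `r ≥ 1`: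
`gr r = T^r (T Psi - Psi)`, `iter_succ`, `iter_sub`). Let `Q` be the set of the `q` for which some
`t ∈ Gd a b H` has `|x_q(t)| ≤ 9/4`; choose such a `t_q`. With `c_q` the zero of `x_q`,
`ρ = 1/(2 L^r) ≥ 4/L^n`, `|t - c_q| ≤ ρ` for all `t ∈ [0,1]` with `|x_q(t)| ≤ 9/4`, and (`sob_bound` of
`RDS/STEP.lean`) `gr r (x_q(t)) t ² ≤ 2 L^r HH(c_q, x_q(t))`, so `∫ ≤ L^(-n) 2 L^r ∑_(q ∈ Q) L^(-n)
∫_(|τ - c_q| ≤ ρ) Nr τ dτ`. COUNT: for fixed `τ` the number of the `q ∈ Q` with `|τ - c_q| ≤ ρ` is at most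
`12 ρ L^(n+3) L^n H`: put `δ = 1/(4 L^(n+3))`; the intervals `|s - t_q| ≤ δ` lie in `|s - τ| ≤ 3 ρ`, and
for fixed `s` all the `q` with `|s - t_q| ≤ δ` have, at the direction `t' = t_(q0) ∈ Gd a b H` of one of
them, `|x_q(t')| ≤ 9/4 + L^(n+3) 2 δ ≤ 3`, so their number is at most `∑_q Psi(x_q(t')) =
L^n Y t' n (a + t' b) ≤ L^n H`. Total `≤ 12 L³ H ∫_([-1,2]) Nr`. -/
def Stmt_GST : Prop := Stmt_CSH → Stmt_EXP → Stmt_PSX → Stmt_DRX → Stmt_SHR →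
  ∀ {L : ℕ} (D : Fin L → ℕ × ℕ) (M : ℕ) (K c : ℝ) (q : ℕ), CritX D M K c q → Rat D K → GsX D K

/-- The conclusion of GS2 for `D`. -/
def GtX {L : ℕ} (D : Fin L → ℕ × ℕ) (M : ℕ) (K : ℝ) : Prop := ∃ C : ℝ, 0 < C ∧
  ∀ a b : ℤ, 2 ≤ |b| → |b| ≤ (L : ℤ) ^ 2 → ∀ H : ℝ, 1 ≤ H → ∀ j r : ℕ,
    ∫⁻ t in Gd D a b H, ENNReal.ofReal ((T D t)^[j] (fun x => gr D r x t ^ 2) (a + t * b)) ≤
      ENNReal.ofReal (C * H * kap L M K ^ r)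

/-- GS2. From ND4, SHR, `GsX`; `κ = kap ≤ 1/4`. (i) `r ≤ 2`: `gr r ² ≤ (2M)⁶ ind 4` (DRX-type support,
`0 ≤ Y n ≤ (2M)^n`); for `j = 0` bound by `(2M)⁶`; for `j ≥ 1`: `T^j (gr²) = T^(j-1) (T (gr²))` and
`T (gr²) ≤ (2M)⁷ ind (9/4) ≤ (2M)⁷ Psi` (ND4, SHR with `n = 1`), so the value is `≤ (2M)⁷ Y (j-1) ≤
(2M)⁷ H` for `t ∈ Gd`. (ii) `r ≥ 3`, `j ≥ r + 1`: `GsX` with `n = j`, `9K/L ≤ κ² ≤ κ`. (iii) `r ≥ 3`,
`j ≤ r`: put `n' = (r + 2 - j)/2` (integer part), `r' = r - n' ≥ 1`; then `j + n' ≥ r' + 1`, and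
`gr r = T^n' (gr r')` (in `x`), Cauchy-Schwarz for the positive operator `T^n'` and functions which
vanish for `|y| > 4`: `(T^n' g)² ≤ T^n' (ind 4) T^n' (g²) ≤ (2M)^n' T^n' (g²)`; so
`T^j (gr r ²) ≤ (2M)^n' T^(j+n') (gr r' ²)` and `GsX` gives `C H (2M)^n' (9K/L)^r'`. As
`2M · 9K/L = κ²`, `9K/L ≤ κ²`, `n' ≤ r' + 2`, `2 r' ≥ r - 2`, this is `≤ C H (2M)² κ^(r-2)`. -/
def Stmt_GS2 : Prop := Stmt_ND4 → Stmt_SHR → ∀ {L : ℕ} (D : Fin L → ℕ × ℕ) (M : ℕ) (K c : ℝ)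
  (q : ℕ), CritX D M K c q → GsX D K → GtX D M K

/-- The conclusion of MOM for `D`. -/
def MoX {L : ℕ} (D : Fin L → ℕ × ℕ) (q : ℕ) : Prop := ∃ C : ℝ, 0 < C ∧
  ∀ a b : ℤ, 2 ≤ |b| → |b| ≤ (L : ℤ) ^ 2 → ∀ H : ℝ, 1 ≤ H → ∀ j m : ℕ,
    ∫⁻ t in Gd D a b H, ENNReal.ofReal ((T D t)^[j] (fun x => Y D t m x ^ q) (a + t * b)) ≤
      ENNReal.ofReal (C * H)

/-- MOM. From ND4, `GtX`. `Y m = Psi + ∑_(r < m) gr r`; Hölder: `(∑_(i ≤ m) h_i)^q ≤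
2^(q-1) ∑_i 2^(i(q-1)) |h_i|^q` (`∑ h_i = ∑ 2^(-i) (2^i h_i)`, convexity of `x^q`, `∑ 2^(-i) ≤ 2`), with
`h_0 = Psi`, `h_(r+1) = gr r`. `|gr r|^q ≤ (2M)^((r+1)(q-2)) gr r ²` because `0 ≤ Y n ≤ (2M)^n`. `T^j` is
linear and monotone; `T^j (Psi^q) ≤ Y j ≤ H` on `Gd`. So the integral is at most `2^(q-1) (H +
∑_r 2^((r+1)(q-1)) (2M)^((r+1)(q-2)) C H κ^r)`, a geometric series of ratio
`2^(q-1) (2M)^(q-2) κ ≤ 1/2` (`CritX.kap_small`). -/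
def Stmt_MOM : Prop := Stmt_ND4 → ∀ {L : ℕ} (D : Fin L → ℕ × ℕ) (M : ℕ) (K c : ℝ)
  (q : ℕ), CritX D M K c q → GtX D M K → MoX D q

/-! ### C. The bad pairs -/

open Classical in
/-- PRX. Pairs of different words by their first different letter. Induction on `n` with
`Fin.cons`: for `u = cons i u'`, `v = cons k v'` one has `L^(n+1) (pr u - pr v) = L^n dt (i,k) +
L^n (pr u' - pr v')`; the terms with `i = k` give `L` times the sum for `n`, those with `i ≠ k` give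
`(T^n φ)(dt (i,k))`, since `(T^n φ)(x) = L^(-n) ∑_(u', v') φ(L^n x - L^n (pr u' - pr v'))` (induction,
`iter_succ'`), where `u'` and `v'` may be exchanged. -/
def Stmt_PRX : Prop := ∀ {L : ℕ} (D : Fin L → ℕ × ℕ), Ok D → ∀ (t : ℝ) (φ : ℝ → ℝ) (n : ℕ),
  (∑ w : Wd L n × Wd L n,
    if w.1 = w.2 then 0 else φ ((L : ℝ) ^ n * (pr D t w.1 - pr D t w.2))) / (L : ℝ) ^ n =
  ∑ j ∈ Finset.range n, (∑ p : Fin L × Fin L,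
    if p.1 = p.2 then 0 else (T D t)^[j] φ (dt D t p)) / L

/-- OPQ. If `|L dy p - dy p'| ≤ 1` then `|dy p| ≤ 1`. If `dy p = 0` then `|dy p'| ≤ 1` and `dx p ≠ 0`
(different digits), so `|L dx p - dx p'| ≥ 6` by the second part of `Opp`. If `|dy p| = 1` then
`|dy p'| ≥ L - 1`, and `|L dx p - dx p'| ≥ 6` by the first part (`dx p = 0`) or the third part
(`dx p ≠ 0`) of `Opp`. So `|L dt p - dt p'| ≥ 6 - 1`. -/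
def Stmt_OPQ : Prop := ∀ {L : ℕ} (D : Fin L → ℕ × ℕ), Ok D → Function.Injective D → Opp D →
  ∀ p p' : Fin L × Fin L, p.1 ≠ p.2 → |(L : ℤ) * dy D p - dy D p'| ≤ 1 → ∀ t ∈ Icc (0 : ℝ) 1,
    4 < |(L : ℝ) * dt D t p - dt D t p'|

/-- The conclusion of BDX for `D`. -/
def BdX {L : ℕ} (D : Fin L → ℕ × ℕ) (q : ℕ) : Prop := ∃ C : ℝ, 0 < C ∧
  ∀ (N : ℕ) (H β : ℝ), 1 ≤ H → 1 ≤ β →
    ∫⁻ t in GdA D H, ENNReal.ofReal (Bd D N β t) ≤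
      ENNReal.ofReal (C * H * (N : ℝ) ^ 2 / β ^ (q - 1))

/-- BDX. From SHR, PRX, OPQ, `MoX`. `ps ≤ Y^q/β^(q-1)`. By PRX (for `φ = ps m`, `m = N - (n+1)`,
level `n + 1`) `Bd` is the sum over `n < N`, `j ≤ n` of `(1/L) ∑_(p.1 ≠ p.2) T^j (ps m)(dt p)`. For `j ≥ 1`:
`T^j φ (dt p) = (1/L) ∑_(p') T^(j-1) φ (L dt p - dt p')` and `L dt p - dt p' = a + t b`,
`a = L dx p - dx p'`, `b = L dy p - dy p'`, `|a|, |b| ≤ L²`. If `|b| ≤ 1` the term vanishes (OPQ, SHR: all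
the functions vanish for `|x| > 4`); if `|b| ≥ 2` use `MoX` (`GdA ⊆ Gd a b`). For `j = 0`: `ps 0 = 0` as
`Psi ≤ 1 ≤ β`; for `m ≥ 1`: `Y m (dt p)^q = ((1/L) ∑_(p') Y (m-1)(a + t b))^q ≤
L^(q-2) ∑_(p') Y (m-1) (a + t b)^q`, and `MoX` with `j = 0`. There are at most `N²` pairs `(n, j)`, each
with at most `L⁴` terms. -/
def Stmt_BDX : Prop := Stmt_SHR → Stmt_PRX → Stmt_OPQ → ∀ {L : ℕ} (D : Fin L → ℕ × ℕ) (M : ℕ)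
  (K c : ℝ) (q : ℕ), CritX D M K c q → Function.Injective D → Opp D → MoX D q → BdX D q

/-- The conclusion of EXC for `D`. -/
def ExX {L : ℕ} (D : Fin L → ℕ × ℕ) (q : ℕ) : Prop := ∃ C : ℝ, 0 < C ∧ ∀ n : ℕ, 1 ≤ n →
  ∃ β : ℕ, 1 ≤ β ∧ (β : ℝ) ≤ 2 * (n : ℝ) ^ ((5 : ℝ) / ((q : ℝ) - 1)) ∧ ∀ N : ℕ, N ≤ n →
    volume {t : ℝ | t ∈ Icc (0 : ℝ) 1 ∧ 1 / 4 < Bd D N β t} ≤ ENNReal.ofReal (C / n)

/-- EXC. From `UtX`, `BdX`. Let `k0 ≥ 1` be the least with `the^k0 ≤ 1/n` (`the ≤ 1/2`). Then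
`(2M)^(k0-1) ≤ the^(-(k0-1)) ≤ n` (`the · 2M ≤ 1`), so `H := (2M)^k0 + 2 ≤ 2 M n + 2`. Take
`β = ⌈n^(5/(q-1))⌉`, `β^(q-1) ≥ n⁵`. The set is contained in `[0,1] minus GdA H`, of measure
`≤ C the^k0 ≤ C/n`, and `{t ∈ GdA H : Bd > 1/4}`, of measure `≤ 4 C H N²/β^(q-1) ≤ C'/n` (Markov). -/
def Stmt_EXC : Prop := ∀ {L : ℕ} (D : Fin L → ℕ × ℕ) (M : ℕ)
  (K c : ℝ) (q : ℕ), CritX D M K c q → UtX D M K → BdX D q → ExX D q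

/-! ### D. The stopping argument -/

/-- ST2. Compare `RDS/STOP.lean` and `RDS/AUT.lean`. `A` is the disjoint union of the maximal `L`-adic
intervals `I` of level `n ≤ N` with `K ≤ cnt(I)`; `cnt(I) ≤ L K`, `n ≥ 1` (at level `0` there is one
square, `K ≥ 2`). Off `A`: `f N ≤ K`, so `∫_(off A) (f N)² ≤ K ∫ f N ≤ 2 K`. Over `I`:
`f N = ∑_(u ∈ Wd n) f_u`, `f_u(x) = f (N-n) (L^n (x - pr u))` (`f_add`), only the `u` which meet `I` count,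
and `∫ f_u f_v ≤ L^(-n) G(L^n (pr u - pr v))`, `G(x) = ∫ f (N-n) y f (N-n) (y + x) dy =
T^(N-n) tent (x) ≤ 2 Y (N-n) (x)` (AUT, `tent_le`). The pairs `u = v`: `L^(-n) S (N-n) ≤ |I| S N`
(`S_mono`). The pairs `u ≠ v`: `≤ 2 |I| (β + ps β (N-n) (..))` (`Y_le_ps`). A pair `(u, v)` of level `n` meets at
most `3` common intervals `I` of level `n`. Sum: `S N ≤ 2 K + L K |A| S N + 2 β (L K)² |A| + 6 Bd`. As
`6 Bd ≤ 2 ≤ K ≤ S N/8`, `2 K ≤ S N/4`: `(5/8) S N ≤ |A| (L K S N + 2 β L² K²) ≤ |A| S N (L K +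
β L² K/4) ≤ |A| S N β L² K/2`. -/
def Stmt_ST2 : Prop := ∀ {L : ℕ} (D : Fin L → ℕ × ℕ), Ok D → ∀ (N K : ℕ) (β t : ℝ), 0 ≤ t →
  t ≤ 1 → 2 ≤ K → 1 ≤ β → 8 * K ≤ S D N t → Bd D N β t ≤ 1 / 4 →
  1 / (β * (L : ℝ) ^ 2 * K) ≤ (volume (A D t N K)).toReal

/-- The conclusion of DC2 for `D`. -/
def DcX {L : ℕ} (D : Fin L → ℕ × ℕ) : Prop := ∀ (N k β : ℕ) (t : ℝ), 0 ≤ t → t ≤ 1 → 1 ≤ k →
  1 ≤ β → 8 * 2 ^ k ≤ S D N t → Bd D N β t ≤ 1 / 4 → ∀ n : ℕ, N * (22 * β * L ^ 2 * k) ≤ n →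
    len D n t ≤ 10 / 2 ^ k

/-- DC2. Compare `RDS/DICH.lean`; from VIT, REC, ST2. For `K = 2^i`, `1 ≤ i ≤ k` (`8 K ≤ S N`):
`σ = ∑ L^(-b.1) ≥ |A|/20 ≥ 1/(20 β L² K)`, `η ≥ K σ ≥ 1/(20 β L²)`, and `5 σ ≤ (5/K) η`, so
`len (N+M) - 5/K ≤ (1 - 1/(20 β L²)) (len M - 5/K)` or `len (N+M) ≤ 5/K` (also `len` is antitone). Scale `i`
starts with `len ≤ 10/2^(i-1) = 20/K` and `22 β L²` steps of `N` generations bring it to `≤ 10/K`: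
`15 (1 - 1/(20 β L²))^(22 β L²) ≤ 15 exp(-1.1) ≤ 5` (`exp 1.1 ≥ 3`). For `i = 1`: `len ≤ 2 ≤ 10`. -/
def Stmt_DC2 : Prop := Stmt_VIT → Stmt_REC → Stmt_ST2 → ∀ {L : ℕ} (D : Fin L → ℕ × ℕ), Ok D → DcX D

/-- The conclusion of IN2 for `D`. -/
def InX {L : ℕ} (D : Fin L → ℕ × ℕ) : Prop := ∃ C : ℝ, 0 < C ∧ ∀ (n N β k : ℕ) (e : ℝ), 1 ≤ n →
  1 ≤ N → 1 ≤ β → 1 ≤ k → 0 ≤ e → n ≤ 2 ^ k → N * (22 * β * L ^ 2 * k) ≤ n →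
    volume {t : ℝ | t ∈ Icc (0 : ℝ) 1 ∧ 1 / 4 < Bd D N β t} ≤ ENNReal.ofReal e →
    ∫ t in (0 : ℝ)..1, len D n t ≤ 10 / n + C * k / N + 20 * e

/-- IN2. Compare `RDS/INT.lean`; from `DcX`, `Tail`. For `1 ≤ i ≤ k`: `{t : len n t > 10/2^i} ⊆
{t : S N t ≤ 8 · 2^i} ∪ {t : Bd > 1/4}`, of measure `≤ C 8 · 2^i/N + e` (`Tail` with `y = 8 · 2^i`). As
`len ≤ 2 ≤ 10`: `∫ len ≤ 10/2^k + ∑_(i=1)^k (10/2^(i-1)) (8 C 2^i/N + e) ≤ 10/n + 160 C k/N + 20 e`. -/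
def Stmt_IN2 : Prop := ∀ {L : ℕ} (D : Fin L → ℕ × ℕ), Ok D → DcX D → Tail D → InX D

/-- MEN. The mean length, from `ExX`, `InX`. For `n ≥ 1` let `k = Nat.log 2 n + 1` (`n < 2^k`), `β` from
`ExX`, `N = n / (22 β L² k)` (integer part). If `N = 0` then `n < 22 β L² k` and the integral is
`≤ 2 ≤ 44 β L² k/n`. Otherwise `N ≥ n/(44 β L² k)`, `e = C/n`, and the integral is
`≤ (10 + C 44 β L² k² + 20 C)/n`. As `β ≤ 2 n^(5/(q-1))` and `k² ≤ C_q n^(1/(q-1))`, both are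
`≤ C' n^(6/(q-1))/n ≤ C' n^(-1+ε)`. -/
def Stmt_MEN : Prop := ∀ {L : ℕ} (D : Fin L → ℕ × ℕ) (q : ℕ) (ε : ℝ), Ok D → 2 ≤ q →
  6 ≤ ε * ((q : ℝ) - 1) → ExX D q → InX D →
  ∃ C : ℝ, 0 < C ∧ ∀ n : ℕ, 1 ≤ n → ∫ t in (0 : ℝ)..1, len D n t ≤ C * (n : ℝ) ^ (-1 + ε)

/-- CRX. The criterion: assembly. -/
def Stmt_CRX : Prop := ∀ {L : ℕ} (D : Fin L → ℕ × ℕ) (q : ℕ) (ε : ℝ), 6 ≤ ε * ((q : ℝ) - 1) →
  Function.Injective D → PX q D → PX q (fl D) → PX q (sw D) → PX q (fl (sw D)) → ConcX ε D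

/-! ### E. Random digits -/

/-- ROP. For an ordered pair `i ≠ k` of indices the number of the pairs of digits `(y, z)` with the
forbidden relations is at most `2 · 11 L + 30 · 3 L + 30 · 2 ≤ 116 L` (`|x - x'| ≥ L - 5` for at most `30`
pairs `(x, x')`; `|y - y'| ≥ L - 1` for `2` pairs), so at most `116 L L^(2(L-2))` of the `ω` have them at
`(i, k)`; there are at most `L²` pairs. (`i = k`: `dx = dy = 0`, nothing forbidden.) -/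
def Stmt_ROP : Prop := ∀ L : ℕ, 16 ≤ L →
  nb L (fun ω => ¬ Opp (dg ω)) ≤ 200 / (L : ℝ) * (L : ℝ) ^ (2 * L)

/-- AS2. As `RDS/AS.lean`, with a smaller `M`: `M = ⌊L^(1/(100 q))⌋ + 1`, `s = ⌈L^(19/20)⌉`,
`s1 = ⌊L^(99/100)⌋`, `K = L^(1/10)`. New: `72 K (4M)^(2q) ≤ 72 · 8^(2q) L^(1/10 + 1/50) ≤ L`; and
`L² 11^k/k! ≤ L² (11 e/k)^k → 0` for `k ≥ L^(1/(100 q))`. -/
def Stmt_AS2 : Prop := ∀ q : ℕ, 2 ≤ q → ∃ (M s s1 : ℕ → ℕ) (K : ℕ → ℝ), ∃ δ : ℕ → ℝ,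
  Filter.Tendsto δ Filter.atTop (nhds 0) ∧ ∃ L0 : ℕ, 200 ≤ L0 ∧ ∀ L : ℕ, L0 ≤ L →
    (1 ≤ M L ∧ M L + 1 ≤ L ∧ 1 ≤ s L ∧ 4 * s L ≤ L ∧ 4 * s1 L ≤ L ∧ 1 ≤ K L ∧
    144 * K L * (M L : ℝ) ^ 2 ≤ ((s L : ℝ) / L) ^ 6 * L ∧
    20 * (L : ℝ) ^ 2 * (11 ^ (M L + 1) / (Nat.factorial (M L + 1) : ℝ)) + 3 / K L +
      (4 * (L : ℝ) ^ s1 L * Real.exp (-((L : ℝ) / 96)) +
      400 * (L : ℝ) ^ 2 * (L : ℝ) ^ s L * Real.exp (-((s1 L : ℝ) / (96 * M L)))) ≤ δ L) ∧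
    72 * K L * (4 * (M L : ℝ)) ^ (2 * q) ≤ L

/-- RN2. As `RDS/RND.lean`, with `Opp` (ROP) and the additional clause of AS2. -/
def Stmt_RN2 : Prop := Stmt_RC → Stmt_RG → Stmt_RU → Stmt_RS → Stmt_RH → Stmt_RD → Stmt_RE →
  Stmt_RL → Stmt_AS2 → Stmt_ROP → ∀ q : ℕ, 2 ≤ q →
  Filter.Tendsto (fun L : ℕ => nb L (fun ω => ¬ PX q (dg ω)) / (L : ℝ) ^ (2 * L))
    Filter.atTop (nhds 0)

open Classical in
/-- FNX. The theorem, as `RDS/FIN.lean`. -/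
def Stmt_FNX : Prop := ∀ ε : ℝ, 0 < ε → Filter.Tendsto (fun L : ℕ =>
    (((digitSets L).filter fun D => GoodX ε L D).card : ℝ) / ((digitSets L).card : ℝ))
  Filter.atTop (nhds 1)

end Pool.Agent.RDX
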